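import Mathlib
import Pool.Agent.U839.Disp.Large2

set_option autoImplicit false

/-! # The largest gap: from windows to gaps

The lemmas of `Pool.Agent.U839.Disp.Fin` (helper839) on `GQ`, repeated here in order not to import the rest
of that file. -/

open MeasureTheory ProbabilityTheory Filter Finset Topology

namespace Pool.Agent.U52.PD

open Pool.Agent.U839.Disp (Wd tlog EB EB_large)

variable {Ω : Type*} [MeasurableSpace Ω] {μ : Measure Ω} [IsProbabilityMeasure μ]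

/-- the set of the displaced primes -/
def QQ (ξ : ℕ → Ω → ℕ) (ω : Ω) : Set ℕ := {q | ∃ p : ℕ, p.Prime ∧ p + ξ p ω = q}

/-- the largest gap up to `X` -/
noncomputable def GQ (Q : Set ℕ) (X : ℕ) : ℕ :=
  sSup {g | ∃ k, Nat.nth (· ∈ Q) (k + 1) ≤ X ∧ g = Nat.nth (· ∈ Q) (k + 1) - Nat.nth (· ∈ Q) k}

omit [MeasurableSpace Ω] in
theorem QQ_inf (ξ : ℕ → Ω → ℕ) (ω : Ω) : (QQ ξ ω).Infinite := by
  rw [Set.infinite_iff_exists_gt]
  intro N
  obtain ⟨p, hp1, hp2⟩ := Nat.exists_infinite_primes (N + 1)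
  exact ⟨p + ξ p ω, ⟨p, hp2, rfl⟩, by omega⟩

theorem GQ_ge (Q : Set ℕ) (hQ : Q.Infinite) (t h X a b : ℕ) (ha : a ∈ Q) (hat : a ≤ t)
    (hb : b ∈ Q) (htb : t < b) (hbX : b ≤ X) (hemp : ∀ m ∈ Q, ¬(t < m ∧ m ≤ t + h)) :
    h ≤ GQ Q X := by
  classical
  have hQ' : (Set.ofPred (· ∈ Q)).Infinite := hQ
  have hmono := Nat.nth_strictMono hQ'
  set k : ℕ := Nat.count (· ∈ Q) (t + 1) with hk
  have hk1 : 1 ≤ k := by
    rw [hk]
    have h1 : Nat.count (· ∈ Q) a < Nat.count (· ∈ Q) (t + 1) :=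
      (Nat.lt_nth_iff_count_lt hQ').2 (by
        rw [Nat.nth_count (p := (· ∈ Q)) ha]
        omega)
    omega
  have hkk : k - 1 + 1 = k := by omega
  have h1 : Nat.nth (· ∈ Q) (k - 1) < t + 1 := Nat.nth_lt_of_lt_count (by omega)
  have h2 : t + 1 ≤ Nat.nth (· ∈ Q) k := Nat.le_nth_count hQ' (t + 1)
  have h3 : Nat.nth (· ∈ Q) k ≤ b := by
    have h4 : Nat.count (· ∈ Q) (t + 1) ≤ Nat.count (· ∈ Q) b := Nat.count_monotone _ htb
    have h5 : Nat.nth (· ∈ Q) (Nat.count (· ∈ Q) b) = b := Nat.nth_count (p := (· ∈ Q)) hb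
    rw [← h5]
    exact hmono.monotone h4
  have h4 : Nat.nth (· ∈ Q) k ∈ Q := Nat.nth_mem_of_infinite hQ' _
  have h5 : t + h < Nat.nth (· ∈ Q) k := by
    by_contra hcon
    exact hemp _ h4 ⟨by omega, by omega⟩
  have hbdd : BddAbove {g | ∃ k, Nat.nth (· ∈ Q) (k + 1) ≤ X ∧
      g = Nat.nth (· ∈ Q) (k + 1) - Nat.nth (· ∈ Q) k} := by
    refine ⟨X, ?_⟩
    rintro g ⟨k, h1, rfl⟩
    omega
  have h6 : Nat.nth (· ∈ Q) k - Nat.nth (· ∈ Q) (k - 1) ≤ GQ Q X := by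
    apply le_csSup hbdd
    refine ⟨k - 1, ?_, ?_⟩
    · rw [hkk]; omega
    · rw [hkk]
  omega

theorem GQ_le (Q : Set ℕ) (hQ : Q.Infinite) (c : ℝ) (hc : 0 < c) (n₀ : ℕ) (hn₀ : 1 ≤ n₀)
    (h : ∀ n ≥ n₀, ∃ m ∈ Q, n < m ∧ m ≤ n + Wd c n) (X : ℕ) :
    GQ Q X ≤ max (n₀ + Wd c n₀) (Wd c X) := by
  classical
  have hQ' : (Set.ofPred (· ∈ Q)).Infinite := hQ
  have hmono := Nat.nth_strictMono hQ'
  apply csSup_le'
  rintro g ⟨k, hk, rfl⟩
  set a : ℕ := Nat.nth (· ∈ Q) k with ha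
  set b : ℕ := Nat.nth (· ∈ Q) (k + 1) with hb
  have hab : a < b := hmono (Nat.lt_succ_self k)
  have hnext : ∀ m ∈ Q, a < m → b ≤ m := by
    intro m hm ham
    have h3 : k < Nat.count (· ∈ Q) m := (Nat.lt_nth_iff_count_lt hQ').2 ham
    have h4 : Nat.nth (· ∈ Q) (Nat.count (· ∈ Q) m) = m := Nat.nth_count (p := (· ∈ Q)) hm
    rw [← h4]
    exact hmono.monotone h3
  by_cases han : a < n₀
  · obtain ⟨m, hm, h1, h2⟩ := h n₀ le_rfl
    have h3 := hnext m hm (by omega)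
    exact le_max_of_le_left (by omega)
  · push Not at han
    obtain ⟨m, hm, h1, h2⟩ := h a han
    have h3 := hnext m hm h1
    apply le_max_of_le_right
    have h4 : Wd c a ≤ Wd c X := by
      apply Nat.floor_le_floor
      have h5 : Real.log a ≤ Real.log X :=
        Real.log_le_log (by exact_mod_cast (by omega : 0 < a)) (by exact_mod_cast (by omega : a ≤ X))
      have h6 : 0 ≤ Real.log a := Real.log_natCast_nonneg a
      gcongr
    omega

/-- from empty windows in dyadic blocks to the lower bound for the largest gap -/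
theorem fin_low (Q : Set ℕ) (hQ : Q.Infinite) (c c' : ℝ) (hc' : 0 < c') (hcc : c' < c)
    (h1 : ∀ᶠ j : ℕ in atTop, ∃ t : ℕ, 2 ^ j < t ∧ t ≤ 2 ^ (j + 2) ∧
      ∀ m ∈ Q, ¬(t < m ∧ m ≤ t + Wd c t))
    (h2 : ∀ᶠ t : ℕ in atTop, ∃ b ∈ Q, t < b ∧ b ≤ 3 * t) :
    ∀ᶠ X : ℕ in atTop, c' * (Real.log X) ^ 2 ≤ GQ Q X := by
  obtain ⟨a, ha⟩ := hQ.nonempty
  obtain ⟨t₀, ht₀⟩ := eventually_atTop.1 h2
  have hl2 : 0 < Real.log 2 := Real.log_pos (by norm_num)
  have hcpos : 0 < c := hc'.trans hcc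
  -- comparison
  have e1 : ∀ᶠ j : ℕ in atTop, c' * (((j : ℝ) + 5) * Real.log 2) ^ 2 ≤ c * (j * Real.log 2) ^ 2 - 1 := by
    have t1 : Tendsto (fun j : ℕ => (j : ℝ)) atTop atTop := tendsto_natCast_atTop_atTop
    have hK : 0 < (c - c') * (Real.log 2) ^ 2 := mul_pos (by linarith) (by positivity)
    filter_upwards [t1.eventually_ge_atTop ((c' * 35 * (Real.log 2) ^ 2 + 1) /
      ((c - c') * (Real.log 2) ^ 2)), t1.eventually_ge_atTop 1] with j g1 g2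
    rw [div_le_iff₀ hK] at g1
    have g3 : (c' * 35 * (Real.log 2) ^ 2 + 1) * j ≤ (j * ((c - c') * (Real.log 2) ^ 2)) * j :=
      mul_le_mul_of_nonneg_right g1 (by linarith)
    have g4 : c' * (Real.log 2) ^ 2 * 25 ≤ c' * (Real.log 2) ^ 2 * 25 * j := by
      have : 0 ≤ c' * (Real.log 2) ^ 2 * 25 := by positivity
      nlinarith
    nlinarith
  obtain ⟨j₀, hj₀⟩ := eventually_atTop.1 (h1.and (e1.and (eventually_ge_atTop (max t₀ a))))
  refine eventually_atTop.2 ⟨2 ^ (j₀ + 4), fun X hX => ?_⟩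
  -- the block
  set l : ℕ := Nat.log 2 X with hl
  have hX0 : X ≠ 0 := by
    have : 0 < 2 ^ (j₀ + 4) := by positivity
    omega
  have hl1 : 2 ^ l ≤ X := Nat.pow_log_le_self 2 hX0
  have hl2' : X < 2 ^ (l + 1) := Nat.lt_pow_succ_log_self (by norm_num) X
  have hl3 : j₀ + 4 ≤ l := Nat.le_log_of_pow_le (by norm_num) hX
  obtain ⟨⟨t, k1, k2, k3⟩, k4, k5⟩ := hj₀ (l - 4) (by omega)
  set j : ℕ := l - 4 with hj
  have hlj : l = j + 4 := by omega
  have hjt : j < 2 ^ j := Nat.lt_two_pow_self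
  have k6 : t₀ ≤ j := (le_max_left _ _).trans k5
  have k7 : a ≤ j := (le_max_right _ _).trans k5
  obtain ⟨b, hb1, hb2, hb3⟩ := ht₀ t (by omega)
  have hbX : b ≤ X := by
    have : 3 * t ≤ 2 ^ (j + 4) := by
      have h5 : (2 : ℕ) ^ (j + 4) = 4 * 2 ^ (j + 2) := by ring
      omega
    rw [hlj] at hl1
    omega
  have h6 := GQ_ge Q hQ t (Wd c t) X a b ha (by omega) hb1 hb2 hbX k3
  have h7 : (Wd c t : ℝ) ≤ GQ Q X := by exact_mod_cast h6
  refine le_trans ?_ h7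
  have h8 : c * (Real.log t) ^ 2 - 1 ≤ Wd c t := (Nat.sub_one_lt_floor _).le
  have h9 : (j : ℝ) * Real.log 2 ≤ Real.log t := by
    rw [← Real.log_pow]
    apply Real.log_le_log (by positivity)
    exact_mod_cast k1.le
  have h10 : Real.log X ≤ ((j : ℝ) + 5) * Real.log 2 := by
    have h11 : (X : ℝ) ≤ 2 ^ (j + 5) := by
      rw [hlj] at hl2'
      exact_mod_cast hl2'.le
    have := Real.log_le_log (by exact_mod_cast Nat.pos_of_ne_zero hX0) h11
    rw [Real.log_pow] at this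
    push_cast at this
    exact this
  have h11 : 0 ≤ Real.log X := Real.log_natCast_nonneg X
  calc c' * (Real.log X) ^ 2 ≤ c' * (((j : ℝ) + 5) * Real.log 2) ^ 2 := by gcongr
    _ ≤ c * (j * Real.log 2) ^ 2 - 1 := k4
    _ ≤ c * (Real.log t) ^ 2 - 1 := by gcongr
    _ ≤ _ := h8

/-- `Wd c t ≤ t` -/
theorem Wd_small (c : ℝ) : ∀ᶠ t : ℕ in atTop, Wd c t ≤ t := by
  filter_upwards [EB_large 0 c 2] with t ht
  unfold EB at ht
  rw [pow_zero, div_one] at ht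
  have := Nat.floor_le_floor ht
  rwa [Nat.floor_natCast] at this


end Pool.Agent.U52.PD
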