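import Mathlib
import Pool.Agent.U839.Disp.Law

set_option autoImplicit false

/-! # Primes of which a part is displaced at random: hitting probabilities -/

open MeasureTheory ProbabilityTheory Filter Finset Topology

namespace Pool.Agent.U52.PD

open Pool.Agent.U839.Disp (HH EE HH_meas HH_sum EE_prod EE_meas one_sub_ge)

variable {Ω : Type*} [MeasurableSpace Ω] {μ : Measure Ω} [IsProbabilityMeasure μ]

/-- the laws: `ξ p ≠ 0` with probability `d p`, and each value `j ≥ 1` has probability at most `q p` -/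
structure Law (μ : Measure Ω) (ξ : ℕ → Ω → ℕ) (d q : ℕ → ℝ) : Prop where
  z : ∀ p : ℕ, p.Prime → μ.real (ξ p ⁻¹' {0}) = 1 - d p
  u : ∀ p : ℕ, p.Prime → ∀ j : ℕ, 1 ≤ j → μ.real (ξ p ⁻¹' {j}) ≤ q p

omit [IsProbabilityMeasure μ] in
theorem Law.q_nonneg {ξ : ℕ → Ω → ℕ} {d q : ℕ → ℝ} (hL : Law μ ξ d q) {p : ℕ} (hp : p.Prime) :
    0 ≤ q p := measureReal_nonneg.trans (hL.u p hp 1 le_rfl)

theorem HH_notin {ξ : ℕ → Ω → ℕ} (hm : ∀ p, Measurable (ξ p)) {d q : ℕ → ℝ}
    (hL : Law μ ξ d q) (I : Finset ℕ) {p : ℕ} (hp : p.Prime) (hpI : p ∉ I) :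
    μ.real (HH ξ I p) ≤ I.card * q p := by
  rw [HH_sum hm]
  have h0 := hL.q_nonneg hp
  calc ∑ i ∈ I.filter (fun i => p ≤ i), μ.real (ξ p ⁻¹' {i - p}) ≤
      ∑ _i ∈ I.filter (fun i => p ≤ i), q p := by
        apply Finset.sum_le_sum
        intro i hi
        rw [Finset.mem_filter] at hi
        have hne : i ≠ p := fun h => hpI (h ▸ hi.1)
        exact hL.u p hp _ (by omega)
    _ = (I.filter (fun i => p ≤ i)).card * q p := by
        rw [Finset.sum_const, nsmul_eq_mul]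
    _ ≤ I.card * q p := by
        apply mul_le_mul_of_nonneg_right _ h0
        exact_mod_cast Finset.card_le_card (Finset.filter_subset _ _)

theorem HH_all {ξ : ℕ → Ω → ℕ} (hm : ∀ p, Measurable (ξ p)) {d q : ℕ → ℝ}
    (hL : Law μ ξ d q) (I : Finset ℕ) {p : ℕ} (hp : p.Prime) :
    μ.real (HH ξ I p) ≤ (1 - d p) + I.card * q p := by
  classical
  have h1 : HH ξ I p ⊆ (ξ p ⁻¹' {0}) ∪ HH ξ (I.erase p) p := by
    intro ω hω
    by_cases h : ξ p ω = 0
    · exact Or.inl h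
    · right
      unfold HH at hω ⊢
      rw [Set.mem_ofPred_eq] at hω ⊢
      rw [Finset.mem_erase]
      exact ⟨by omega, hω⟩
  have h2 := HH_notin hm hL (I.erase p) hp (Finset.notMem_erase p I)
  calc μ.real (HH ξ I p) ≤ μ.real ((ξ p ⁻¹' {0}) ∪ HH ξ (I.erase p) p) := measureReal_mono h1
    _ ≤ μ.real (ξ p ⁻¹' {0}) + μ.real (HH ξ (I.erase p) p) := measureReal_union_le _ _
    _ ≤ (1 - d p) + (I.erase p).card * q p := by rw [hL.z p hp]; linarith
    _ ≤ _ := by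
        have h4 : ((I.erase p).card : ℝ) ≤ I.card := by
          exact_mod_cast Finset.card_le_card (Finset.erase_subset _ _)
        have h0 := hL.q_nonneg hp
        nlinarith

theorem HH_move {ξ : ℕ → Ω → ℕ} (hm : ∀ p, Measurable (ξ p)) {d q : ℕ → ℝ}
    (hL : Law μ ξ d q) (I : Finset ℕ) {p : ℕ} (hp : p.Prime) (hpI : p ∉ I) :
    μ.real (HH ξ I p) ≤ d p := by
  have h1 : HH ξ I p ⊆ (ξ p ⁻¹' {0})ᶜ := by
    intro ω hω h
    rw [Set.mem_preimage, Set.mem_singleton_iff] at h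
    unfold HH at hω
    rw [Set.mem_ofPred_eq, h, add_zero] at hω
    exact hpI hω
  refine (measureReal_mono h1).trans ?_
  rw [probReal_compl_eq_one_sub (hm p (measurableSet_singleton _)), hL.z p hp]
  linarith

theorem HH_zero {ξ : ℕ → Ω → ℕ} {m : ℕ → ℕ} (I : Finset ℕ) {p : ℕ}
    (hξ : ∀ᵐ ω ∂μ, ξ p ω ≤ m p) (h : ∀ i ∈ I, i < p ∨ p + m p < i) :
    μ.real (HH ξ I p) = 0 := by
  have h1 : μ (HH ξ I p) = 0 := by
    rw [measure_eq_zero_iff_ae_notMem]
    filter_upwards [hξ] with ω hω hcon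
    unfold HH at hcon
    rw [Set.mem_ofPred_eq] at hcon
    have := h _ hcon
    omega
  rw [measureReal_def, h1, ENNReal.toReal_zero]

theorem HH_ge {ξ : ℕ → Ω → ℕ} (hm : ∀ p, Measurable (ξ p)) {D : ℕ → ℕ} (r : ℝ)
    (I : Finset ℕ) {p : ℕ} (hr : ∀ j : ℕ, 1 ≤ j → j ≤ D p → r ≤ μ.real (ξ p ⁻¹' {j}))
    (h : ∀ i ∈ I, p < i ∧ i ≤ p + D p) :
    I.card * r ≤ μ.real (HH ξ I p) := by
  rw [HH_sum hm]
  have h1 : I.filter (fun i => p ≤ i) = I := by
    apply Finset.filter_true_of_mem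
    intro i hi
    exact (h i hi).1.le
  rw [h1]
  calc (I.card : ℝ) * r = ∑ _i ∈ I, r := by rw [Finset.sum_const, nsmul_eq_mul]
    _ ≤ _ := by
        apply Finset.sum_le_sum
        intro i hi
        have := h i hi
        exact hr _ (by omega) (by omega)

/-- the exponent of the prime `p` -/
noncomputable def ex (μ : Measure Ω) (ξ : ℕ → Ω → ℕ) (d : ℕ → ℝ) (ε : ℝ) (I : Finset ℕ) (p : ℕ) : ℝ :=
  if p ∈ I then Real.log (1 / d p) + ε else (1 + ε) * μ.real (HH ξ I p)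

theorem ex_nonneg {ξ : ℕ → Ω → ℕ} {d : ℕ → ℝ} {ε : ℝ} (hε : 0 ≤ ε) (I : Finset ℕ) (p : ℕ)
    (hd : 0 < d p) (hd1 : d p ≤ 1) : 0 ≤ ex μ ξ d ε I p := by
  unfold ex
  split_ifs
  · have : 0 ≤ Real.log (1 / d p) := Real.log_nonneg (by rw [le_div_iff₀ hd]; linarith)
    linarith
  · have := measureReal_nonneg (μ := μ) (s := HH ξ I p)
    positivity

/-- lower bound for the probability that a window is empty -/
theorem EE_lower {ξ : ℕ → Ω → ℕ} (hm : ∀ p, Measurable (ξ p)) (hind : iIndepFun ξ μ) {d q : ℕ → ℝ}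
    (hL : Law μ ξ d q) (δ : ℝ) (hδ : 0 < δ) (hd : ∀ p, δ ≤ d p ∧ d p ≤ 1) (ε : ℝ) (hε : 0 < ε)
    (hε1 : ε ≤ 1) (I T : Finset ℕ)
    (hT0 : ∀ p : ℕ, p.Prime → p ∉ T → μ.real (HH ξ I p) = 0)
    (hTb : ∀ p ∈ T, (I.card : ℝ) * q p ≤ δ * (ε / 2)) :
    Real.exp (-∑ p ∈ T, ex μ ξ d ε I p) ≤ μ.real (EE ξ I) := by
  classical
  rw [EE_prod hm hind I (I.sup id) (fun i hi => Finset.le_sup (f := id) hi)]
  set Pr := (Icc 1 (I.sup id)).filter Nat.Prime with hPr
  have h1 : ∀ p ∈ Pr, (if p ∈ T then Real.exp (-ex μ ξ d ε I p) else 1) ≤ 1 - μ.real (HH ξ I p) := by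
    intro p hp
    rw [hPr, Finset.mem_filter] at hp
    split_ifs with hpT
    · have hb := hTb p hpT
      have hdp := hd p
      have hdp0 : 0 < d p := lt_of_lt_of_le hδ hdp.1
      unfold ex
      split_ifs with hpI
      · have h2 := HH_all hm hL I hp.2
        have h3 := one_sub_ge (ε / 2) (by positivity) (by linarith)
        have h4 : Real.exp (-(Real.log (1 / d p) + ε)) = d p * Real.exp (-ε) := by
          rw [neg_add, Real.exp_add, one_div, Real.log_inv, neg_neg, Real.exp_log hdp0]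
        have h5 : Real.exp (-ε) ≤ 1 - ε / 2 := by
          refine le_trans (Real.exp_le_exp.2 ?_) h3
          nlinarith
        rw [h4]
        have h6 : d p * Real.exp (-ε) ≤ d p * (1 - ε / 2) :=
          mul_le_mul_of_nonneg_left h5 hdp0.le
        have h7 : δ * (ε / 2) ≤ d p * (ε / 2) := mul_le_mul_of_nonneg_right hdp.1 (by positivity)
        linarith
      · have h2 := HH_notin hm hL I hp.2 hpI
        have h0 := measureReal_nonneg (μ := μ) (s := HH ξ I p)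
        have h8 : δ * (ε / 2) ≤ ε / 2 := by
          have : δ ≤ 1 := hdp.1.trans hdp.2
          nlinarith
        have h3 := one_sub_ge (μ.real (HH ξ I p)) h0 (by linarith)
        refine le_trans (Real.exp_le_exp.2 ?_) h3
        nlinarith
    · rw [hT0 p hp.2 hpT]
      linarith
  refine le_trans ?_ (Finset.prod_le_prod (fun p _ => by split_ifs <;> positivity) h1)
  rw [Finset.prod_ite, Finset.prod_const_one, mul_one, ← Real.exp_sum]
  apply Real.exp_le_exp.2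
  rw [Finset.sum_neg_distrib, neg_le_neg_iff]
  apply Finset.sum_le_sum_of_subset_of_nonneg
  · intro p hp
    exact (Finset.mem_filter.1 hp).2
  · intro p _ _
    exact ex_nonneg hε.le I p (lt_of_lt_of_le hδ (hd p).1) (hd p).2

/-- the exponents of one prime in all the windows -/
theorem ex_sum {ξ : ℕ → Ω → ℕ} (hm : ∀ p, Measurable (ξ p)) {d q : ℕ → ℝ}
    (hL : Law μ ξ d q) (δ : ℝ) (hδ : 0 < δ) (hd : ∀ p, δ ≤ d p ∧ d p ≤ 1) (ε : ℝ)
    (hε : 0 < ε) (S : Finset ℕ) (I : ℕ → Finset ℕ)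
    (hdis : ∀ i ∈ S, ∀ i' ∈ S, i ≠ i' → Disjoint (I i) (I i')) {p : ℕ} (hp : p.Prime) :
    ∑ t ∈ S, ex μ ξ d ε (I t) p ≤ (δ + Real.log (1 / δ)) + 2 * ε := by
  classical
  have hdp := hd p
  have hdp0 : 0 < d p := lt_of_lt_of_le hδ hdp.1
  unfold ex
  rw [Finset.sum_ite]
  have h1 : ∑ t ∈ S.filter (fun t => p ∈ I t), (Real.log (1 / d p) + ε) ≤
      Real.log (1 / d p) + ε := by
    rw [Finset.sum_const, nsmul_eq_mul]
    have h2 : (S.filter (fun t => p ∈ I t)).card ≤ 1 := by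
      rw [Finset.card_le_one]
      intro a ha b hb
      rw [Finset.mem_filter] at ha hb
      by_contra hab
      exact Finset.disjoint_left.1 (hdis a ha.1 b hb.1 hab) ha.2 hb.2
    have h3 : 0 ≤ Real.log (1 / d p) := Real.log_nonneg (by rw [le_div_iff₀ hdp0]; linarith)
    have h4 : ((S.filter (fun t => p ∈ I t)).card : ℝ) ≤ 1 := by exact_mod_cast h2
    nlinarith
  have h2 : ∑ t ∈ S.filter (fun t => p ∉ I t), (1 + ε) * μ.real (HH ξ (I t) p) ≤ (1 + ε) * d p := by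
    rw [← Finset.mul_sum]
    apply mul_le_mul_of_nonneg_left _ (by linarith)
    have h3 : ∑ t ∈ S.filter (fun t => p ∉ I t), μ.real (HH ξ (I t) p) =
        μ.real (HH ξ ((S.filter (fun t => p ∉ I t)).biUnion I) p) := by
      have h4 : HH ξ ((S.filter (fun t => p ∉ I t)).biUnion I) p =
          ⋃ t ∈ S.filter (fun t => p ∉ I t), HH ξ (I t) p := by
        ext ω
        simp only [HH, Set.mem_ofPred_eq, Finset.mem_biUnion, Set.mem_iUnion, exists_prop]
      rw [h4, measureReal_biUnion_finset]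
      · intro i hi i' hi' hne
        rw [Finset.mem_coe, Finset.mem_filter] at hi hi'
        rw [Function.onFun, Set.disjoint_left]
        intro ω h5 h6
        unfold HH at h5 h6
        rw [Set.mem_ofPred_eq] at h5 h6
        exact Finset.disjoint_left.1 (hdis i hi.1 i' hi'.1 hne) h5 h6
      · intro i _
        exact HH_meas hm _ _
    rw [h3]
    apply HH_move hm hL _ hp
    rw [Finset.mem_biUnion]
    rintro ⟨t, ht, ht2⟩
    exact (Finset.mem_filter.1 ht).2 ht2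
  have h3 : d p + Real.log (1 / d p) ≤ δ + Real.log (1 / δ) := by
    have h4 := Real.one_sub_inv_le_log_of_pos (show 0 < d p / δ by positivity)
    rw [Real.log_div hdp0.ne' hδ.ne', inv_div] at h4
    rw [one_div, one_div, Real.log_inv, Real.log_inv]
    have h5 : d p - δ ≤ 1 - δ / d p := by
      have h6 : 1 - δ / d p = (d p - δ) / d p := by field_simp
      rw [h6, le_div_iff₀ hdp0]
      nlinarith [hdp.1, hdp.2]
    linarith
  nlinarith [hdp.2]

/-- many windows are empty on average -/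
theorem sum_EE {ξ : ℕ → Ω → ℕ} (hm : ∀ p, Measurable (ξ p)) (hind : iIndepFun ξ μ) {d q : ℕ → ℝ}
    (hL : Law μ ξ d q) (δ : ℝ) (hδ : 0 < δ) (hd : ∀ p, δ ≤ d p ∧ d p ≤ 1) (ε : ℝ)
    (hε : 0 < ε) (hε1 : ε ≤ 1) (S : Finset ℕ) (I : ℕ → Finset ℕ)
    (hdis : ∀ i ∈ S, ∀ i' ∈ S, i ≠ i' → Disjoint (I i) (I i'))
    (T : Finset ℕ) (hTp : ∀ p ∈ T, p.Prime)
    (hT0 : ∀ t ∈ S, ∀ p : ℕ, p.Prime → p ∉ T → μ.real (HH ξ (I t) p) = 0)
    (hTb : ∀ t ∈ S, ∀ p ∈ T, ((I t).card : ℝ) * q p ≤ δ * (ε / 2)) (E : ℝ)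
    (hE : T.card * ((δ + Real.log (1 / δ)) + 2 * ε) ≤ S.card * E) :
    S.card * Real.exp (-E) ≤ ∑ t ∈ S, μ.real (EE ξ (I t)) := by
  set x : ℕ → ℝ := fun t => ∑ p ∈ T, ex μ ξ d ε (I t) p with hx
  have h1 : ∑ t ∈ S, x t ≤ S.card * E := by
    refine le_trans ?_ hE
    rw [hx, Finset.sum_comm]
    calc ∑ p ∈ T, ∑ t ∈ S, ex μ ξ d ε (I t) p ≤ ∑ _p ∈ T, ((δ + Real.log (1 / δ)) + 2 * ε) :=
          Finset.sum_le_sum fun p hp => ex_sum hm hL δ hδ hd ε hε S I hdis (hTp p hp)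
      _ = _ := by rw [Finset.sum_const, nsmul_eq_mul]
  calc (S.card : ℝ) * Real.exp (-E) ≤ ∑ t ∈ S, Real.exp (-E) * (1 + (E - x t)) := by
        rw [← Finset.mul_sum, Finset.sum_add_distrib, Finset.sum_sub_distrib, Finset.sum_const,
          Finset.sum_const, nsmul_eq_mul, nsmul_eq_mul, mul_one]
        have := Real.exp_pos (-E)
        nlinarith
    _ ≤ ∑ t ∈ S, Real.exp (-x t) := by
        apply Finset.sum_le_sum
        intro t _
        have h2 : Real.exp (-x t) = Real.exp (-E) * Real.exp (E - x t) := by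
          rw [← Real.exp_add]; congr 1; ring
        rw [h2]
        apply mul_le_mul_of_nonneg_left _ (Real.exp_pos _).le
        have := Real.add_one_le_exp (E - x t)
        linarith
    _ ≤ _ := by
        apply Finset.sum_le_sum
        intro t ht
        exact EE_lower hm hind hL δ hδ hd ε hε hε1 (I t) T (hT0 t ht) (hTb t ht)

end Pool.Agent.U52.PD
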