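import Mathlib
import Pool.Agent.U839.Disp.Pnt

set_option autoImplicit false

/-! # The number of primes in a slightly enlarged dyadic block -/

open Filter Finset Topology

namespace Pool.Agent.U52.PD

open Pool.Agent.U839.Disp (tlog pi2 pi2_eq lis_diff)

theorem block (κ : ℝ) (hκ : 0 < κ) : ∃ η : ℝ, 0 < η ∧ η ≤ 1 / 4 ∧ ∀ᶠ j : ℕ in atTop,
    ∀ T : Finset ℕ, (∀ p ∈ T, p.Prime ∧ (1 - η) * 2 ^ j ≤ (p : ℝ) ∧ (p : ℝ) ≤ (1 + η) * 2 ^ (j + 1)) →
      (T.card : ℝ) ≤ (1 + κ) * (2 ^ j / (j * Real.log 2)) := by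
  set η : ℝ := min (1 / 4) (κ / 9) with hη
  have hη0 : 0 < η := lt_min (by norm_num) (by positivity)
  have hη1 : η ≤ 1 / 4 := min_le_left _ _
  have hη2 : 9 * η ≤ κ := by
    have : η ≤ κ / 9 := min_le_right _ _
    linarith
  refine ⟨η, hη0, hη1, ?_⟩
  have hl2 : 0 < Real.log 2 := Real.log_pos (by norm_num)
  have hl2a := Real.log_two_gt_d9
  have h1 : ∀ᶠ j : ℕ in atTop, ∀ y : ℕ, (y : ℝ) ≤ ((2 ^ j : ℕ) : ℝ) * Real.log ((2 ^ j : ℕ) : ℝ) ^ 1 →
      |(Nat.primeCounting y : ℝ) - Pool.Agent.H442R2.EHI.lis y| ≤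
        η / 2 * (((2 ^ j : ℕ) : ℝ) / Real.log ((2 ^ j : ℕ) : ℝ) ^ 1) :=
    (tendsto_pow_atTop_atTop_of_one_lt (one_lt_two : (1 : ℕ) < 2)).eventually
      (Pool.Agent.R518.Drift.pnt_unif 1 (η / 2) (by positivity))
  have t1 : Tendsto (fun j : ℕ => (j : ℝ)) atTop atTop := tendsto_natCast_atTop_atTop
  filter_upwards [h1, eventually_ge_atTop 8, t1.eventually_ge_atTop (3 / η)] with j g1 g2 g3 T hT
  rw [div_le_iff₀ hη0] at g3
  have hjR : (8 : ℝ) ≤ j := by exact_mod_cast g2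
  have hj2 : (j : ℝ) < 2 ^ j := by exact_mod_cast (Nat.lt_two_pow_self (n := j))
  set P : ℝ := 2 ^ j with hP
  have hP0 : 0 < P := by positivity
  have hP2 : (2 : ℝ) ^ (j + 1) = 2 * P := by rw [hP]; ring
  have hPc : ((2 ^ j : ℕ) : ℝ) = P := by rw [hP]; push_cast; rfl
  have hlog : Real.log P = j * Real.log 2 := by rw [hP, Real.log_pow]
  rw [hPc, hlog] at g1
  simp only [pow_one] at g1
  rw [hP2] at hT
  have hηP : 3 ≤ η * P := by nlinarith
  have hP8 : 8 ≤ P := by linarith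
  set a : ℕ := ⌊(1 - 2 * η) * P⌋₊ with ha
  set b : ℕ := ⌈(1 + η) * (2 * P)⌉₊ with hb
  have ha1 : (a : ℝ) ≤ (1 - 2 * η) * P := Nat.floor_le (by
    apply mul_nonneg _ hP0.le
    linarith)
  have ha2 : (1 - 2 * η) * P - 1 ≤ a := (Nat.sub_one_lt_floor _).le
  have hb1 : (1 + η) * (2 * P) ≤ b := Nat.le_ceil _
  have hb2 : (b : ℝ) ≤ (1 + η) * (2 * P) + 1 := (Nat.ceil_lt_add_one (by positivity)).le
  have ha4 : P / 4 ≤ a := by nlinarith
  have ha2' : 2 ≤ a := by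
    have : (2 : ℝ) ≤ a := by linarith
    exact_mod_cast this
  have hab : a ≤ b := by
    have : (a : ℝ) ≤ b := by nlinarith
    exact_mod_cast this
  have hb4 : (b : ℝ) ≤ 4 * P := by nlinarith
  have hjl : 4 ≤ (j : ℝ) * Real.log 2 := by nlinarith
  have k1 := abs_le.1 (g1 b (by nlinarith))
  have k2 := abs_le.1 (g1 a (by
    have : (a : ℝ) ≤ b := by exact_mod_cast hab
    nlinarith))
  have hTs : T ⊆ (Ioc a b).filter Nat.Prime := by
    intro p hp
    obtain ⟨h3, h4, h5⟩ := hT p hp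
    rw [Finset.mem_filter, Finset.mem_Ioc]
    refine ⟨⟨?_, ?_⟩, h3⟩
    · have : (a : ℝ) < p := by nlinarith
      exact_mod_cast this
    · have : (p : ℝ) ≤ b := by linarith
      exact_mod_cast this
  have h3 : (T.card : ℝ) ≤ pi2 a b := by exact_mod_cast Finset.card_le_card hTs
  rw [pi2_eq a b hab] at h3
  obtain ⟨-, l2⟩ := lis_diff a b ha2' hab
  have hla : ((j : ℝ) - 2) * Real.log 2 ≤ Real.log a := by
    have h4 := Real.log_le_log (by positivity) ha4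
    rw [Real.log_div hP0.ne' (by norm_num), hlog, show (4 : ℝ) = 2 ^ 2 by norm_num, Real.log_pow] at h4
    push_cast at h4
    linarith
  have hj2l : 0 < ((j : ℝ) - 2) * Real.log 2 := mul_pos (by linarith) hl2
  have h5 : ((b : ℝ) - a) / Real.log a ≤ (1 + 5 * η) * P / (((j : ℝ) - 2) * Real.log 2) := by
    have h6 : (b : ℝ) - a ≤ (1 + 5 * η) * P := by linarith
    have h7 : (0 : ℝ) ≤ (b : ℝ) - a := by
      have : (a : ℝ) ≤ b := by exact_mod_cast hab
      linarith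
    calc ((b : ℝ) - a) / Real.log a ≤ ((b : ℝ) - a) / (((j : ℝ) - 2) * Real.log 2) :=
          div_le_div_of_nonneg_left h7 hj2l hla
      _ ≤ _ := by gcongr
  have h8 : (1 + 5 * η) * P / (((j : ℝ) - 2) * Real.log 2) ≤
      (1 + 8 * η) * (P / ((j : ℝ) * Real.log 2)) := by
    rw [mul_div_assoc', div_le_div_iff₀ hj2l (by positivity)]
    have h9 : (1 + 5 * η) * j ≤ (1 + 8 * η) * ((j : ℝ) - 2) := by nlinarith
    have h10 : 0 ≤ P * Real.log 2 := by positivity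
    calc (1 + 5 * η) * P * (j * Real.log 2) = ((1 + 5 * η) * j) * (P * Real.log 2) := by ring
      _ ≤ ((1 + 8 * η) * ((j : ℝ) - 2)) * (P * Real.log 2) := mul_le_mul_of_nonneg_right h9 h10
      _ = _ := by ring
  have h11 : 0 ≤ P / ((j : ℝ) * Real.log 2) := by positivity
  calc (T.card : ℝ) ≤ (1 + 8 * η) * (P / ((j : ℝ) * Real.log 2)) + η * (P / ((j : ℝ) * Real.log 2)) := by
        linarith [k1.2, k2.1]
    _ = (1 + 9 * η) * (P / ((j : ℝ) * Real.log 2)) := by ring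
    _ ≤ (1 + κ) * (P / ((j : ℝ) * Real.log 2)) := by gcongr

end Pool.Agent.U52.PD
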