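import Mathlib
import Pool.Agent.U52.PD.Law
import Pool.Agent.U52.PD.Pnt
import Pool.Agent.U52.PD.Gap

set_option autoImplicit false

/-! # Empty windows of Cramér's length -/

open MeasureTheory ProbabilityTheory Filter Finset Topology

namespace Pool.Agent.U52.PD

open Pool.Agent.U839.Disp (HH EE HH_meas HH_sum EE_prod EE_meas one_sub_ge Wd card_win ev_block
  ae_empty tlog)

variable {Ω : Type*} [MeasurableSpace Ω] {μ : Measure Ω} [IsProbabilityMeasure μ]

/-- the average exponent is smaller than `θ log X` -/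
theorem ev_avg (c A θ : ℝ) (hc : 0 < c) (hA : 0 < A) (hcA : c * A < θ) : ∀ᶠ j : ℕ in atTop,
    2 ^ j / (j * Real.log 2) * A ≤
      ((2 : ℝ) ^ j / (c * (((j : ℝ) + 1) * Real.log 2) ^ 2 + 1) - 1) * (θ * (((j : ℝ) + 1) * Real.log 2)) := by
  have hl2 : 0 < Real.log 2 := Real.log_pos (by norm_num)
  have hθ : 0 < θ := lt_trans (by positivity) hcA
  -- the limit
  have t0 : Tendsto (fun j : ℕ => (j : ℝ)) atTop atTop := tendsto_natCast_atTop_atTop
  have t1 : Tendsto (fun j : ℕ => (j : ℝ) / ((j : ℝ) + 1)) atTop (𝓝 1) := tendsto_natCast_div_add_atTop 1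
  have t2 : Tendsto (fun j : ℕ => (((j : ℝ) + 1) * Real.log 2) ^ 2) atTop atTop :=
    (tendsto_pow_atTop two_ne_zero).comp ((tendsto_atTop_add_const_right _ 1 t0).atTop_mul_const hl2)
  have t3 : Tendsto (fun j : ℕ => (c + 1 / (((j : ℝ) + 1) * Real.log 2) ^ 2)) atTop (𝓝 (c + 0)) :=
    tendsto_const_nhds.add (by
      simp_rw [one_div]
      exact t2.inv_tendsto_atTop)
  rw [add_zero] at t3
  have t4 : Tendsto (fun j : ℕ => θ * ((j : ℝ) / ((j : ℝ) + 1)) * (c + 1 / (((j : ℝ) + 1) * Real.log 2) ^ 2)⁻¹)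
      atTop (𝓝 (θ * 1 * c⁻¹)) := (t1.const_mul θ).mul (t3.inv₀ hc.ne')
  have t5 : Tendsto (fun j : ℕ => θ * (Real.log 2) ^ 2 * (((j : ℝ) ^ 2 + (j : ℝ) ^ 1) / 2 ^ j)) atTop
      (𝓝 (θ * (Real.log 2) ^ 2 * 0)) := by
    apply Tendsto.const_mul
    have h3 := tendsto_pow_const_mul_const_pow_of_lt_one 2 (r := (1 / 2 : ℝ)) (by positivity) (by norm_num)
    have h4 := tendsto_pow_const_mul_const_pow_of_lt_one 1 (r := (1 / 2 : ℝ)) (by positivity) (by norm_num)
    have h5 := h3.add h4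
    rw [add_zero] at h5
    refine h5.congr (fun j => ?_)
    rw [one_div, inv_pow]
    field_simp
  have t6 := t4.sub t5
  have hlim : A < θ * 1 * c⁻¹ - θ * (Real.log 2) ^ 2 * 0 := by
    rw [mul_one, mul_zero, sub_zero, ← div_eq_mul_inv, lt_div_iff₀ hc]
    linarith
  filter_upwards [t6.eventually_const_lt hlim, eventually_ge_atTop 1] with j hj hj1
  have hjR : (1 : ℝ) ≤ j := by exact_mod_cast hj1
  have hj0 : (0 : ℝ) < j := by linarith
  set u : ℝ := ((j : ℝ) + 1) * Real.log 2 with hu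
  have hu0 : 0 < u := by positivity
  have hP : (0 : ℝ) < 2 ^ j := by positivity
  have e1 : θ * ((j : ℝ) / ((j : ℝ) + 1)) * (c + 1 / u ^ 2)⁻¹ =
      (j * Real.log 2) * ((1 / (c * u ^ 2 + 1)) * (θ * u)) := by
    rw [hu]
    field_simp
  have e2 : θ * (Real.log 2) ^ 2 * (((j : ℝ) ^ 2 + (j : ℝ) ^ 1) / 2 ^ j) =
      (j * Real.log 2) * (1 / 2 ^ j * (θ * u)) := by
    rw [hu]
    field_simp
  rw [e1, e2, ← mul_sub, ← sub_mul] at hj
  have hjl : 0 < (j : ℝ) * Real.log 2 := by positivity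
  rw [div_mul_eq_mul_div, div_le_iff₀ hjl]
  calc 2 ^ j * A ≤ 2 ^ j * (j * Real.log 2 * ((1 / (c * u ^ 2 + 1) - 1 / 2 ^ j) * (θ * u))) :=
        mul_le_mul_of_nonneg_left hj.le hP.le
    _ = (2 ^ j / (c * u ^ 2 + 1) - 1) * (θ * u) * (j * Real.log 2) := by
        have : (2 : ℝ) ^ j * (1 / 2 ^ j) = 1 := by field_simp
        calc 2 ^ j * (j * Real.log 2 * ((1 / (c * u ^ 2 + 1) - 1 / 2 ^ j) * (θ * u))) =
            (2 ^ j / (c * u ^ 2 + 1) - 2 ^ j * (1 / 2 ^ j)) * (θ * u) * (j * Real.log 2) := by ring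
          _ = _ := by rw [this]

set_option maxHeartbeats 4000000 in
theorem low (δ : ℝ) (hδ : 0 < δ) (hδ1 : δ ≤ 1) (c : ℝ) (hc : 0 < c) (ε : ℝ) (hε0 : 0 < ε) (hε1 : ε ≤ 1)
    (hcL : c * ((1 + ε) * ((δ + Real.log (1 / δ)) + 2 * ε)) < 1) {ξ : ℕ → Ω → ℕ}
    (hm : ∀ p, Measurable (ξ p)) (hind : iIndepFun ξ μ) {d q : ℕ → ℝ} {m : ℕ → ℕ} (hL : Law μ ξ d q)
    (hd : ∀ p, δ ≤ d p ∧ d p ≤ 1) (hξ : ∀ p : ℕ, p.Prime → ∀ᵐ ω ∂μ, ξ p ω ≤ m p)
    (hD1 : ∀ᶠ n : ℕ in atTop, 4 * c * (Real.log n) ^ 2 * q n ≤ δ * (ε / 2))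
    (hD2 : Tendsto (fun n : ℕ => (m n : ℝ) / n) atTop (𝓝 0)) :
    ∀ᵐ ω ∂μ, ∀ᶠ j : ℕ in atTop, ∃ t : ℕ, 2 ^ j < t ∧ t ≤ 2 ^ (j + 1) ∧
      ω ∈ EE ξ (Ioc t (t + Wd c t)) := by
  classical
  have hl2 : 0 < Real.log 2 := Real.log_pos (by norm_num)
  set Λ : ℝ := δ + Real.log (1 / δ) with hΛ
  have hΛ0 : 0 < Λ := by
    have : 0 ≤ Real.log (1 / δ) := Real.log_nonneg (by rw [le_div_iff₀ hδ]; linarith)
    rw [hΛ]; linarith
  set θ : ℝ := (1 + c * ((1 + ε) * (Λ + 2 * ε))) / 2 with hθ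
  have hcΛ : 0 < c * ((1 + ε) * (Λ + 2 * ε)) := by positivity
  have hθ0 : 0 < θ := by rw [hθ]; linarith
  have hθ1 : θ < 1 := by rw [hθ]; linarith
  have hε2 : c * ((1 + ε) * (Λ + 2 * ε)) < θ := by rw [hθ]; linarith
  obtain ⟨η, hη0, hη1, hblock⟩ := block ε hε0
  have key := ae_empty hm hind ((1 - θ) / 2) (by linarith)
    (fun j I => ∃ t : ℕ, 2 ^ j < t ∧ t ≤ 2 ^ (j + 1) ∧ I = Ioc t (t + Wd c t)) ?_
  · filter_upwards [key] with ω hω
    filter_upwards [hω] with j hj
    obtain ⟨I, ⟨t, h1, h2, h3⟩, h4⟩ := hj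
    exact ⟨t, h1, h2, h3 ▸ h4⟩
  · -- the displacements
    obtain ⟨p₀, hp₀⟩ := eventually_atTop.1 (hD1.and
      ((hD2.eventually_le_const (show (0 : ℝ) < η by exact hη0)).and (eventually_ge_atTop 2)))
    obtain ⟨m₀, hm₀⟩ : ∃ m₀ : ℕ, ∀ p < p₀, p + m p ≤ m₀ :=
      ⟨(range p₀).sup (fun p => p + m p), fun p hp =>
        Finset.le_sup (f := fun p => p + m p) (Finset.mem_range.2 hp)⟩
    have t0 : Tendsto (fun j : ℕ => (j : ℝ)) atTop atTop := tendsto_natCast_atTop_atTop
    have evM : ∀ᶠ j : ℕ in atTop, c * (Real.log ((2 ^ (j + 1) : ℕ) : ℝ)) ^ 2 + 1 ≤ η * 2 ^ (j + 1) := by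
      have h := (Pool.Agent.U839.Disp.EB_large 0 (2 * c / η) 2).and
        ((tendsto_natCast_atTop_atTop (R := ℝ)).eventually_ge_atTop (2 / η))
      have h2 := ((tendsto_pow_atTop_atTop_of_one_lt (one_lt_two : (1 : ℕ) < 2)).comp
        (tendsto_add_atTop_nat 1)).eventually h
      filter_upwards [h2] with j hj
      obtain ⟨g1, g2⟩ := hj
      simp only [Function.comp_apply] at g1 g2
      unfold Pool.Agent.U839.Disp.EB at g1
      rw [pow_zero, div_one] at g1
      have e : (((2 : ℕ) ^ (j + 1) : ℕ) : ℝ) = (2 : ℝ) ^ (j + 1) := by push_cast; rfl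
      rw [e] at g1 g2 ⊢
      rw [div_le_iff₀ hη0] at g2
      have g3 : c * (Real.log ((2 : ℝ) ^ (j + 1))) ^ 2 ≤ η / 2 * (2 : ℝ) ^ (j + 1) := by
        calc c * (Real.log ((2 : ℝ) ^ (j + 1))) ^ 2 =
            η / 2 * (2 * c / η * (Real.log ((2 : ℝ) ^ (j + 1))) ^ 2) := by field_simp
          _ ≤ η / 2 * (2 : ℝ) ^ (j + 1) := mul_le_mul_of_nonneg_left g1 (by positivity)
      linarith
    filter_upwards [ev_block c θ hc hθ0 hθ1, ev_avg c ((1 + ε) * (Λ + 2 * ε)) θ hc (by positivity) hε2,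
      hblock, evM, eventually_ge_atTop (max (p₀ + 4) (m₀ + 4))] with j hj hjavg hjb hjM hjt
    have hXj : j < 2 ^ j := Nat.lt_two_pow_self
    have hj4 : 4 ≤ j := by omega
    have hj4R : (4 : ℝ) ≤ j := by exact_mod_cast hj4
    have hlogj : Real.log ((2 ^ (j + 1) : ℕ) : ℝ) = ((j : ℝ) + 1) * Real.log 2 := by
      push_cast
      rw [Real.log_pow]
      push_cast
      ring
    set M : ℕ := ⌊c * (Real.log (2 ^ (j + 1) : ℕ)) ^ 2⌋₊ + 1 with hM
    have hM0 : 0 < M := Nat.succ_pos _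
    have hMR : (M : ℝ) ≤ c * (Real.log (2 ^ (j + 1) : ℕ)) ^ 2 + 1 := by
      rw [hM]
      push_cast
      have := Nat.floor_le (show 0 ≤ c * (Real.log (2 ^ (j + 1))) ^ 2 by positivity)
      linarith
    set K : ℕ := 2 ^ j / M with hK
    have hKM : K * M ≤ 2 ^ j := Nat.div_mul_le_self _ _
    set S : Finset ℕ := (Icc 1 K).image (fun i => 2 ^ j + i * M) with hS
    have hSmem : ∀ t ∈ S, ∃ i : ℕ, 1 ≤ i ∧ i ≤ K ∧ t = 2 ^ j + i * M := by
      intro t ht
      rw [hS, Finset.mem_image] at ht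
      obtain ⟨i, hi, rfl⟩ := ht
      rw [Finset.mem_Icc] at hi
      exact ⟨i, hi.1, hi.2, rfl⟩
    have hSb : ∀ t ∈ S, 2 ^ j < t ∧ t ≤ 2 ^ (j + 1) := by
      intro t ht
      obtain ⟨i, h1, h2, rfl⟩ := hSmem t ht
      have h3 : i * M ≤ K * M := Nat.mul_le_mul_right M h2
      have h4 : 1 * M ≤ i * M := Nat.mul_le_mul_right M h1
      rw [pow_succ]
      omega
    have hWM : ∀ t ∈ S, Wd c t < M := by
      intro t ht
      rw [hM]
      apply Nat.lt_succ_of_le
      apply Nat.floor_le_floor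
      have h5 : Real.log t ≤ Real.log ((2 ^ (j + 1) : ℕ) : ℝ) :=
        Real.log_le_log (by exact_mod_cast lt_of_le_of_lt (Nat.zero_le _) (hSb t ht).1)
          (by exact_mod_cast (hSb t ht).2)
      have h6 : 0 ≤ Real.log t := Real.log_natCast_nonneg t
      gcongr
    have hdis : ∀ t ∈ S, ∀ t' ∈ S, t ≠ t' → Disjoint (Ioc t (t + Wd c t)) (Ioc t' (t' + Wd c t')) := by
      intro t ht t' ht' hne
      obtain ⟨i, h1, h2, h3⟩ := hSmem t ht
      obtain ⟨i', h1', h2', h3'⟩ := hSmem t' ht'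
      have k1 := hWM t ht
      have k2 := hWM t' ht'
      rw [Finset.disjoint_left]
      intro p hp hp'
      rw [Finset.mem_Ioc] at hp hp'
      rcases lt_trichotomy i i' with h | h | h
      · have : (i + 1) * M ≤ i' * M := Nat.mul_le_mul_right M h
        rw [add_mul, one_mul] at this
        omega
      · apply hne
        rw [h3, h3', h]
      · have : (i' + 1) * M ≤ i * M := Nat.mul_le_mul_right M h
        rw [add_mul, one_mul] at this
        omega
    refine ⟨S, fun t => Ioc t (t + Wd c t), hdis, ?_, ?_⟩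
    · intro t ht
      exact ⟨t, (hSb t ht).1, (hSb t ht).2, rfl⟩
    · have hcard : S.card = K := by
        rw [hS, Finset.card_image_of_injective, Nat.card_Icc, Nat.add_sub_cancel]
        intro a b hab
        simp only at hab
        have : a * M = b * M := by omega
        exact Nat.eq_of_mul_eq_mul_right hM0 this
      have hKR : (2 : ℝ) ^ j / (c * (Real.log (2 ^ (j + 1) : ℕ)) ^ 2 + 1) - 1 ≤ K := by
        have h1 : (2 ^ j : ℕ) < M * (K + 1) := Nat.lt_mul_div_succ _ hM0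
        have h2 : ((2 : ℝ) ^ j) < M * ((K : ℝ) + 1) := by exact_mod_cast h1
        have h3 : (2 : ℝ) ^ j / (c * (Real.log (2 ^ (j + 1) : ℕ)) ^ 2 + 1) ≤ 2 ^ j / M := by
          apply div_le_div_of_nonneg_left (by positivity) (by exact_mod_cast hM0) hMR
        have h4 : (2 : ℝ) ^ j / M < K + 1 := by
          rw [div_lt_iff₀ (by exact_mod_cast hM0)]
          linarith
        linarith
      -- the primes
      set T : Finset ℕ := (Icc 1 (2 ^ (j + 1) + M)).filter
        (fun p => p.Prime ∧ (1 - η) * 2 ^ j ≤ (p : ℝ)) with hT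
      have hTp : ∀ p ∈ T, p.Prime := by
        intro p hp
        rw [hT, Finset.mem_filter] at hp
        exact hp.2.1
      have hTlow : ∀ p ∈ T, (1 - η) * 2 ^ j ≤ (p : ℝ) := by
        intro p hp
        rw [hT, Finset.mem_filter] at hp
        exact hp.2.2
      have hTcard : (T.card : ℝ) ≤ (1 + ε) * (2 ^ j / (j * Real.log 2)) := by
        apply hjb T
        intro p hp
        refine ⟨hTp p hp, hTlow p hp, ?_⟩
        rw [hT, Finset.mem_filter, Finset.mem_Icc] at hp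
        have h1 : (p : ℝ) ≤ 2 ^ (j + 1) + M := by exact_mod_cast hp.1.2
        linarith
      have hP16 : (j : ℝ) < 2 ^ j := by exact_mod_cast hXj
      have hTge : ∀ p ∈ T, p₀ ≤ p := by
        intro p hp
        have h1 := hTlow p hp
        have h2 : (3 / 4 : ℝ) * 2 ^ j ≤ p := by
          refine le_trans ?_ h1
          gcongr
          linarith
        have h3 : 2 ^ j = 2 * 2 ^ (j - 1) := by
          rw [← pow_succ', Nat.sub_add_cancel (by omega)]
        have h4 : j - 1 < 2 ^ (j - 1) := Nat.lt_two_pow_self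
        have h5 : (p₀ : ℝ) ≤ 2 ^ (j - 1) := by
          have : p₀ ≤ 2 ^ (j - 1) := by omega
          exact_mod_cast this
        have h6 : (2 : ℝ) ^ j = 2 * 2 ^ (j - 1) := by exact_mod_cast h3
        have h7 : (p₀ : ℝ) ≤ p := by
          have : (0 : ℝ) < 2 ^ (j - 1) := by positivity
          linarith
        exact_mod_cast h7
      have hT0 : ∀ t ∈ S, ∀ p : ℕ, p.Prime → p ∉ T → μ.real (HH ξ (Ioc t (t + Wd c t)) p) = 0 := by
        intro t ht p hp hpT
        apply HH_zero _ (hξ p hp)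
        intro i hi
        rw [Finset.mem_Ioc] at hi
        have k1 := hWM t ht
        have k2 := hSb t ht
        rw [hT, Finset.mem_filter, Finset.mem_Icc] at hpT
        by_cases h1 : p ≤ 2 ^ (j + 1) + M
        · right
          have h2 : (p : ℝ) < (1 - η) * 2 ^ j := by
            by_contra hcon
            push Not at hcon
            exact hpT ⟨⟨hp.one_lt.le, h1⟩, hp, hcon⟩
          suffices h : p + m p ≤ 2 ^ j by omega
          by_cases h3 : p < p₀
          · have := hm₀ p h3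
            omega
          · push Not at h3
            obtain ⟨_, h4, h5⟩ := hp₀ p h3
            have hp0 : (0 : ℝ) < p := by exact_mod_cast hp.pos
            rw [div_le_iff₀ hp0] at h4
            have h6 : (p : ℝ) + m p ≤ 2 ^ j := by
              have : (0 : ℝ) < 2 ^ j := by positivity
              nlinarith
            exact_mod_cast h6
        · left
          omega
      have hTb : ∀ t ∈ S, ∀ p ∈ T, ((Ioc t (t + Wd c t)).card : ℝ) * q p ≤ δ * (ε / 2) := by
        intro t ht p hp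
        rw [card_win]
        have k1 := hWM t ht
        obtain ⟨h1, -, h2⟩ := hp₀ p (hTge p hp)
        have hq0 := hL.q_nonneg (hTp p hp)
        have hlow := hTlow p hp
        have h3 : (2 : ℝ) ^ (j - 1) ≤ p := by
          have h6 : (2 : ℝ) ^ j = 2 * 2 ^ (j - 1) := by
            rw [← pow_succ', Nat.sub_add_cancel (by omega)]
          have : (0 : ℝ) < 2 ^ (j - 1) := by positivity
          nlinarith
        have h4 : (((j : ℝ) + 1) * Real.log 2) / 2 ≤ Real.log p := by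
          have h5 := Real.log_le_log (by positivity) h3
          rw [Real.log_pow, Nat.cast_sub (by omega)] at h5
          push_cast at h5
          refine le_trans ?_ h5
          nlinarith
        have h5 : (Wd c t : ℝ) ≤ c * (((j : ℝ) + 1) * Real.log 2) ^ 2 := by
          have h6 : (Wd c t : ℝ) ≤ ((M - 1 : ℕ) : ℝ) := by exact_mod_cast (by omega : Wd c t ≤ M - 1)
          refine h6.trans ?_
          rw [hM, Nat.add_sub_cancel, ← hlogj]
          exact Nat.floor_le (by positivity)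
        have h6 : (((j : ℝ) + 1) * Real.log 2) ^ 2 ≤ 4 * (Real.log p) ^ 2 := by
          have h7 : ((j : ℝ) + 1) * Real.log 2 ≤ 2 * Real.log p := by linarith
          calc (((j : ℝ) + 1) * Real.log 2) ^ 2 ≤ (2 * Real.log p) ^ 2 := by gcongr
            _ = _ := by ring
        calc (Wd c t : ℝ) * q p ≤ (c * (4 * (Real.log p) ^ 2)) * q p :=
              mul_le_mul_of_nonneg_right (h5.trans (by gcongr)) hq0
          _ = 4 * c * (Real.log p) ^ 2 * q p := by ring
          _ ≤ _ := h1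
      have hE : T.card * (Λ + 2 * ε) ≤ S.card * (θ * (((j : ℝ) + 1) * Real.log 2)) := by
        rw [hcard]
        have hu0 : 0 ≤ θ * (((j : ℝ) + 1) * Real.log 2) := by positivity
        rw [hlogj] at hKR
        calc (T.card : ℝ) * (Λ + 2 * ε) ≤ (1 + ε) * (2 ^ j / (j * Real.log 2)) * (Λ + 2 * ε) := by
              apply mul_le_mul_of_nonneg_right hTcard
              positivity
          _ = 2 ^ j / (j * Real.log 2) * ((1 + ε) * (Λ + 2 * ε)) := by ring
          _ ≤ _ := hjavg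
          _ ≤ K * (θ * (((j : ℝ) + 1) * Real.log 2)) := mul_le_mul_of_nonneg_right hKR hu0
      have hmain := sum_EE hm hind hL δ hδ hd ε hε0 hε1 S (fun t => Ioc t (t + Wd c t)) hdis T hTp
        hT0 hTb _ hE
      refine le_trans ?_ hmain
      rw [hcard]
      rw [← hlogj]
      calc (2 : ℝ) ^ ((1 - θ) / 2 * j) ≤ _ := hj
        _ ≤ K * Real.exp (-(θ * Real.log (2 ^ (j + 1) : ℕ))) := by
            apply mul_le_mul_of_nonneg_right hKR (Real.exp_pos _).le

end Pool.Agent.U52.PD
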