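import Mathlib
import Pool.Agent.U52.PD.Low

set_option autoImplicit false

/-! # The number of empty windows of Cramér's length in a dyadic block -/

open MeasureTheory ProbabilityTheory Filter Finset Topology

namespace Pool.Agent.U52.PD

open Pool.Agent.U839.Disp (HH EE HH_meas HH_sum EE_prod EE_meas EE_neg one_sub_ge Wd card_win
  ae_empty tlog)

variable {Ω : Type*} [MeasurableSpace Ω] {μ : Measure Ω} [IsProbabilityMeasure μ]

theorem ev_block2 (c θ γ : ℝ) (hc : 0 < c) (hθ0 : 0 < θ) (hγ0 : 0 < γ) (hγ : γ < 1 - θ) : ∀ᶠ j : ℕ in atTop,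
    (2 : ℝ) ^ (γ * j) ≤
      ((2 : ℝ) ^ j / (c * (Real.log (2 ^ (j + 1) : ℕ)) ^ 2 + 1) - 1) *
        Real.exp (-(θ * Real.log (2 ^ (j + 1) : ℕ))) := by
  have hl2 : 0 < Real.log 2 := Real.log_pos (by norm_num)
  have hlog : ∀ j : ℕ, Real.log ((2 ^ (j + 1) : ℕ) : ℝ) = (j + 1) * Real.log 2 := by
    intro j
    push_cast
    rw [Real.log_pow]
    push_cast
    ring
  set β : ℝ := 1 - θ - γ with hβ
  have hβ0 : 0 < β := by rw [hβ]; linarith
  -- polynomial versus exponential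
  have h1 : ∀ᶠ j : ℕ in atTop, 4 * (c * ((j + 1) * Real.log 2) ^ 2 + 1) * 2 ^ |θ| ≤
      (2 : ℝ) ^ (β * j) := by
    have h2 : Tendsto (fun j : ℕ => ((j : ℝ) + 1) ^ 2 * ((2 : ℝ) ^ (-β)) ^ j) atTop (𝓝 0) := by
      have hr : (2 : ℝ) ^ (-β) < 1 := Real.rpow_lt_one_of_one_lt_of_neg (by norm_num) (by linarith)
      have h3 := tendsto_pow_const_mul_const_pow_of_lt_one 2 (r := (2 : ℝ) ^ (-β)) (by positivity) hr
      have h4 := tendsto_pow_const_mul_const_pow_of_lt_one 1 (r := (2 : ℝ) ^ (-β)) (by positivity) hr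
      have h5 := tendsto_pow_const_mul_const_pow_of_lt_one 0 (r := (2 : ℝ) ^ (-β)) (by positivity) hr
      have h6 := (h3.add (h4.const_mul 2)).add h5
      simp only [mul_zero, add_zero] at h6
      refine h6.congr (fun j => ?_)
      ring
    have h3 := (h2.const_mul (4 * (c * (Real.log 2) ^ 2 + 1) * 2 ^ |θ|))
    rw [mul_zero] at h3
    filter_upwards [h3.eventually_le_const (show (0 : ℝ) < 1 by norm_num)] with j hj
    have h4 : ((2 : ℝ) ^ (-β)) ^ j * (2 : ℝ) ^ (β * j) = 1 := by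
      rw [← Real.rpow_natCast, ← Real.rpow_mul (by norm_num), ← Real.rpow_add (by norm_num)]
      have : -β * (j : ℝ) + β * j = 0 := by ring
      rw [this, Real.rpow_zero]
    have hp : 0 < (2 : ℝ) ^ (β * j) := by positivity
    have hj0 : (0 : ℝ) ≤ j := Nat.cast_nonneg j
    calc 4 * (c * ((j + 1) * Real.log 2) ^ 2 + 1) * 2 ^ |θ| ≤
        4 * (c * ((j + 1) * Real.log 2) ^ 2 + ((j : ℝ) + 1) ^ 2) * 2 ^ |θ| := by
          gcongr
          nlinarith
      _ = 4 * (c * (Real.log 2) ^ 2 + 1) * 2 ^ |θ| * ((j : ℝ) + 1) ^ 2 * 1 := by ring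
      _ = 4 * (c * (Real.log 2) ^ 2 + 1) * 2 ^ |θ| * (((j : ℝ) + 1) ^ 2 * ((2 : ℝ) ^ (-β)) ^ j) *
          (2 : ℝ) ^ (β * j) := by rw [← h4]; ring
      _ ≤ 1 * (2 : ℝ) ^ (β * j) := by gcongr
      _ = _ := one_mul _
  filter_upwards [h1, eventually_ge_atTop 1] with j hj hj1
  rw [hlog]
  set P : ℝ := c * ((j + 1) * Real.log 2) ^ 2 + 1 with hP
  have hP0 : 1 ≤ P := by rw [hP]; nlinarith [mul_nonneg hc.le (sq_nonneg (((j : ℝ) + 1) * Real.log 2))]
  have h2θ : (1 : ℝ) ≤ 2 ^ |θ| := Real.one_le_rpow (by norm_num) (abs_nonneg θ)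
  have e1 : Real.exp (-(θ * ((j + 1) * Real.log 2))) = (2 : ℝ) ^ (-θ * (j + 1)) := by
    rw [Real.rpow_def_of_pos (by norm_num)]
    congr 1
    ring
  rw [e1]
  have hX : (2 : ℝ) ^ j = (2 : ℝ) ^ (j : ℝ) := (Real.rpow_natCast _ _).symm
  have h3 : (2 : ℝ) ^ ((1 - β) * j) * 4 * 2 ^ |θ| ≤ (2 : ℝ) ^ j / P := by
    rw [le_div_iff₀ (by linarith)]
    calc (2 : ℝ) ^ ((1 - β) * j) * 4 * 2 ^ |θ| * P = (2 : ℝ) ^ ((1 - β) * j) * (4 * P * 2 ^ |θ|) := by ring
      _ ≤ (2 : ℝ) ^ ((1 - β) * j) * (2 : ℝ) ^ (β * j) := by gcongr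
      _ = (2 : ℝ) ^ j := by
          rw [← Real.rpow_add (by norm_num), hX]
          congr 1
          ring
  have hj0 : (0 : ℝ) ≤ j := Nat.cast_nonneg j
  have hβ1 : β ≤ 1 := by rw [hβ]; linarith
  have h7 : (1 : ℝ) ≤ (2 : ℝ) ^ ((1 - β) * j) :=
    Real.one_le_rpow (by norm_num) (mul_nonneg (by linarith) hj0)
  have h5 : (2 : ℝ) ^ (-θ * (j + 1)) = (2 : ℝ) ^ (-θ * j) * (2 : ℝ) ^ (-θ) := by
    rw [← Real.rpow_add (by norm_num)]
    congr 1
    ring
  have h6 : (1 : ℝ) ≤ (2 : ℝ) ^ (-θ) * 2 ^ |θ| := by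
    rw [← Real.rpow_add (by norm_num)]
    apply Real.one_le_rpow (by norm_num)
    have := le_abs_self θ
    linarith
  have h8 : (1 : ℝ) ≤ (2 : ℝ) ^ ((1 - β) * j) * 2 ^ |θ| := by
    calc (1 : ℝ) = 1 * 1 := by ring
      _ ≤ _ := by gcongr
  have h9 : (2 : ℝ) ^ ((1 - β) * j) * 2 ^ |θ| ≤ (2 : ℝ) ^ j / P - 1 := by linarith
  calc (2 : ℝ) ^ (γ * j) ≤ (2 : ℝ) ^ ((1 - β) * j + -θ * j) := by
        apply Real.rpow_le_rpow_of_exponent_le (by norm_num)
        have : (1 - β) * j + -θ * j = γ * j := by rw [hβ]; ring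
        rw [this]
    _ = (2 : ℝ) ^ ((1 - β) * j) * (2 : ℝ) ^ (-θ * j) * 1 := by
        rw [Real.rpow_add (by norm_num), mul_one]
    _ ≤ (2 : ℝ) ^ ((1 - β) * j) * (2 : ℝ) ^ (-θ * j) * ((2 : ℝ) ^ (-θ) * 2 ^ |θ|) := by gcongr
    _ = ((2 : ℝ) ^ ((1 - β) * j) * 2 ^ |θ|) * ((2 : ℝ) ^ (-θ * j) * (2 : ℝ) ^ (-θ)) := by ring
    _ = ((2 : ℝ) ^ ((1 - β) * j) * 2 ^ |θ|) * (2 : ℝ) ^ (-θ * (j + 1)) := by rw [← h5]
    _ ≤ _ := by gcongr

set_option maxHeartbeats 4000000 in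
theorem low_sum (δ : ℝ) (hδ : 0 < δ) (hδ1 : δ ≤ 1) (c : ℝ) (hc : 0 < c) (ε : ℝ) (hε0 : 0 < ε) (hε1 : ε ≤ 1)
    (θ γ : ℝ) (hε2 : c * ((1 + ε) * ((δ + Real.log (1 / δ)) + 2 * ε)) < θ) (hγ0 : 0 < γ) (hγ : γ < 1 - θ) {ξ : ℕ → Ω → ℕ}
    (hm : ∀ p, Measurable (ξ p)) (hind : iIndepFun ξ μ) {d q : ℕ → ℝ} {m : ℕ → ℕ} (hL : Law μ ξ d q)
    (hd : ∀ p, δ ≤ d p ∧ d p ≤ 1) (hξ : ∀ p : ℕ, p.Prime → ∀ᵐ ω ∂μ, ξ p ω ≤ m p)
    (hD1 : ∀ᶠ n : ℕ in atTop, 4 * c * (Real.log n) ^ 2 * q n ≤ δ * (ε / 2))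
    (hD2 : Tendsto (fun n : ℕ => (m n : ℝ) / n) atTop (𝓝 0)) :
    ∀ᶠ j : ℕ in atTop, ∃ (S : Finset ℕ) (I : ℕ → Finset ℕ),
      (∀ i ∈ S, ∀ i' ∈ S, i ≠ i' → Disjoint (I i) (I i')) ∧
      (∀ i ∈ S, 2 ^ j < i ∧ i ≤ 2 ^ (j + 1) ∧ I i = Ioc i (i + Wd c i)) ∧
      (2 : ℝ) ^ (γ * j) ≤ ∑ i ∈ S, μ.real (EE ξ (I i)) := by
  classical
  have hl2 : 0 < Real.log 2 := Real.log_pos (by norm_num)
  set Λ : ℝ := δ + Real.log (1 / δ) with hΛ
  have hΛ0 : 0 < Λ := by
    have : 0 ≤ Real.log (1 / δ) := Real.log_nonneg (by rw [le_div_iff₀ hδ]; linarith)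
    rw [hΛ]; linarith
  have hcΛ : 0 < c * ((1 + ε) * (Λ + 2 * ε)) := by positivity
  have hθ0 : 0 < θ := lt_trans hcΛ hε2
  have hθ1 : θ < 1 := by linarith
  obtain ⟨η, hη0, hη1, hblock⟩ := block ε hε0
  · -- the displacements
    obtain ⟨p₀, hp₀⟩ := eventually_atTop.1 (hD1.and
      ((hD2.eventually_le_const (show (0 : ℝ) < η by exact hη0)).and (eventually_ge_atTop 2)))
    obtain ⟨m₀, hm₀⟩ : ∃ m₀ : ℕ, ∀ p < p₀, p + m p ≤ m₀ :=
      ⟨(range p₀).sup (fun p => p + m p), fun p hp =>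
        Finset.le_sup (f := fun p => p + m p) (Finset.mem_range.2 hp)⟩
    have t0 : Tendsto (fun j : ℕ => (j : ℝ)) atTop atTop := tendsto_natCast_atTop_atTop
    have evM : ∀ᶠ j : ℕ in atTop, c * (Real.log ((2 ^ (j + 1) : ℕ) : ℝ)) ^ 2 + 1 ≤ η * 2 ^ (j + 1) := by
      have h := (Pool.Agent.U839.Disp.EB_large 0 (2 * c / η) 2).and
        ((tendsto_natCast_atTop_atTop (R := ℝ)).eventually_ge_atTop (2 / η))
      have h2 := ((tendsto_pow_atTop_atTop_of_one_lt (one_lt_two : (1 : ℕ) < 2)).comp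
        (tendsto_add_atTop_nat 1)).eventually h
      filter_upwards [h2] with j hj
      obtain ⟨g1, g2⟩ := hj
      simp only [Function.comp_apply] at g1 g2
      unfold Pool.Agent.U839.Disp.EB at g1
      rw [pow_zero, div_one] at g1
      have e : (((2 : ℕ) ^ (j + 1) : ℕ) : ℝ) = (2 : ℝ) ^ (j + 1) := by push_cast; rfl
      rw [e] at g1 g2 ⊢
      rw [div_le_iff₀ hη0] at g2
      have g3 : c * (Real.log ((2 : ℝ) ^ (j + 1))) ^ 2 ≤ η / 2 * (2 : ℝ) ^ (j + 1) := by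
        calc c * (Real.log ((2 : ℝ) ^ (j + 1))) ^ 2 =
            η / 2 * (2 * c / η * (Real.log ((2 : ℝ) ^ (j + 1))) ^ 2) := by field_simp
          _ ≤ η / 2 * (2 : ℝ) ^ (j + 1) := mul_le_mul_of_nonneg_left g1 (by positivity)
      linarith
    filter_upwards [ev_block2 c θ γ hc hθ0 hγ0 hγ, ev_avg c ((1 + ε) * (Λ + 2 * ε)) θ hc (by positivity) hε2,
      hblock, evM, eventually_ge_atTop (max (p₀ + 4) (m₀ + 4))] with j hj hjavg hjb hjM hjt
    have hXj : j < 2 ^ j := Nat.lt_two_pow_self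
    have hj4 : 4 ≤ j := by omega
    have hj4R : (4 : ℝ) ≤ j := by exact_mod_cast hj4
    have hlogj : Real.log ((2 ^ (j + 1) : ℕ) : ℝ) = ((j : ℝ) + 1) * Real.log 2 := by
      push_cast
      rw [Real.log_pow]
      push_cast
      ring
    set M : ℕ := ⌊c * (Real.log (2 ^ (j + 1) : ℕ)) ^ 2⌋₊ + 1 with hM
    have hM0 : 0 < M := Nat.succ_pos _
    have hMR : (M : ℝ) ≤ c * (Real.log (2 ^ (j + 1) : ℕ)) ^ 2 + 1 := by
      rw [hM]
      push_cast
      have := Nat.floor_le (show 0 ≤ c * (Real.log (2 ^ (j + 1))) ^ 2 by positivity)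
      linarith
    set K : ℕ := 2 ^ j / M with hK
    have hKM : K * M ≤ 2 ^ j := Nat.div_mul_le_self _ _
    set S : Finset ℕ := (Icc 1 K).image (fun i => 2 ^ j + i * M) with hS
    have hSmem : ∀ t ∈ S, ∃ i : ℕ, 1 ≤ i ∧ i ≤ K ∧ t = 2 ^ j + i * M := by
      intro t ht
      rw [hS, Finset.mem_image] at ht
      obtain ⟨i, hi, rfl⟩ := ht
      rw [Finset.mem_Icc] at hi
      exact ⟨i, hi.1, hi.2, rfl⟩
    have hSb : ∀ t ∈ S, 2 ^ j < t ∧ t ≤ 2 ^ (j + 1) := by
      intro t ht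
      obtain ⟨i, h1, h2, rfl⟩ := hSmem t ht
      have h3 : i * M ≤ K * M := Nat.mul_le_mul_right M h2
      have h4 : 1 * M ≤ i * M := Nat.mul_le_mul_right M h1
      rw [pow_succ]
      omega
    have hWM : ∀ t ∈ S, Wd c t < M := by
      intro t ht
      rw [hM]
      apply Nat.lt_succ_of_le
      apply Nat.floor_le_floor
      have h5 : Real.log t ≤ Real.log ((2 ^ (j + 1) : ℕ) : ℝ) :=
        Real.log_le_log (by exact_mod_cast lt_of_le_of_lt (Nat.zero_le _) (hSb t ht).1)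
          (by exact_mod_cast (hSb t ht).2)
      have h6 : 0 ≤ Real.log t := Real.log_natCast_nonneg t
      gcongr
    have hdis : ∀ t ∈ S, ∀ t' ∈ S, t ≠ t' → Disjoint (Ioc t (t + Wd c t)) (Ioc t' (t' + Wd c t')) := by
      intro t ht t' ht' hne
      obtain ⟨i, h1, h2, h3⟩ := hSmem t ht
      obtain ⟨i', h1', h2', h3'⟩ := hSmem t' ht'
      have k1 := hWM t ht
      have k2 := hWM t' ht'
      rw [Finset.disjoint_left]
      intro p hp hp'
      rw [Finset.mem_Ioc] at hp hp'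
      rcases lt_trichotomy i i' with h | h | h
      · have : (i + 1) * M ≤ i' * M := Nat.mul_le_mul_right M h
        rw [add_mul, one_mul] at this
        omega
      · apply hne
        rw [h3, h3', h]
      · have : (i' + 1) * M ≤ i * M := Nat.mul_le_mul_right M h
        rw [add_mul, one_mul] at this
        omega
    refine ⟨S, fun t => Ioc t (t + Wd c t), hdis, ?_, ?_⟩
    · intro t ht
      exact ⟨(hSb t ht).1, (hSb t ht).2, rfl⟩
    · have hcard : S.card = K := by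
        rw [hS, Finset.card_image_of_injective, Nat.card_Icc, Nat.add_sub_cancel]
        intro a b hab
        simp only at hab
        have : a * M = b * M := by omega
        exact Nat.eq_of_mul_eq_mul_right hM0 this
      have hKR : (2 : ℝ) ^ j / (c * (Real.log (2 ^ (j + 1) : ℕ)) ^ 2 + 1) - 1 ≤ K := by
        have h1 : (2 ^ j : ℕ) < M * (K + 1) := Nat.lt_mul_div_succ _ hM0
        have h2 : ((2 : ℝ) ^ j) < M * ((K : ℝ) + 1) := by exact_mod_cast h1
        have h3 : (2 : ℝ) ^ j / (c * (Real.log (2 ^ (j + 1) : ℕ)) ^ 2 + 1) ≤ 2 ^ j / M := by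
          apply div_le_div_of_nonneg_left (by positivity) (by exact_mod_cast hM0) hMR
        have h4 : (2 : ℝ) ^ j / M < K + 1 := by
          rw [div_lt_iff₀ (by exact_mod_cast hM0)]
          linarith
        linarith
      -- the primes
      set T : Finset ℕ := (Icc 1 (2 ^ (j + 1) + M)).filter
        (fun p => p.Prime ∧ (1 - η) * 2 ^ j ≤ (p : ℝ)) with hT
      have hTp : ∀ p ∈ T, p.Prime := by
        intro p hp
        rw [hT, Finset.mem_filter] at hp
        exact hp.2.1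
      have hTlow : ∀ p ∈ T, (1 - η) * 2 ^ j ≤ (p : ℝ) := by
        intro p hp
        rw [hT, Finset.mem_filter] at hp
        exact hp.2.2
      have hTcard : (T.card : ℝ) ≤ (1 + ε) * (2 ^ j / (j * Real.log 2)) := by
        apply hjb T
        intro p hp
        refine ⟨hTp p hp, hTlow p hp, ?_⟩
        rw [hT, Finset.mem_filter, Finset.mem_Icc] at hp
        have h1 : (p : ℝ) ≤ 2 ^ (j + 1) + M := by exact_mod_cast hp.1.2
        linarith
      have hP16 : (j : ℝ) < 2 ^ j := by exact_mod_cast hXj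
      have hTge : ∀ p ∈ T, p₀ ≤ p := by
        intro p hp
        have h1 := hTlow p hp
        have h2 : (3 / 4 : ℝ) * 2 ^ j ≤ p := by
          refine le_trans ?_ h1
          gcongr
          linarith
        have h3 : 2 ^ j = 2 * 2 ^ (j - 1) := by
          rw [← pow_succ', Nat.sub_add_cancel (by omega)]
        have h4 : j - 1 < 2 ^ (j - 1) := Nat.lt_two_pow_self
        have h5 : (p₀ : ℝ) ≤ 2 ^ (j - 1) := by
          have : p₀ ≤ 2 ^ (j - 1) := by omega
          exact_mod_cast this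
        have h6 : (2 : ℝ) ^ j = 2 * 2 ^ (j - 1) := by exact_mod_cast h3
        have h7 : (p₀ : ℝ) ≤ p := by
          have : (0 : ℝ) < 2 ^ (j - 1) := by positivity
          linarith
        exact_mod_cast h7
      have hT0 : ∀ t ∈ S, ∀ p : ℕ, p.Prime → p ∉ T → μ.real (HH ξ (Ioc t (t + Wd c t)) p) = 0 := by
        intro t ht p hp hpT
        apply HH_zero _ (hξ p hp)
        intro i hi
        rw [Finset.mem_Ioc] at hi
        have k1 := hWM t ht
        have k2 := hSb t ht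
        rw [hT, Finset.mem_filter, Finset.mem_Icc] at hpT
        by_cases h1 : p ≤ 2 ^ (j + 1) + M
        · right
          have h2 : (p : ℝ) < (1 - η) * 2 ^ j := by
            by_contra hcon
            push Not at hcon
            exact hpT ⟨⟨hp.one_lt.le, h1⟩, hp, hcon⟩
          suffices h : p + m p ≤ 2 ^ j by omega
          by_cases h3 : p < p₀
          · have := hm₀ p h3
            omega
          · push Not at h3
            obtain ⟨_, h4, h5⟩ := hp₀ p h3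
            have hp0 : (0 : ℝ) < p := by exact_mod_cast hp.pos
            rw [div_le_iff₀ hp0] at h4
            have h6 : (p : ℝ) + m p ≤ 2 ^ j := by
              have : (0 : ℝ) < 2 ^ j := by positivity
              nlinarith
            exact_mod_cast h6
        · left
          omega
      have hTb : ∀ t ∈ S, ∀ p ∈ T, ((Ioc t (t + Wd c t)).card : ℝ) * q p ≤ δ * (ε / 2) := by
        intro t ht p hp
        rw [card_win]
        have k1 := hWM t ht
        obtain ⟨h1, -, h2⟩ := hp₀ p (hTge p hp)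
        have hq0 := hL.q_nonneg (hTp p hp)
        have hlow := hTlow p hp
        have h3 : (2 : ℝ) ^ (j - 1) ≤ p := by
          have h6 : (2 : ℝ) ^ j = 2 * 2 ^ (j - 1) := by
            rw [← pow_succ', Nat.sub_add_cancel (by omega)]
          have : (0 : ℝ) < 2 ^ (j - 1) := by positivity
          nlinarith
        have h4 : (((j : ℝ) + 1) * Real.log 2) / 2 ≤ Real.log p := by
          have h5 := Real.log_le_log (by positivity) h3
          rw [Real.log_pow, Nat.cast_sub (by omega)] at h5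
          push_cast at h5
          refine le_trans ?_ h5
          nlinarith
        have h5 : (Wd c t : ℝ) ≤ c * (((j : ℝ) + 1) * Real.log 2) ^ 2 := by
          have h6 : (Wd c t : ℝ) ≤ ((M - 1 : ℕ) : ℝ) := by exact_mod_cast (by omega : Wd c t ≤ M - 1)
          refine h6.trans ?_
          rw [hM, Nat.add_sub_cancel, ← hlogj]
          exact Nat.floor_le (by positivity)
        have h6 : (((j : ℝ) + 1) * Real.log 2) ^ 2 ≤ 4 * (Real.log p) ^ 2 := by
          have h7 : ((j : ℝ) + 1) * Real.log 2 ≤ 2 * Real.log p := by linarith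
          calc (((j : ℝ) + 1) * Real.log 2) ^ 2 ≤ (2 * Real.log p) ^ 2 := by gcongr
            _ = _ := by ring
        calc (Wd c t : ℝ) * q p ≤ (c * (4 * (Real.log p) ^ 2)) * q p :=
              mul_le_mul_of_nonneg_right (h5.trans (by gcongr)) hq0
          _ = 4 * c * (Real.log p) ^ 2 * q p := by ring
          _ ≤ _ := h1
      have hE : T.card * (Λ + 2 * ε) ≤ S.card * (θ * (((j : ℝ) + 1) * Real.log 2)) := by
        rw [hcard]
        have hu0 : 0 ≤ θ * (((j : ℝ) + 1) * Real.log 2) := by positivity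
        rw [hlogj] at hKR
        calc (T.card : ℝ) * (Λ + 2 * ε) ≤ (1 + ε) * (2 ^ j / (j * Real.log 2)) * (Λ + 2 * ε) := by
              apply mul_le_mul_of_nonneg_right hTcard
              positivity
          _ = 2 ^ j / (j * Real.log 2) * ((1 + ε) * (Λ + 2 * ε)) := by ring
          _ ≤ _ := hjavg
          _ ≤ K * (θ * (((j : ℝ) + 1) * Real.log 2)) := mul_le_mul_of_nonneg_right hKR hu0
      have hmain := sum_EE hm hind hL δ hδ hd ε hε0 hε1 S (fun t => Ioc t (t + Wd c t)) hdis T hTp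
        hT0 hTb _ hE
      refine le_trans ?_ hmain
      rw [hcard]
      rw [← hlogj]
      calc (2 : ℝ) ^ (γ * j) ≤ _ := hj
        _ ≤ K * Real.exp (-(θ * Real.log (2 ^ (j + 1) : ℕ))) := by
            apply mul_le_mul_of_nonneg_right hKR (Real.exp_pos _).le


end Pool.Agent.U52.PD
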