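import Mathlib
import Pool.Agent.U839.Disp.Prob

set_option autoImplicit false

/-! # Second moment method for the number of empty windows -/

open MeasureTheory ProbabilityTheory Filter Finset Topology

namespace Pool.Agent.U52.PD

open Pool.Agent.U839.Disp (EE EE_meas EE_neg)

variable {Ω : Type*} [MeasurableSpace Ω] {μ : Measure Ω} [IsProbabilityMeasure μ]

open Classical in
/-- second moment method: at least half of the expected number of the events occur -/
theorem sm_half (S : Finset ℕ) (F : ℕ → Set Ω) (hF : ∀ i ∈ S, MeasurableSet (F i))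
    (hneg : ∀ i ∈ S, ∀ j ∈ S, i ≠ j → μ.real (F i ∩ F j) ≤ μ.real (F i) * μ.real (F j))
    (hpos : 0 < ∑ i ∈ S, μ.real (F i)) :
    μ.real {ω | ((S.filter (fun i => ω ∈ F i)).card : ℝ) ≤ (∑ i ∈ S, μ.real (F i)) / 2} ≤
      4 / ∑ i ∈ S, μ.real (F i) := by
  set m : ℝ := ∑ i ∈ S, μ.real (F i) with hm
  set f : ℕ → Ω → ℝ := fun i => (F i).indicator (fun _ => (1 : ℝ)) with hf
  set N : Ω → ℝ := fun ω => ∑ i ∈ S, f i ω with hN
  have hfi : ∀ i ∈ S, Integrable (f i) μ := fun i hi =>
    (integrable_const (1 : ℝ)).indicator (hF i hi)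
  have hf1 : ∀ i ∈ S, ∫ ω, f i ω ∂μ = μ.real (F i) := by
    intro i hi
    rw [hf]
    simp only
    rw [integral_indicator_const _ (hF i hi)]
    simp
  have hff : ∀ i ∈ S, ∀ j ∈ S, Integrable (fun ω => f i ω * f j ω) μ ∧
      ∫ ω, f i ω * f j ω ∂μ = μ.real (F i ∩ F j) := by
    intro i hi j hj
    have e : (fun ω => f i ω * f j ω) = (F i ∩ F j).indicator (fun _ => (1 : ℝ)) := by
      funext ω
      rw [hf]
      simp only [Set.indicator_apply, Set.mem_inter_iff]
      by_cases h1 : ω ∈ F i <;> by_cases h2 : ω ∈ F j <;> simp [h1, h2]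
    rw [e]
    refine ⟨(integrable_const (1 : ℝ)).indicator ((hF i hi).inter (hF j hj)), ?_⟩
    rw [integral_indicator_const _ ((hF i hi).inter (hF j hj))]
    simp
  -- second moment
  have hNint : Integrable N μ := integrable_finsetSum S hfi
  have hN1 : ∫ ω, N ω ∂μ = m := by
    rw [hN, integral_finsetSum S hfi]
    exact Finset.sum_congr rfl hf1
  have hN2e : (fun ω => N ω ^ 2) = fun ω => ∑ i ∈ S, ∑ j ∈ S, f i ω * f j ω := by
    funext ω
    rw [hN]
    simp only
    rw [sq, Finset.sum_mul_sum]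
  have hN2i : Integrable (fun ω => N ω ^ 2) μ := by
    rw [hN2e]
    exact integrable_finsetSum S fun i hi => integrable_finsetSum S fun j hj => (hff i hi j hj).1
  have hN2 : ∫ ω, N ω ^ 2 ∂μ ≤ m + m ^ 2 := by
    rw [hN2e, integral_finsetSum S fun i hi => integrable_finsetSum S fun j hj => (hff i hi j hj).1]
    have h1 : ∀ i ∈ S, ∫ ω, ∑ j ∈ S, f i ω * f j ω ∂μ ≤ μ.real (F i) + μ.real (F i) * m := by
      intro i hi
      rw [integral_finsetSum S fun j hj => (hff i hi j hj).1]
      rw [← Finset.add_sum_erase S _ hi, (hff i hi i hi).2, Set.inter_self]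
      apply add_le_add le_rfl
      rw [hm, Finset.mul_sum]
      calc ∑ j ∈ S.erase i, ∫ ω, f i ω * f j ω ∂μ ≤ ∑ j ∈ S.erase i, μ.real (F i) * μ.real (F j) := by
            apply Finset.sum_le_sum
            intro j hj
            rw [Finset.mem_erase] at hj
            rw [(hff i hi j hj.2).2]
            exact hneg i hi j hj.2 (Ne.symm hj.1)
        _ ≤ _ := by
            apply Finset.sum_le_sum_of_subset_of_nonneg (Finset.erase_subset _ _)
            intro j _ _
            exact mul_nonneg measureReal_nonneg measureReal_nonneg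
    calc _ ≤ ∑ i ∈ S, (μ.real (F i) + μ.real (F i) * m) := Finset.sum_le_sum h1
      _ = m + m ^ 2 := by
          rw [Finset.sum_add_distrib, ← Finset.sum_mul, ← hm]
          ring
  -- Chebyshev
  have hNc : ∀ ω, N ω = ((S.filter (fun i => ω ∈ F i)).card : ℝ) := by
    intro ω
    rw [hN, Finset.card_filter]
    push_cast
    apply Finset.sum_congr rfl
    intro i _
    rw [hf]
    simp only [Set.indicator_apply]
  have hNm : Measurable N := Finset.measurable_fun_sum S fun i hi =>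
    (measurable_const (a := (1 : ℝ))).indicator (hF i hi)
  set Z : Set Ω := {ω | ((S.filter (fun i => ω ∈ F i)).card : ℝ) ≤ m / 2} with hZ
  have hZe : Z = {ω | N ω ≤ m / 2} := by
    rw [hZ]
    ext ω
    rw [Set.mem_ofPred_eq, Set.mem_ofPred_eq, hNc ω]
  have hZm : MeasurableSet Z := by
    rw [hZe]
    exact measurableSet_le hNm measurable_const
  have hcheb : (m / 2) ^ 2 * μ.real Z ≤ ∫ ω, (N ω - m) ^ 2 ∂μ := by
    have e1 : ∫ ω, Z.indicator (fun _ => (m / 2) ^ 2) ω ∂μ = (m / 2) ^ 2 * μ.real Z := by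
      rw [integral_indicator_const _ hZm]
      rw [smul_eq_mul, mul_comm]
    rw [← e1]
    apply integral_mono
    · exact (integrable_const _).indicator hZm
    · have : (fun ω => (N ω - m) ^ 2) = fun ω => N ω ^ 2 - 2 * m * N ω + m ^ 2 := by
        funext ω; ring
      rw [this]
      exact (hN2i.sub (hNint.const_mul _)).add (integrable_const _)
    · intro ω
      by_cases hω : ω ∈ Z
      · rw [Set.indicator_of_mem hω]
        rw [hZe, Set.mem_ofPred_eq] at hω
        show (m / 2) ^ 2 ≤ (N ω - m) ^ 2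
        nlinarith
      · rw [Set.indicator_of_notMem hω]
        exact sq_nonneg _
  have hvar : ∫ ω, (N ω - m) ^ 2 ∂μ ≤ m := by
    have e2 : (fun ω => (N ω - m) ^ 2) = fun ω => (N ω ^ 2 - 2 * m * N ω) + m ^ 2 := by
      funext ω; ring
    have g1 : Integrable (fun ω => 2 * m * N ω) μ := hNint.const_mul _
    have g2 : Integrable (fun ω => N ω ^ 2 - 2 * m * N ω) μ := hN2i.sub g1
    rw [e2, integral_add g2 (integrable_const _),
      integral_sub hN2i g1, integral_const_mul, hN1, integral_const]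
    simp only [probReal_univ, one_smul]
    linarith [hN2, sq m]
  rw [le_div_iff₀ hpos]
  have h1 : m * (m * μ.real Z) ≤ m * 4 := by
    calc m * (m * μ.real Z) = 4 * ((m / 2) ^ 2 * μ.real Z) := by ring
      _ ≤ 4 * m := by linarith [hcheb.trans hvar]
      _ = m * 4 := by ring
  have := le_of_mul_le_mul_left h1 hpos
  linarith

open Classical in
/-- Borel-Cantelli: many empty sets -/
theorem ae_many {ξ : ℕ → Ω → ℕ} (hm : ∀ p, Measurable (ξ p)) (hind : iIndepFun ξ μ)
    (β : ℝ) (hβ : 0 < β) (P : ℕ → ℕ → Finset ℕ → Prop)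
    (h : ∀ᶠ j : ℕ in atTop, ∃ (S : Finset ℕ) (I : ℕ → Finset ℕ),
      (∀ i ∈ S, ∀ i' ∈ S, i ≠ i' → Disjoint (I i) (I i')) ∧ (∀ i ∈ S, P j i (I i)) ∧
      (2 : ℝ) ^ (β * j) ≤ ∑ i ∈ S, μ.real (EE ξ (I i))) :
    ∀ᵐ ω ∂μ, ∀ᶠ j : ℕ in atTop, ∃ (S : Finset ℕ) (I : ℕ → Finset ℕ), (∀ i ∈ S, P j i (I i)) ∧
      (∀ i ∈ S, ω ∈ EE ξ (I i)) ∧ (2 : ℝ) ^ (β * j) / 2 ≤ S.card := by
  obtain ⟨x₀, hx₀⟩ := eventually_atTop.1 h
  choose! S I h1 h2 h3 using hx₀
  set bad : ℕ → Set Ω := fun x => if x₀ ≤ x then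
    {ω | (((S x).filter (fun i => ω ∈ EE ξ (I x i))).card : ℝ) ≤
      (∑ i ∈ S x, μ.real (EE ξ (I x i))) / 2} else ∅ with hbad
  have hb : ∀ x, μ.real (bad x) ≤ 4 * ((2 : ℝ) ^ (-β)) ^ x := by
    intro x
    have e : 4 * ((2 : ℝ) ^ (-β)) ^ x = 4 / (2 : ℝ) ^ (β * x) := by
      rw [← Real.rpow_natCast, ← Real.rpow_mul (by norm_num), div_eq_mul_inv, ← Real.rpow_neg (by norm_num)]
      congr 2
      ring
    rw [hbad]
    simp only
    split_ifs with hx
    · have hp : 0 < (2 : ℝ) ^ (β * x) := by positivity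
      have hs := h3 x hx
      refine (sm_half (S x) (fun i => EE ξ (I x i)) (fun i _ => EE_meas hm _)
        (fun i hi j hj hij => EE_neg hm hind _ _ (h1 x hx i hi j hj hij)) (hp.trans_le hs)).trans ?_
      rw [e]
      exact div_le_div_of_nonneg_left (by norm_num) hp hs
    · simp only [measureReal_empty]
      positivity
  have hr : (2 : ℝ) ^ (-β) < 1 := by
    apply Real.rpow_lt_one_of_one_lt_of_neg (by norm_num) (by linarith)
  have hsum : Summable (fun x : ℕ => 4 * ((2 : ℝ) ^ (-β)) ^ x) :=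
    (summable_geometric_of_lt_one (by positivity) hr).mul_left 4
  have htot : ∑' x, μ (bad x) ≠ ⊤ := by
    have h5 : ∀ x, μ (bad x) ≤ ENNReal.ofReal (4 * ((2 : ℝ) ^ (-β)) ^ x) := by
      intro x
      rw [← ENNReal.ofReal_toReal (measure_ne_top μ (bad x))]
      exact ENNReal.ofReal_le_ofReal (hb x)
    exact ne_top_of_le_ne_top hsum.tsum_ofReal_ne_top (ENNReal.tsum_le_tsum h5)
  filter_upwards [ae_eventually_notMem htot] with ω hω
  filter_upwards [hω, eventually_ge_atTop x₀] with x hx hxx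
  rw [hbad] at hx
  simp only [if_pos hxx] at hx
  rw [Set.mem_ofPred_eq, not_le] at hx
  refine ⟨(S x).filter (fun i => ω ∈ EE ξ (I x i)), I x, ?_, ?_, ?_⟩
  · intro i hi
    exact h2 x hxx i (Finset.mem_filter.1 hi).1
  · intro i hi
    exact (Finset.mem_filter.1 hi).2
  · have hs := h3 x hxx
    linarith

end Pool.Agent.U52.PD
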