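import Mathlib
import Pool.Agent.U52.PD.Law
import Pool.Agent.U52.PD.Gap

set_option autoImplicit false

/-! # Upper bounds for the number of empty windows -/

open MeasureTheory ProbabilityTheory Filter Finset Topology

namespace Pool.Agent.U52.PD

open Pool.Agent.U839.Disp (HH EE Wd card_win tlog EB EB_large EB_near EB_le pnt_short DL DL_ge DL_le pi2)

variable {Ω : Type*} [MeasurableSpace Ω] {μ : Measure Ω} [IsProbabilityMeasure μ]

set_option maxHeartbeats 4000000 in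
theorem up_pt_gen (B : ℕ) (hB : 1 ≤ B) (δ₀ : ℝ) (hδ₀ : 0 < δ₀) (hδ₁ : δ₀ ≤ 1) (c : ℝ) (hc0 : 0 < c)
    (δ : ℝ) (hδ0 : 0 < δ)
    {ξ : ℕ → Ω → ℕ} (hm : ∀ p, Measurable (ξ p)) (hind : iIndepFun ξ μ)
    (hL : ∀ p : ℕ, p.Prime → ∀ j : ℕ, 1 ≤ j → j ≤ DL B p → δ₀ / (DL B p : ℝ) ≤ μ.real (ξ p ⁻¹' {j})) :
    ∀ᶠ t : ℕ in atTop, μ.real (EE ξ (Ioc t (t + Wd c t))) ≤ 1 / (t : ℝ) ^ (c * δ₀ - 2 * δ) := by
  set b : ℝ := c * δ₀ with hb
  have hb0 : 0 < b := by rw [hb]; positivity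
  set ε : ℝ := min (1 / 20) (δ / (7 * b)) with hεd
  have hε : 0 < ε := lt_min (by norm_num) (by positivity)
  have hε20 : ε ≤ 1 / 20 := min_le_left _ _
  have hε2 : b * (7 * ε) ≤ δ := by
    have h1 : ε ≤ δ / (7 * b) := min_le_right _ _
    calc b * (7 * ε) ≤ b * (7 * (δ / (7 * b))) := by gcongr
      _ = δ := by field_simp
  filter_upwards [pnt_short B hB ε hε, EB_near B ε hε (by linarith), EB_large B (c / (2 * ε)) 2,
    EB_large B (1 / ε) 0, tlog.eventually_ge_atTop 8, tlog.eventually_ge_atTop (1 / δ),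
    eventually_ge_atTop 1] with t g1 g2 g3 g4 g5 g6 g7
  set L : ℝ := Real.log t with hLd
  have hL0 : 0 < L := by linarith
  have ht0 : (0 : ℝ) < t := by exact_mod_cast g7
  set E : ℝ := EB B t with hE
  rw [pow_zero, mul_one] at g4
  have hE1 : 1 ≤ ε * E := by
    rw [div_le_iff₀ hε] at g4
    linarith
  have hE0 : 0 < E := by
    by_contra hcon
    push Not at hcon
    have := mul_nonpos_of_nonneg_of_nonpos hε.le hcon
    linarith
  set W : ℕ := Wd c t with hW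
  have hWle : (W : ℝ) ≤ c * L ^ 2 := Nat.floor_le (by positivity)
  have hWge : c * L ^ 2 - 1 ≤ W := (Nat.sub_one_lt_floor _).le
  have hWE : (W : ℝ) ≤ 2 * ε * E := by
    refine hWle.trans ?_
    have : c / (2 * ε) * L ^ 2 * (2 * ε) ≤ E * (2 * ε) := by gcongr
    calc c * L ^ 2 = c / (2 * ε) * L ^ 2 * (2 * ε) := by field_simp
      _ ≤ _ := this
      _ = _ := by ring
  set y : ℕ := ⌊(1 - 3 * ε) * E⌋₊ with hy
  have hyle : (y : ℝ) ≤ (1 - 3 * ε) * E := Nat.floor_le (by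
    apply mul_nonneg _ hE0.le
    linarith)
  have hyge : (1 - 3 * ε) * E - 1 ≤ y := (Nat.sub_one_lt_floor _).le
  have hyE : (y : ℝ) ≤ E := by nlinarith
  obtain ⟨hyt, hpnt⟩ := g1 y (by linarith)
  have hEt : E ≤ t / L := EB_le B hB (by linarith)
  set T : Finset ℕ := (Ioc (t - y) t).filter Nat.Prime with hT
  have hTmem : ∀ p ∈ T, t < p + y ∧ p ≤ t ∧ p.Prime := by
    intro p hp
    rw [hT, Finset.mem_filter, Finset.mem_Ioc] at hp
    exact ⟨by omega, hp.1.2, hp.2⟩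
  have hDlo : ∀ p ∈ T, (1 - ε) * E ≤ DL B p := by
    intro p hp
    obtain ⟨h1, h2, h3⟩ := hTmem p hp
    have h1' : (t : ℝ) < p + y := by exact_mod_cast h1
    rcases (g2 p).1 (by
      have h4 : (t : ℝ) * (1 - 3 / L) = t - 3 * (t / L) := by ring
      rw [h4]
      have : 0 < t / L := by positivity
      linarith) with h5 | h5
    · exact h5.trans (DL_ge B p)
    · omega
  have hDup : ∀ p ∈ T, (DL B p : ℝ) ≤ (1 + 2 * ε) * E := by
    intro p hp
    obtain ⟨h1, h2, h3⟩ := hTmem p hp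
    have h1' : (t : ℝ) < p + y := by exact_mod_cast h1
    have h5 := (g2 p).2.1 (by
      have h6 : t / L ≤ t / 8 := by gcongr
      linarith) h2
    have := DL_le B p
    linarith
  have hb : ∀ p ∈ T, (W : ℝ) * (δ₀ / ((1 + 2 * ε) * E)) ≤ μ.real (HH ξ (Ioc t (t + W)) p) := by
    intro p hp
    obtain ⟨h1, h2, h3⟩ := hTmem p hp
    have h4 := hDlo p hp
    have h5 : 0 < (1 - ε) * E := mul_pos (by linarith) hE0
    have h6 : 0 < (DL B p : ℝ) := h5.trans_le h4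
    have h7 : (W : ℝ) * (δ₀ / ((1 + 2 * ε) * E)) ≤ W * (δ₀ / (DL B p : ℝ)) := by
      apply mul_le_mul_of_nonneg_left _ (Nat.cast_nonneg W)
      exact div_le_div_of_nonneg_left hδ₀.le h6 (hDup p hp)
    refine h7.trans ?_
    have h8 := HH_ge hm (D := DL B) (δ₀ / (DL B p : ℝ)) (Ioc t (t + W)) (p := p) (hL p h3) (by
      intro i hi
      rw [Finset.mem_Ioc] at hi
      refine ⟨by omega, ?_⟩
      have h5 : (y : ℝ) + W ≤ DL B p := by linarith
      have h6 : y + W ≤ DL B p := by exact_mod_cast h5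
      omega)
    rwa [card_win] at h8
  refine (Pool.Agent.U839.Disp.EE_upper hm hind _ T _ (fun p hp => (hTmem p hp).2.2) hb).trans ?_
  have e1 : 1 / (t : ℝ) ^ (b - 2 * δ) = Real.exp (-((b - 2 * δ) * L)) := by
    rw [Real.rpow_def_of_pos ht0, one_div, ← Real.exp_neg]
    congr 1
    ring
  rw [e1]
  apply Real.exp_le_exp.2
  rw [neg_le_neg_iff]
  have hTc : (1 - 5 * ε) * E / L ≤ T.card := by
    have h1 := (abs_le.1 hpnt).1
    have h2 : (pi2 (t - y) t : ℝ) = T.card := rfl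
    rw [h2] at h1
    have h3 : ((1 - 3 * ε) * E - 1) / L ≤ y / L := by gcongr
    have h4 : (1 - 5 * ε) * E / L ≤ ((1 - 3 * ε) * E - 1) / L - ε * (E / L) := by
      have : ((1 - 3 * ε) * E - 1) / L - ε * (E / L) = ((1 - 3 * ε) * E - 1 - ε * E) / L := by
        field_simp
      rw [this]
      gcongr
      linarith
    linarith
  have h1 : (b - δ) * L - 1 / L ≤ δ₀ * W * (1 - 7 * ε) / L := by
    have h2 : δ₀ * (c * L ^ 2 - 1) * (1 - 7 * ε) ≤ δ₀ * W * (1 - 7 * ε) := by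
      apply mul_le_mul_of_nonneg_right _ (by linarith)
      exact mul_le_mul_of_nonneg_left hWge hδ₀.le
    have h3 : (b - δ) * L ^ 2 - 1 ≤ δ₀ * (c * L ^ 2 - 1) * (1 - 7 * ε) := by
      have h4 : b - δ ≤ b * (1 - 7 * ε) := by
        linarith
      have h5 : (b - δ) * L ^ 2 ≤ b * (1 - 7 * ε) * L ^ 2 := by gcongr
      have h6 : δ₀ * (1 - 7 * ε) ≤ 1 := by nlinarith
      have h7 : δ₀ * (c * L ^ 2 - 1) * (1 - 7 * ε) = b * (1 - 7 * ε) * L ^ 2 - δ₀ * (1 - 7 * ε) := by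
        rw [‹b = c * δ₀›]; ring
      linarith
    rw [le_div_iff₀ hL0]
    have h6 : ((b - δ) * L - 1 / L) * L = (b - δ) * L ^ 2 - 1 := by
      field_simp
    rw [h6]
    linarith
  have h7 : δ₀ * W * (1 - 7 * ε) / L ≤ W * (δ₀ / ((1 + 2 * ε) * E)) * ((1 - 5 * ε) * E / L) := by
    have h8 : (W : ℝ) * (δ₀ / ((1 + 2 * ε) * E)) * ((1 - 5 * ε) * E / L) =
        δ₀ * W * ((1 - 5 * ε) / (1 + 2 * ε)) / L := by
      field_simp
    rw [h8]
    have h9 : 1 - 7 * ε ≤ (1 - 5 * ε) / (1 + 2 * ε) := by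
      rw [le_div_iff₀ (by linarith)]
      nlinarith
    gcongr
  have h10 : (W : ℝ) * (δ₀ / ((1 + 2 * ε) * E)) * ((1 - 5 * ε) * E / L) ≤
      W * (δ₀ / ((1 + 2 * ε) * E)) * T.card := by gcongr
  have h11 : 1 / L ≤ δ * L := by
    rw [div_le_iff₀ hδ0] at g6
    rw [div_le_iff₀ hL0]
    nlinarith
  linarith

open Classical in
/-- the number of the events up to `X` -/
theorem cnt_le {E : ℕ → Set Ω} (hE : ∀ t, MeasurableSet (E t)) (β s δ : ℝ) (hδ : 0 < δ) (hs : 0 ≤ s)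
    (hbs : 1 + δ ≤ β + s) (h : ∀ᶠ t : ℕ in atTop, μ.real (E t) ≤ 1 / (t : ℝ) ^ β) :
    ∀ᵐ ω ∂μ, ∃ K : ℝ, ∀ X : ℕ, (((Icc 1 X).filter (fun t => ω ∈ E t)).card : ℝ) ≤ K * (X : ℝ) ^ s := by
  have hsum : Summable (fun t : ℕ => 1 / (t : ℝ) ^ s * μ.real (E t)) := by
    have h1 : Summable (fun n : ℕ => 1 / (n : ℝ) ^ (1 + δ)) :=
      Real.summable_one_div_nat_rpow.2 (by linarith)
    refine Summable.of_norm_bounded_eventually_nat h1 ?_
    filter_upwards [h, eventually_ge_atTop 1] with t ht ht1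
    have ht0 : (1 : ℝ) ≤ t := by exact_mod_cast ht1
    have ht00 : (0 : ℝ) < t := by linarith
    rw [Real.norm_of_nonneg (by positivity)]
    calc 1 / (t : ℝ) ^ s * μ.real (E t) ≤ 1 / (t : ℝ) ^ s * (1 / (t : ℝ) ^ β) := by gcongr
      _ = 1 / (t : ℝ) ^ (β + s) := by
          rw [Real.rpow_add ht00, one_div_mul_one_div, mul_comm]
      _ ≤ 1 / (t : ℝ) ^ (1 + δ) := by
          apply one_div_le_one_div_of_le (by positivity)
          exact Real.rpow_le_rpow_of_exponent_le ht0 hbs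
  set f : ℕ → Ω → ENNReal := fun t => (E t).indicator (fun _ => ENNReal.ofReal (1 / (t : ℝ) ^ s)) with hf
  have hfm : ∀ t, Measurable (f t) := fun t => measurable_const.indicator (hE t)
  have hint : ∫⁻ ω, ∑' t, f t ω ∂μ ≠ ⊤ := by
    rw [lintegral_tsum (fun t => (hfm t).aemeasurable)]
    have e : ∀ t, ∫⁻ ω, f t ω ∂μ = ENNReal.ofReal (1 / (t : ℝ) ^ s * μ.real (E t)) := by
      intro t
      rw [hf]
      simp only
      rw [lintegral_indicator_const (hE t), ENNReal.ofReal_mul (by positivity), ofReal_measureReal]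
    simp_rw [e]
    exact hsum.tsum_ofReal_ne_top
  filter_upwards [ae_lt_top (Measurable.tsum hfm) hint] with ω hω
  refine ⟨(∑' t, f t ω).toReal, fun X => ?_⟩
  have hK0 : 0 ≤ (∑' t, f t ω).toReal := ENNReal.toReal_nonneg
  rcases Nat.eq_zero_or_pos X with hX | hX
  · subst hX
    have : Icc 1 0 = (∅ : Finset ℕ) := by rfl
    rw [this, Finset.filter_empty, Finset.card_empty, Nat.cast_zero]
    positivity
  set S := (Icc 1 X).filter (fun t => ω ∈ E t) with hS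
  have hX0 : (0 : ℝ) < X := by exact_mod_cast hX
  have h1 : ∑ t ∈ S, 1 / (t : ℝ) ^ s ≤ (∑' t, f t ω).toReal := by
    have h2 : ∑ t ∈ S, f t ω ≤ ∑' t, f t ω := ENNReal.sum_le_tsum S
    have h3 : ∑ t ∈ S, f t ω = ENNReal.ofReal (∑ t ∈ S, 1 / (t : ℝ) ^ s) := by
      rw [ENNReal.ofReal_sum_of_nonneg (fun t _ => by positivity)]
      apply Finset.sum_congr rfl
      intro t ht
      rw [hS, Finset.mem_filter] at ht
      rw [hf]
      simp only
      rw [Set.indicator_of_mem ht.2]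
    rw [h3] at h2
    have h4 := ENNReal.toReal_mono hω.ne h2
    rwa [ENNReal.toReal_ofReal (Finset.sum_nonneg fun t _ => by positivity)] at h4
  have h5 : (S.card : ℝ) * (1 / (X : ℝ) ^ s) ≤ ∑ t ∈ S, 1 / (t : ℝ) ^ s := by
    rw [← nsmul_eq_mul, ← Finset.sum_const]
    apply Finset.sum_le_sum
    intro t ht
    rw [hS, Finset.mem_filter, Finset.mem_Icc] at ht
    have ht0 : (0 : ℝ) < t := by exact_mod_cast ht.1.1
    apply one_div_le_one_div_of_le (by positivity)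
    exact Real.rpow_le_rpow (Nat.cast_nonneg t) (by exact_mod_cast ht.1.2) hs
  have h6 := h5.trans h1
  rw [mul_one_div, div_le_iff₀ (by positivity)] at h6
  exact h6

end Pool.Agent.U52.PD
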