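import Mathlib
import Pool.Agent.U52.PD.Up

set_option autoImplicit false

/-! # Upper bounds from Hoheisel's theorem -/

open MeasureTheory ProbabilityTheory Filter Finset Topology

namespace Pool.Agent.U52.PD

open Pool.Agent.U839.Disp (HH EE Wd card_win tlog EB EB_large)

variable {Ω : Type*} [MeasurableSpace Ω] {μ : Measure Ω} [IsProbabilityMeasure μ]

/-- powers beat powers of the logarithm -/
theorem rpow_log_large (s : ℝ) (hs : 0 < s) (C : ℝ) : ∀ᶠ t : ℕ in atTop,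
    C * (Real.log t) ^ 2 ≤ (t : ℝ) ^ s := by
  have h1 := (isLittleO_log_rpow_rpow_atTop (2 : ℝ) hs).bound
    (show (0 : ℝ) < 1 / (|C| + 1) by positivity)
  filter_upwards [tendsto_natCast_atTop_atTop.eventually h1, tlog.eventually_ge_atTop 1] with t g1 g2
  rw [Real.norm_of_nonneg (by positivity), Real.norm_of_nonneg (by positivity), Real.rpow_two] at g1
  have hC : 0 < |C| + 1 := by positivity
  rw [one_div, inv_mul_eq_div, le_div_iff₀ hC] at g1
  calc C * (Real.log t) ^ 2 ≤ (|C| + 1) * (Real.log t) ^ 2 := by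
        gcongr
        have := le_abs_self C
        linarith
    _ = (Real.log t) ^ 2 * (|C| + 1) := by ring
    _ ≤ _ := g1

set_option maxHeartbeats 4000000 in
theorem upH : ∃ θ : ℝ, 0 < θ ∧ θ < 1 ∧ ∃ K : ℝ, 0 < K ∧ ∀ (δ₀ : ℝ), 0 < δ₀ → δ₀ ≤ 1 → ∀ (A : ℝ), 1 ≤ A →
    ∀ D : ℕ → ℕ, Monotone D → (∀ n, 1 ≤ D n) → (∀ n, (D (2 * n) : ℝ) ≤ A * D n) →
    (∀ᶠ n : ℕ in atTop, (n : ℝ) ^ θ ≤ D n) → Tendsto (fun n : ℕ => (D n : ℝ) / n) atTop (𝓝 0) →
    ∀ {Ω : Type*} [MeasurableSpace Ω] {μ : Measure Ω} [IsProbabilityMeasure μ] {ξ : ℕ → Ω → ℕ},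
      (∀ p, Measurable (ξ p)) → iIndepFun ξ μ →
      (∀ p : ℕ, p.Prime → ∀ j : ℕ, 1 ≤ j → j ≤ D p → δ₀ / (D p : ℝ) ≤ μ.real (ξ p ⁻¹' {j})) →
      ∀ᶠ t : ℕ in atTop, μ.real (EE ξ (Ioc t (t + Wd (K * A / δ₀) t))) ≤ 1 / (t : ℝ) ^ (2 : ℝ) := by
  obtain ⟨δ, η, hδ0, hδ1, hη, X₀, hX₀, hH⟩ := Pool.Agent.H295R3.D.hoheisel
  refine ⟨1 - δ / 2, by linarith, by linarith, 16 / η, by positivity, ?_⟩
  intro δ₀ hδ₀ hδ₁ A hA D hmono hD1 hdbl hDlow hDo Ω _ μ _ ξ hm hind hL
  set c : ℝ := 16 / η * A / δ₀ with hc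
  have hA0 : 0 < A := by linarith
  have hc0 : 0 < c := by positivity
  filter_upwards [hDlow, hDo.eventually_le_const (show (0 : ℝ) < 1 / 2 by norm_num),
    rpow_log_large (1 - δ / 2) (by linarith) (2 * A * c),
    rpow_log_large (δ / 2) (by linarith) (4 * A), tlog.eventually_ge_atTop 1,
    tlog.eventually_ge_atTop (2 / c), (tendsto_natCast_atTop_atTop (R := ℝ)).eventually_ge_atTop (4 * X₀),
    rpow_log_large (1 - δ / 2) (by linarith) (4 * A)]
    with t g1 g2 g3 g4 g5 g6 g7 g8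
  set L : ℝ := Real.log t with hLd
  have hL0 : 0 < L := by linarith
  have hX₀R : (2 : ℝ) ≤ X₀ := by exact_mod_cast hX₀
  have ht8 : (8 : ℝ) ≤ t := by linarith
  have ht0 : (0 : ℝ) < t := by linarith
  rw [div_le_iff₀ ht0] at g2
  have hL1 : 1 ≤ L ^ 2 := one_le_pow₀ g5
  set W : ℕ := Wd c t with hW
  have hWle : (W : ℝ) ≤ c * L ^ 2 := Nat.floor_le (by positivity)
  have hWge : c * L ^ 2 - 1 ≤ W := (Nat.sub_one_lt_floor _).le
  have hDt : (0 : ℝ) < D t := by exact_mod_cast hD1 t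
  have hD4 : 4 * A ≤ D t := by
    calc 4 * A = 4 * A * 1 := by ring
      _ ≤ 4 * A * L ^ 2 := by gcongr
      _ ≤ _ := g8
      _ ≤ _ := g1
  -- the number of primes
  set y : ℕ := ⌊(D t : ℝ) / (2 * A)⌋₊ with hy
  have hyle : (y : ℝ) ≤ D t / (2 * A) := Nat.floor_le (by positivity)
  have hyge : (D t : ℝ) / (2 * A) - 1 ≤ y := (Nat.sub_one_lt_floor _).le
  have hyge2 : (D t : ℝ) / (4 * A) ≤ y := by
    have h1 : (1 : ℝ) ≤ D t / (4 * A) := by
      rw [le_div_iff₀ (by positivity)]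
      linarith
    have h2 : (D t : ℝ) / (2 * A) = D t / (4 * A) + D t / (4 * A) := by
      field_simp; ring
    linarith
  have hyt4 : (y : ℝ) ≤ t / 4 := by
    refine hyle.trans ?_
    rw [div_le_iff₀ (by positivity)]
    nlinarith
  have hyt : y ≤ t := by
    have : (y : ℝ) ≤ t := by linarith
    exact_mod_cast this
  set X : ℕ := t - y with hX
  have hXR : (X : ℝ) = t - y := by rw [hX, Nat.cast_sub hyt]
  have hXt : X ≤ t := Nat.sub_le _ _
  have hX1 : X₀ ≤ X := by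
    have : (X₀ : ℝ) ≤ X := by rw [hXR]; linarith
    exact_mod_cast this
  have hXX : (2 : ℝ) ≤ X := by
    have : (X₀ : ℝ) ≤ X := by exact_mod_cast hX1
    linarith
  have hXy : X + y = t := by omega
  have hHo := hH X y hX1 (by
    -- X ^ (1 - δ) ≤ y
    have h1 : (X : ℝ) ^ (1 - δ) ≤ (t : ℝ) ^ (1 - δ) := by
      apply Real.rpow_le_rpow (by linarith) (by exact_mod_cast hXt) (by linarith)
    have h2 : (t : ℝ) ^ (1 - δ) * (4 * A) ≤ D t := by
      calc (t : ℝ) ^ (1 - δ) * (4 * A) ≤ (t : ℝ) ^ (1 - δ) * (4 * A * L ^ 2) := by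
            have : 4 * A ≤ 4 * A * L ^ 2 := le_mul_of_one_le_right (by positivity) hL1
            gcongr
        _ ≤ (t : ℝ) ^ (1 - δ) * (t : ℝ) ^ (δ / 2) := by gcongr
        _ = (t : ℝ) ^ (1 - δ / 2) := by
            rw [← Real.rpow_add ht0]
            congr 1
            ring
        _ ≤ D t := g1
    refine h1.trans (le_trans ?_ hyge2)
    rw [le_div_iff₀ (by positivity)]
    exact h2) (by
    have : (y : ℝ) ≤ X := by rw [hXR]; linarith
    exact_mod_cast this)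
  rw [hXy] at hHo
  set T : Finset ℕ := (Ioc X t).filter Nat.Prime with hT
  have hTmem : ∀ p ∈ T, t < p + y ∧ p ≤ t ∧ p.Prime := by
    intro p hp
    rw [hT, Finset.mem_filter, Finset.mem_Ioc] at hp
    exact ⟨by omega, hp.1.2, hp.2⟩
  have hDlo : ∀ p ∈ T, (D t : ℝ) / A ≤ D p := by
    intro p hp
    obtain ⟨h1, h2, h3⟩ := hTmem p hp
    have h4 : t ≤ 2 * p := by
      have h5 : (t : ℝ) < p + y := by exact_mod_cast h1
      have h6 : (t : ℝ) ≤ 2 * p := by linarith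
      exact_mod_cast h6
    rw [div_le_iff₀ hA0]
    have h5 : (D t : ℝ) ≤ D (2 * p) := by exact_mod_cast hmono h4
    have h6 := hdbl p
    linarith
  have hTc : η * y / L ≤ T.card := by
    refine le_trans ?_ hHo
    have h1 : 0 < Real.log X := Real.log_pos (by linarith)
    have h2 : Real.log X ≤ L := Real.log_le_log (by linarith) (by exact_mod_cast hXt)
    apply div_le_div_of_nonneg_left (by positivity) h1 h2
  have hb : ∀ p ∈ T, (W : ℝ) * (δ₀ / D t) ≤ μ.real (HH ξ (Ioc t (t + W)) p) := by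
    intro p hp
    obtain ⟨h1, h2, h3⟩ := hTmem p hp
    have h6 : (0 : ℝ) < D p := by exact_mod_cast hD1 p
    have h7 : (W : ℝ) * (δ₀ / D t) ≤ W * (δ₀ / (D p : ℝ)) := by
      apply mul_le_mul_of_nonneg_left _ (Nat.cast_nonneg W)
      apply div_le_div_of_nonneg_left hδ₀.le h6
      exact_mod_cast hmono h2
    refine h7.trans ?_
    have h8 := HH_ge hm (D := D) (δ₀ / (D p : ℝ)) (Ioc t (t + W)) (p := p) (hL p h3) (by
      intro i hi
      rw [Finset.mem_Ioc] at hi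
      refine ⟨by omega, ?_⟩
      have h4 := hDlo p hp
      have h5 : (W : ℝ) ≤ D t / (2 * A) := by
        rw [le_div_iff₀ (by positivity)]
        calc (W : ℝ) * (2 * A) ≤ c * L ^ 2 * (2 * A) := by gcongr
          _ = 2 * A * c * L ^ 2 := by ring
          _ ≤ _ := g3
          _ ≤ _ := g1
      have h6 : (D t : ℝ) / A = D t / (2 * A) + D t / (2 * A) := by
        field_simp; ring
      have h7 : (y : ℝ) + W ≤ D p := by linarith
      have h8 : y + W ≤ D p := by exact_mod_cast h7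
      omega)
    rwa [card_win] at h8
  refine (Pool.Agent.U839.Disp.EE_upper hm hind _ T _ (fun p hp => (hTmem p hp).2.2) hb).trans ?_
  have e1 : 1 / (t : ℝ) ^ (2 : ℝ) = Real.exp (-(2 * L)) := by
    rw [Real.rpow_def_of_pos ht0, one_div, ← Real.exp_neg]
    congr 1
    ring
  rw [e1]
  apply Real.exp_le_exp.2
  rw [neg_le_neg_iff]
  have hWge2 : c * L ^ 2 / 2 ≤ W := by
    have h1 : 2 ≤ c * L ^ 2 := by
      rw [div_le_iff₀ hc0] at g6
      nlinarith
    linarith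
  calc 2 * L = (c * L ^ 2 / 2) * (δ₀ / D t) * (η * (D t / (4 * A)) / L) := by
        rw [hc]
        field_simp
        ring
    _ ≤ W * (δ₀ / D t) * (η * y / L) := by gcongr
    _ ≤ W * (δ₀ / D t) * T.card := by gcongr

end Pool.Agent.U52.PD
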