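import Mathlib
import Pool.Agent.U52.PD.Low
import Pool.Agent.U52.PD.UpH

set_option autoImplicit false

/-! # The largest gap between partially displaced primes -/

open MeasureTheory ProbabilityTheory Filter Finset Topology

namespace Pool.Agent.U52.PD

open Pool.Agent.U839.Disp (HH EE Wd card_win tlog EB EB_large DL)

variable {Ω : Type*} [MeasurableSpace Ω] {μ : Measure Ω} [IsProbabilityMeasure μ]

/-- from empty windows to the lower bound -/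
theorem low_fin {ξ : ℕ → Ω → ℕ} {m : ℕ → ℕ} (hξ : ∀ p : ℕ, p.Prime → ∀ᵐ ω ∂μ, ξ p ω ≤ m p)
    (hD2 : Tendsto (fun n : ℕ => (m n : ℝ) / n) atTop (𝓝 0)) (c c' : ℝ) (hc' : 0 < c') (hcc : c' < c)
    (h : ∀ᵐ ω ∂μ, ∀ᶠ j : ℕ in atTop, ∃ t : ℕ, 2 ^ j < t ∧ t ≤ 2 ^ (j + 1) ∧
      ω ∈ EE ξ (Ioc t (t + Wd c t))) :
    ∀ᵐ ω ∂μ, ∀ᶠ X : ℕ in atTop, c' * (Real.log X) ^ 2 ≤ GQ (QQ ξ ω) X := by
  have hξ' : ∀ᵐ ω ∂μ, ∀ p : ℕ, p.Prime → ξ p ω ≤ m p := by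
    rw [ae_all_iff]
    intro p
    by_cases hp : p.Prime
    · filter_upwards [hξ p hp] with ω hω _
      exact hω
    · filter_upwards with ω h
      exact absurd h hp
  filter_upwards [h, hξ'] with ω h1 h2
  apply fin_low (QQ ξ ω) (QQ_inf ξ ω) c c' hc' hcc
  · filter_upwards [h1] with j hj
    obtain ⟨t, t1, t2, t3⟩ := hj
    refine ⟨t, t1, ?_, ?_⟩
    · have : (2 : ℕ) ^ (j + 2) = 2 * 2 ^ (j + 1) := by ring
      omega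
    · rintro k ⟨p, hp, rfl⟩ hcon
      exact t3 p hp (Finset.mem_Ioc.2 hcon)
  · obtain ⟨n₁, hn₁⟩ := eventually_atTop.1
      (hD2.eventually_le_const (show (0 : ℝ) < 1 / 2 by norm_num))
    filter_upwards [eventually_ge_atTop (n₁ + 1)] with t ht
    obtain ⟨p, hp, hp1, hp2⟩ := Nat.exists_prime_lt_and_le_two_mul t (by omega)
    refine ⟨p + ξ p ω, ⟨p, hp, rfl⟩, by omega, ?_⟩
    have h3 := h2 p hp
    have h5 := hn₁ p (by omega)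
    have hp0 : (0 : ℝ) < p := by exact_mod_cast hp.pos
    rw [div_le_iff₀ hp0] at h5
    have h6 : (m p : ℝ) ≤ t := by
      have : (p : ℝ) ≤ 2 * t := by exact_mod_cast hp2
      linarith
    have h7 : m p ≤ t := by exact_mod_cast h6
    omega

/-- from hit windows to the upper bound -/
theorem up_fin {ξ : ℕ → Ω → ℕ} (c : ℝ) (hc : 0 < c)
    (h : ∀ᵐ ω ∂μ, ∀ᶠ t : ℕ in atTop, ω ∉ EE ξ (Ioc t (t + Wd c t))) :
    ∀ᵐ ω ∂μ, ∀ᶠ X : ℕ in atTop, (GQ (QQ ξ ω) X : ℝ) ≤ c * (Real.log X) ^ 2 := by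
  filter_upwards [h] with ω hω
  have hup : ∀ᶠ t : ℕ in atTop, ∃ k ∈ QQ ξ ω, t < k ∧ k ≤ t + Wd c t := by
    filter_upwards [hω] with t ht
    unfold EE at ht
    rw [Set.mem_ofPred_eq] at ht
    push Not at ht
    obtain ⟨p, hp, hpI⟩ := ht
    rw [Finset.mem_Ioc] at hpI
    exact ⟨p + ξ p ω, ⟨p, hp, rfl⟩, hpI⟩
  obtain ⟨n₀, hn₀⟩ := eventually_atTop.1 hup
  have h4 := GQ_le (QQ ξ ω) (QQ_inf ξ ω) c hc (n₀ + 1) (by omega) (fun n hn => hn₀ n (by omega))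
  have h5 : ∀ᶠ X : ℕ in atTop, ((n₀ + 1 + Wd c (n₀ + 1) : ℕ) : ℝ) ≤ c * (Real.log X) ^ 2 := by
    have t2 : Tendsto (fun X : ℕ => c * (Real.log X) ^ 2) atTop atTop :=
      (((tendsto_pow_atTop two_ne_zero).comp tlog)).const_mul_atTop hc
    exact t2.eventually_ge_atTop _
  filter_upwards [h5] with X hX
  have h6 : (GQ (QQ ξ ω) X : ℝ) ≤ max ((n₀ + 1 + Wd c (n₀ + 1) : ℕ) : ℝ) (Wd c X : ℝ) := by
    exact_mod_cast h4 X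
  have h7 : (Wd c X : ℝ) ≤ c * (Real.log X) ^ 2 := Nat.floor_le (by positivity)
  exact h6.trans (max_le hX h7)

theorem Lam_pos (δ : ℝ) (hδ : 0 < δ) (hδ1 : δ ≤ 1) : 0 < δ + Real.log (1 / δ) := by
  have : 0 ≤ Real.log (1 / δ) := Real.log_nonneg (by rw [le_div_iff₀ hδ]; linarith)
  linarith

/-- the law in the form used for the lower bounds -/
theorem law_of {ξ : ℕ → Ω → ℕ} (hm : ∀ p, Measurable (ξ p)) (δ : ℝ) (hδ1 : δ ≤ 1) (q : ℕ → ℝ)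
    (hmv : ∀ p : ℕ, p.Prime → δ ≤ μ.real {ω | ξ p ω ≠ 0})
    (hq : ∀ p : ℕ, p.Prime → ∀ j : ℕ, 1 ≤ j → μ.real (ξ p ⁻¹' {j}) ≤ q p) :
    ∃ d : ℕ → ℝ, (∀ p, δ ≤ d p ∧ d p ≤ 1) ∧ Law μ ξ d q := by
  classical
  refine ⟨fun p => if p.Prime then μ.real {ω | ξ p ω ≠ 0} else 1, ?_, ?_, hq⟩
  · intro p
    simp only
    split_ifs with hp
    · exact ⟨hmv p hp, measureReal_le_one⟩
    · exact ⟨hδ1, le_rfl⟩
  · intro p hp
    simp only [if_pos hp]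
    have h1 : {ω | ξ p ω ≠ 0} = (ξ p ⁻¹' {0})ᶜ := by
      ext ω
      simp
    rw [h1, probReal_compl_eq_one_sub (hm p (measurableSet_singleton _))]
    ring

/-- (1) the lower bound with the constant `1 / (δ + log (1 / δ))` -/
theorem part1 (δ : ℝ) (hδ : 0 < δ) (hδ1 : δ ≤ 1) (q : ℕ → ℝ) (m : ℕ → ℕ)
    (hq0 : Tendsto (fun n : ℕ => q n * (Real.log n) ^ 2) atTop (𝓝 0))
    (hm0 : Tendsto (fun n : ℕ => (m n : ℝ) / n) atTop (𝓝 0)) {ξ : ℕ → Ω → ℕ}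
    (hm : ∀ p, Measurable (ξ p)) (hind : iIndepFun ξ μ)
    (hmv : ∀ p : ℕ, p.Prime → δ ≤ μ.real {ω | ξ p ω ≠ 0})
    (hq : ∀ p : ℕ, p.Prime → ∀ j : ℕ, 1 ≤ j → μ.real (ξ p ⁻¹' {j}) ≤ q p)
    (hξ : ∀ p : ℕ, p.Prime → ∀ᵐ ω ∂μ, ξ p ω ≤ m p) :
    ∀ᵐ ω ∂μ, ∀ c : ℝ, c < 1 / (δ + Real.log (1 / δ)) → ∀ᶠ X : ℕ in atTop,
      c * (Real.log X) ^ 2 ≤ GQ (QQ ξ ω) X := by
  obtain ⟨d, hd, hL⟩ := law_of hm δ hδ1 q hmv hq
  have hΛ := Lam_pos δ hδ hδ1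
  set Λ : ℝ := δ + Real.log (1 / δ) with hΛd
  have key : ∀ i : ℕ, ∀ᵐ ω ∂μ, ∀ᶠ X : ℕ in atTop,
      (1 / Λ * (1 - 1 / ((i : ℝ) + 2))) * (Real.log X) ^ 2 ≤ GQ (QQ ξ ω) X := by
    intro i
    have hi2 : (0 : ℝ) < (i : ℝ) + 2 := by positivity
    have hi0 : (0 : ℝ) ≤ i := Nat.cast_nonneg i
    have h1 : 0 < 1 - 1 / ((i : ℝ) + 2) := by
      rw [sub_pos, div_lt_one hi2]
      linarith
    have h2 : 0 < 1 / ((i : ℝ) + 2) := by positivity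
    have hc' : 0 < 1 / Λ * (1 - 1 / ((i : ℝ) + 2)) := by positivity
    set c : ℝ := 1 / Λ * (1 - 1 / ((i : ℝ) + 2) / 2) with hc
    have hcc : 1 / Λ * (1 - 1 / ((i : ℝ) + 2)) < c := by
      rw [hc]
      apply mul_lt_mul_of_pos_left _ (by positivity)
      linarith
    have hc0 : 0 < c := hc'.trans hcc
    have hcΛ : c * Λ < 1 := by
      rw [hc]
      have : 1 / Λ * (1 - 1 / ((i : ℝ) + 2) / 2) * Λ = 1 - 1 / ((i : ℝ) + 2) / 2 := by field_simp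
      rw [this]
      linarith
    obtain ⟨ε, hε0, hε1, hε2⟩ : ∃ ε : ℝ, 0 < ε ∧ ε ≤ 1 ∧ c * ((1 + ε) * (Λ + 2 * ε)) < 1 := by
      have c1 : ContinuousAt (fun e : ℝ => c * ((1 + e) * (Λ + 2 * e))) 0 := by fun_prop
      have d1 : ∀ᶠ e in 𝓝 (0 : ℝ), c * ((1 + e) * (Λ + 2 * e)) < 1 := by
        apply c1.eventually_lt_const
        simpa using hcΛ
      obtain ⟨r, hr, h3⟩ := Metric.eventually_nhds_iff.1 d1
      refine ⟨min (r / 2) 1, by positivity, min_le_right _ _, ?_⟩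
      apply h3
      rw [Real.dist_eq, sub_zero, abs_of_pos (by positivity)]
      exact lt_of_le_of_lt (min_le_left _ _) (by linarith)
    apply low_fin hξ hm0 c _ hc' hcc
    apply low δ hδ hδ1 c hc0 ε hε0 hε1 hε2 hm hind hL hd hξ _ hm0
    have h3 : 0 < δ * (ε / 2) / (4 * c) := by positivity
    filter_upwards [hq0.eventually_le_const h3] with n hn
    rw [le_div_iff₀ (by positivity)] at hn
    linarith
  have key' := ae_all_iff.2 key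
  filter_upwards [key'] with ω hω c hc
  -- choice of `i`
  rw [lt_div_iff₀ hΛ] at hc
  obtain ⟨i, hi⟩ := exists_nat_gt (1 / (1 - c * Λ))
  have h1m : 0 < 1 - c * Λ := by linarith
  rw [div_lt_iff₀ h1m] at hi
  have hi2 : (0 : ℝ) < (i : ℝ) + 2 := by positivity
  filter_upwards [hω i] with X hX
  refine le_trans ?_ hX
  apply mul_le_mul_of_nonneg_right _ (by positivity)
  have h3 : c * Λ ≤ 1 - 1 / ((i : ℝ) + 2) := by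
    have : 1 / ((i : ℝ) + 2) ≤ 1 - c * Λ := by
      rw [div_le_iff₀ hi2]
      nlinarith
    linarith
  rw [div_mul_eq_mul_div, one_mul, le_div_iff₀ hΛ]
  exact h3

/-- (2) displacements of the order `(log p)²` suffice -/
theorem part2.{u} (δ : ℝ) (hδ : 0 < δ) (hδ1 : δ ≤ 1) (K : ℝ) (hK : 0 < K) : ∃ c : ℝ, 0 < c ∧
    ∀ (q : ℕ → ℝ) (m : ℕ → ℕ), (∀ᶠ n : ℕ in atTop, q n * (Real.log n) ^ 2 ≤ K) →
    Tendsto (fun n : ℕ => (m n : ℝ) / n) atTop (𝓝 0) →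
    ∀ (Ω : Type u) [MeasurableSpace Ω] (μ : Measure Ω) [IsProbabilityMeasure μ] (ξ : ℕ → Ω → ℕ),
    (∀ p, Measurable (ξ p)) → iIndepFun ξ μ →
    (∀ p : ℕ, p.Prime → δ ≤ μ.real {ω | ξ p ω ≠ 0}) →
    (∀ p : ℕ, p.Prime → ∀ j : ℕ, 1 ≤ j → μ.real (ξ p ⁻¹' {j}) ≤ q p) →
    (∀ p : ℕ, p.Prime → ∀ᵐ ω ∂μ, ξ p ω ≤ m p) →
    ∀ᵐ ω ∂μ, ∀ᶠ X : ℕ in atTop, c * (Real.log X) ^ 2 ≤ GQ (QQ ξ ω) X := by
  have hΛ := Lam_pos δ hδ hδ1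
  set Λ : ℝ := δ + Real.log (1 / δ) with hΛd
  set c₁ : ℝ := min (δ / (8 * K)) (1 / (3 * (Λ + 2))) with hc₁
  have hc0 : 0 < c₁ := lt_min (by positivity) (by positivity)
  refine ⟨c₁ / 2, by positivity, ?_⟩
  intro q m hq0 hm0 Ω _ μ _ ξ hm hind hmv hq hξ
  obtain ⟨d, hd, hL⟩ := law_of hm δ hδ1 q hmv hq
  apply low_fin hξ hm0 c₁ _ (by positivity) (by linarith)
  apply low δ hδ hδ1 c₁ hc0 1 one_pos le_rfl _ hm hind hL hd hξ _ hm0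
  · have h1 : c₁ ≤ 1 / (3 * (Λ + 2)) := min_le_right _ _
    rw [le_div_iff₀ (by positivity)] at h1
    rw [← hΛd]
    nlinarith
  · have h1 : c₁ ≤ δ / (8 * K) := min_le_left _ _
    rw [le_div_iff₀ (by positivity)] at h1
    filter_upwards [hq0] with n hn
    have h2 : 4 * c₁ * (q n * (Real.log n) ^ 2) ≤ 4 * c₁ * K := by gcongr
    linarith

/-- (3) the upper bound with the constant `1 / δ` -/
theorem part3 (δ : ℝ) (hδ : 0 < δ) (hδ1 : δ ≤ 1) (B : ℕ) (hB : 1 ≤ B) {ξ : ℕ → Ω → ℕ}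
    (hm : ∀ p, Measurable (ξ p)) (hind : iIndepFun ξ μ)
    (hL : ∀ p : ℕ, p.Prime → ∀ j : ℕ, 1 ≤ j → j ≤ DL B p → δ / (DL B p : ℝ) ≤ μ.real (ξ p ⁻¹' {j})) :
    ∀ᵐ ω ∂μ, ∀ c : ℝ, 1 / δ < c → ∀ᶠ X : ℕ in atTop,
      (GQ (QQ ξ ω) X : ℝ) ≤ c * (Real.log X) ^ 2 := by
  have key : ∀ i : ℕ, ∀ᵐ ω ∂μ, ∀ᶠ X : ℕ in atTop,
      (GQ (QQ ξ ω) X : ℝ) ≤ (1 / δ * (1 + 1 / ((i : ℝ) + 1))) * (Real.log X) ^ 2 := by
    intro i
    have h2 : 0 < 1 / ((i : ℝ) + 1) := by positivity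
    have h1 : 1 < 1 / δ * (1 + 1 / ((i : ℝ) + 1)) * δ := by
      have : 1 / δ * (1 + 1 / ((i : ℝ) + 1)) * δ = 1 + 1 / ((i : ℝ) + 1) := by field_simp
      rw [this]
      linarith
    apply up_fin _ (by positivity)
    apply bc _ _ _ (up_pt B hB δ hδ hδ1 _ h1 hm hind hL)
    linarith
  have key' := ae_all_iff.2 key
  filter_upwards [key'] with ω hω c hc
  rw [div_lt_iff₀ hδ] at hc
  obtain ⟨i, hi⟩ := exists_nat_gt (1 / (c * δ - 1))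
  have h1m : 0 < c * δ - 1 := by linarith
  rw [div_lt_iff₀ h1m] at hi
  have hi2 : (0 : ℝ) < (i : ℝ) + 1 := by positivity
  filter_upwards [hω i] with X hX
  refine hX.trans ?_
  apply mul_le_mul_of_nonneg_right _ (by positivity)
  rw [div_mul_eq_mul_div, one_mul, div_le_iff₀ hδ]
  have : 1 / ((i : ℝ) + 1) ≤ c * δ - 1 := by
    rw [div_le_iff₀ hi2]
    nlinarith
  linarith

/-- (4) the order of the upper bound for power-saving displacements -/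
theorem part4.{u} : ∃ θ : ℝ, 0 < θ ∧ θ < 1 ∧ ∃ K : ℝ, 0 < K ∧ ∀ δ : ℝ, 0 < δ → δ ≤ 1 → ∀ A : ℝ, 1 ≤ A →
    ∀ D : ℕ → ℕ, Monotone D → (∀ n, 1 ≤ D n) → (∀ n, (D (2 * n) : ℝ) ≤ A * D n) →
    (∀ᶠ n : ℕ in atTop, (n : ℝ) ^ θ ≤ D n) → Tendsto (fun n : ℕ => (D n : ℝ) / n) atTop (𝓝 0) →
    ∀ (Ω : Type u) [MeasurableSpace Ω] (μ : Measure Ω) [IsProbabilityMeasure μ] (ξ : ℕ → Ω → ℕ),
    (∀ p, Measurable (ξ p)) → iIndepFun ξ μ →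
    (∀ p : ℕ, p.Prime → ∀ j : ℕ, 1 ≤ j → j ≤ D p → δ / (D p : ℝ) ≤ μ.real (ξ p ⁻¹' {j})) →
    ∀ᵐ ω ∂μ, ∀ᶠ X : ℕ in atTop, (GQ (QQ ξ ω) X : ℝ) ≤ K * A / δ * (Real.log X) ^ 2 := by
  obtain ⟨θ, h0, h1, K, hK, h⟩ := upH.{u}
  refine ⟨θ, h0, h1, K, hK, ?_⟩
  intro δ hδ hδ1 A hA D hmono hD1 hdbl hlow hD0 Ω _ μ _ ξ hm hind hL
  have hA0 : 0 < A := by linarith
  apply up_fin _ (by positivity)
  exact bc _ 2 (by norm_num) (h δ hδ hδ1 A hA D hmono hD1 hdbl hlow hD0 hm hind hL)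

end Pool.Agent.U52.PD
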