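import Mathlib
import Pool.Agent.U52.PD.Fin

set_option autoImplicit false

/-! # Uniform displacements of a part of the primes by up to `p ^ s` -/

open MeasureTheory ProbabilityTheory Filter Finset Topology

namespace Pool.Agent.U52.PD

open Pool.Agent.U839.Disp (tlog)

variable {Ω : Type*} [MeasurableSpace Ω] {μ : Measure Ω} [IsProbabilityMeasure μ]

/-- the range of the displacement -/
noncomputable def DP (s : ℝ) (p : ℕ) : ℕ := ⌊(p : ℝ) ^ s⌋₊ + 1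

theorem DP_ge (s : ℝ) (p : ℕ) : (p : ℝ) ^ s ≤ DP s p := by
  unfold DP
  push_cast
  exact (Nat.lt_floor_add_one _).le

theorem DP_le (s : ℝ) (p : ℕ) : (DP s p : ℝ) ≤ (p : ℝ) ^ s + 1 := by
  unfold DP
  push_cast
  have := Nat.floor_le (show 0 ≤ (p : ℝ) ^ s by positivity)
  linarith

theorem DP_mono (s : ℝ) (hs : 0 ≤ s) : Monotone (DP s) := by
  intro a b hab
  unfold DP
  have h : (a : ℝ) ^ s ≤ (b : ℝ) ^ s := Real.rpow_le_rpow (Nat.cast_nonneg a) (by exact_mod_cast hab) hs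
  have := Nat.floor_le_floor h
  omega

theorem DP_dbl (s : ℝ) (hs : 0 ≤ s) (hs1 : s ≤ 1) (n : ℕ) : (DP s (2 * n) : ℝ) ≤ 3 * DP s n := by
  have h1 := DP_le s (2 * n)
  have h2 := DP_ge s n
  have h3 : (1 : ℝ) ≤ DP s n := by
    unfold DP
    push_cast
    have : (0 : ℝ) ≤ ⌊(n : ℝ) ^ s⌋₊ := Nat.cast_nonneg _
    linarith
  have h4 : (((2 * n : ℕ) : ℝ)) ^ s ≤ 2 * (n : ℝ) ^ s := by
    push_cast
    rw [Real.mul_rpow (by norm_num) (Nat.cast_nonneg n)]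
    apply mul_le_mul_of_nonneg_right _ (by positivity)
    calc (2 : ℝ) ^ s ≤ 2 ^ (1 : ℝ) := Real.rpow_le_rpow_of_exponent_le (by norm_num) hs1
      _ = 2 := Real.rpow_one 2
  linarith

theorem DP_small (s : ℝ) (hs1 : s < 1) : Tendsto (fun n : ℕ => (DP s n : ℝ) / n) atTop (𝓝 0) := by
  have t1 : Tendsto (fun n : ℕ => (n : ℝ) ^ (s - 1) + 1 / (n : ℝ)) atTop (𝓝 (0 + 0)) := by
    apply Tendsto.add
    · have h := (tendsto_rpow_neg_atTop (show 0 < 1 - s by linarith)).comp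
        (tendsto_natCast_atTop_atTop (R := ℝ))
      refine h.congr (fun n => ?_)
      simp only [Function.comp_apply]
      congr 1
      ring
    · exact tendsto_one_div_atTop_nhds_zero_nat
  rw [add_zero] at t1
  refine squeeze_zero' (Eventually.of_forall fun n => by positivity) ?_ t1
  filter_upwards [eventually_ge_atTop 1] with n hn
  have hn0 : (0 : ℝ) < n := by exact_mod_cast hn
  rw [div_le_iff₀ hn0, add_mul, one_div, inv_mul_cancel₀ hn0.ne']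
  have h1 : (n : ℝ) ^ (s - 1) * n = (n : ℝ) ^ s := by
    nth_rewrite 2 [← Real.rpow_one (n : ℝ)]
    rw [← Real.rpow_add hn0]
    congr 1
    ring
  rw [h1]
  exact DP_le s n

theorem DP_log (s : ℝ) (hs : 0 < s) (δ : ℝ) (hδ : 0 < δ) :
    Tendsto (fun n : ℕ => δ / (DP s n : ℝ) * (Real.log n) ^ 2) atTop (𝓝 0) := by
  have h := ((isLittleO_log_rpow_rpow_atTop (2 : ℝ) hs).tendsto_div_nhds_zero).comp
    (tendsto_natCast_atTop_atTop (R := ℝ))
  have h2 := h.const_mul δ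
  rw [mul_zero] at h2
  refine squeeze_zero' (Eventually.of_forall fun n => by positivity) ?_ h2
  filter_upwards [eventually_ge_atTop 1] with n hn
  have hn0 : (0 : ℝ) < n := by exact_mod_cast hn
  simp only [Function.comp_apply]
  rw [Real.rpow_two]
  have h3 : δ / (DP s n : ℝ) ≤ δ / (n : ℝ) ^ s :=
    div_le_div_of_nonneg_left hδ.le (by positivity) (DP_ge s n)
  calc δ / (DP s n : ℝ) * (Real.log n) ^ 2 ≤ δ / (n : ℝ) ^ s * (Real.log n) ^ 2 := by gcongr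
    _ = _ := by ring

/-- the uniform law -/
def ULaw (μ : Measure Ω) (ξ : ℕ → Ω → ℕ) (δ : ℝ) (D : ℕ → ℕ) : Prop :=
  ∀ p : ℕ, p.Prime → ∀ j : ℕ, μ.real (ξ p ⁻¹' {j}) =
    if j = 0 then 1 - δ else if j ≤ D p then δ / (D p : ℝ) else 0

theorem xi_le {ξ : ℕ → Ω → ℕ} (hm : ∀ p, Measurable (ξ p)) {δ : ℝ} {D : ℕ → ℕ}
    (hL : ULaw μ ξ δ D) (hD : ∀ p, 1 ≤ D p) : ∀ p : ℕ, p.Prime → ∀ᵐ ω ∂μ, ξ p ω ≤ D p := by
  intro p hp
  have h1 : μ.real (⋃ j ∈ Icc 0 (D p), ξ p ⁻¹' {j}) = 1 := by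
    rw [measureReal_biUnion_finset]
    · have e0 : Icc 0 (D p) = insert 0 (Icc 1 (D p)) := by
        ext j
        simp only [Finset.mem_Icc, Finset.mem_insert]
        omega
      rw [e0, Finset.sum_insert (by simp), hL p hp, if_pos rfl]
      have h2 : ∀ j ∈ Icc 1 (D p), μ.real (ξ p ⁻¹' {j}) = δ / (D p : ℝ) := by
        intro j hj
        rw [Finset.mem_Icc] at hj
        rw [hL p hp, if_neg (by omega), if_pos hj.2]
      rw [Finset.sum_congr rfl h2, Finset.sum_const, Nat.card_Icc, nsmul_eq_mul,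
        Nat.add_sub_cancel]
      have : (D p : ℝ) ≠ 0 := by
        have := hD p
        positivity
      field_simp
      ring
    · intro i _ i' _ hne
      rw [Function.onFun, Set.disjoint_left]
      intro ω h2 h3
      rw [Set.mem_preimage, Set.mem_singleton_iff] at h2 h3
      exact hne (by omega)
    · intro i _
      exact hm p (measurableSet_singleton _)
  have hmeas : MeasurableSet (⋃ j ∈ Icc 0 (D p), ξ p ⁻¹' {j}) :=
    Finset.measurableSet_biUnion _ fun i _ => hm p (measurableSet_singleton _)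
  have h3 : μ.real (⋃ j ∈ Icc 0 (D p), ξ p ⁻¹' {j})ᶜ = 0 := by
    rw [probReal_compl_eq_one_sub hmeas, h1, sub_self]
  rw [measureReal_eq_zero_iff] at h3
  have h4 : ∀ᵐ ω ∂μ, ω ∉ (⋃ j ∈ Icc 0 (D p), ξ p ⁻¹' {j})ᶜ :=
    measure_eq_zero_iff_ae_notMem.1 h3
  filter_upwards [h4] with ω hω
  rw [Set.notMem_compl_iff] at hω
  simp only [Set.mem_iUnion, Finset.mem_Icc, Set.mem_preimage, Set.mem_singleton_iff,
    exists_prop] at hω
  obtain ⟨j, ⟨_, h6⟩, h7⟩ := hω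
  omega

theorem moved_of {ξ : ℕ → Ω → ℕ} (hm : ∀ p, Measurable (ξ p)) {δ : ℝ} {D : ℕ → ℕ}
    (hL : ULaw μ ξ δ D) : ∀ p : ℕ, p.Prime → δ ≤ μ.real {ω | ξ p ω ≠ 0} := by
  intro p hp
  have h1 : {ω | ξ p ω ≠ 0} = (ξ p ⁻¹' {0})ᶜ := by
    ext ω
    simp
  rw [h1, probReal_compl_eq_one_sub (hm p (measurableSet_singleton _)), hL p hp, if_pos rfl]
  linarith

theorem point_of {ξ : ℕ → Ω → ℕ} {δ : ℝ} (hδ : 0 < δ) {D : ℕ → ℕ}
    (hL : ULaw μ ξ δ D) : ∀ p : ℕ, p.Prime → ∀ j : ℕ, 1 ≤ j → μ.real (ξ p ⁻¹' {j}) ≤ δ / (D p : ℝ) := by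
  intro p hp j hj
  rw [hL p hp, if_neg (by omega)]
  split_ifs
  · exact le_rfl
  · positivity

theorem dense_of {ξ : ℕ → Ω → ℕ} {δ : ℝ} {D : ℕ → ℕ}
    (hL : ULaw μ ξ δ D) : ∀ p : ℕ, p.Prime → ∀ j : ℕ, 1 ≤ j → j ≤ D p →
      δ / (D p : ℝ) ≤ μ.real (ξ p ⁻¹' {j}) := by
  intro p hp j hj hj2
  rw [hL p hp, if_neg (by omega), if_pos hj2]

/-- the order of magnitude for displacements of a part of the primes by up to `p ^ s` -/
theorem order.{u} : ∃ θ : ℝ, 0 < θ ∧ θ < 1 ∧ ∀ s : ℝ, θ ≤ s → s < 1 → ∀ δ : ℝ, 0 < δ → δ ≤ 1 →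
    ∃ c C : ℝ, 0 < c ∧
    ∀ (Ω : Type u) [MeasurableSpace Ω] (μ : Measure Ω) [IsProbabilityMeasure μ] (ξ : ℕ → Ω → ℕ),
    (∀ p, Measurable (ξ p)) → iIndepFun ξ μ → ULaw μ ξ δ (DP s) →
    ∀ᵐ ω ∂μ, ∀ᶠ X : ℕ in atTop, c * (Real.log X) ^ 2 ≤ GQ (QQ ξ ω) X ∧
      (GQ (QQ ξ ω) X : ℝ) ≤ C * (Real.log X) ^ 2 := by
  obtain ⟨θ, h0, h1, K, hK, h⟩ := part4.{u}
  refine ⟨θ, h0, h1, ?_⟩
  intro s hs hs1 δ hδ hδ1
  have hs0 : 0 < s := lt_of_lt_of_le h0 hs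
  have hΛ := Lam_pos δ hδ hδ1
  refine ⟨1 / (δ + Real.log (1 / δ)) / 2, K * 3 / δ, by positivity, ?_⟩
  intro Ω _ μ _ ξ hm hind hL
  have hD1 : ∀ n, 1 ≤ DP s n := fun n => by unfold DP; omega
  have l1 := part1 δ hδ hδ1 (fun n => δ / (DP s n : ℝ)) (DP s) (DP_log s hs0 δ hδ) (DP_small s hs1)
    hm hind (moved_of hm hL) (point_of hδ hL) (xi_le hm hL hD1)
  have u1 := h δ hδ hδ1 3 (by norm_num) (DP s) (DP_mono s hs0.le) hD1 (DP_dbl s hs0.le hs1.le) (by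
    filter_upwards [eventually_ge_atTop 1] with n hn
    refine le_trans ?_ (DP_ge s n)
    exact Real.rpow_le_rpow_of_exponent_le (by exact_mod_cast hn) hs) (DP_small s hs1) Ω μ ξ hm hind
    (dense_of hL)
  filter_upwards [l1, u1] with ω g1 g2
  have h3 : 0 < 1 / (δ + Real.log (1 / δ)) := by positivity
  exact (g1 _ (by linarith)).and g2

end Pool.Agent.U52.PD
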