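import Mathlib
import Pool.Agent.U52.PD.Cor
import Pool.Agent.U52.PD.Cnt
import Pool.Agent.U52.PD.CntA
import Pool.Agent.U52.PD.CntB

set_option autoImplicit false

/-! # The frequency of the empty windows -/

open MeasureTheory ProbabilityTheory Filter Finset Topology

namespace Pool.Agent.U52.PD

open Pool.Agent.U839.Disp (EE Wd EE_meas tlog EB EB_large EB_le DL DL_ge DL_le)

variable {Ω : Type*} [MeasurableSpace Ω] {μ : Measure Ω} [IsProbabilityMeasure μ]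

/-- the distance from `n` to the next element of `Q` -/
noncomputable def gp (Q : Set ℕ) (n : ℕ) : ℕ := sInf {q | q ∈ Q ∧ n < q} - n

open Classical in
/-- the number of the `n ≤ X` with `gp Q n > c (log n) ^ 2` -/
noncomputable def FQ (Q : Set ℕ) (c : ℝ) (X : ℕ) : ℕ :=
  ((Icc 1 X).filter (fun n : ℕ => c * (Real.log n) ^ 2 < (gp Q n : ℝ))).card

omit [MeasurableSpace Ω] in
theorem gp_iff (ξ : ℕ → Ω → ℕ) (ω : Ω) (c : ℝ) (hc : 0 ≤ c) (n : ℕ) :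
    c * (Real.log n) ^ 2 < (gp (QQ ξ ω) n : ℝ) ↔ ω ∈ EE ξ (Ioc n (n + Wd c n)) := by
  have hne : {q | q ∈ QQ ξ ω ∧ n < q}.Nonempty := by
    obtain ⟨p, hp1, hp⟩ := Nat.exists_infinite_primes (n + 1)
    exact ⟨p + ξ p ω, ⟨p, hp, rfl⟩, by omega⟩
  have hmem := Nat.sInf_mem hne
  have hle : ∀ p : ℕ, p.Prime → n < p + ξ p ω → sInf {q | q ∈ QQ ξ ω ∧ n < q} ≤ p + ξ p ω :=
    fun p hp h => Nat.sInf_le ⟨⟨p, hp, rfl⟩, h⟩
  have h0 : 0 ≤ c * (Real.log n) ^ 2 := by positivity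
  unfold gp
  generalize sInf {q | q ∈ QQ ξ ω ∧ n < q} = s at hmem hle
  rw [← Nat.floor_lt h0]
  have e : ⌊c * (Real.log n) ^ 2⌋₊ = Wd c n := rfl
  rw [e]
  unfold EE
  rw [Set.mem_ofPred_eq]
  obtain ⟨⟨p, hp, hps⟩, hns⟩ := hmem
  constructor
  · intro h p' hp' hpI
    rw [Finset.mem_Ioc] at hpI
    have := hle p' hp' hpI.1
    omega
  · intro h
    by_contra hcon
    push Not at hcon
    apply h p hp
    rw [Finset.mem_Ioc, hps]
    omega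

theorem FQ_anti (Q : Set ℕ) {c c' : ℝ} (h : c ≤ c') (X : ℕ) : FQ Q c' X ≤ FQ Q c X := by
  classical
  unfold FQ
  apply Finset.card_le_card
  intro n hn
  rw [Finset.mem_filter] at hn ⊢
  refine ⟨hn.1, lt_of_le_of_lt ?_ hn.2⟩
  gcongr

theorem FQ_mono (Q : Set ℕ) (c : ℝ) {X Y : ℕ} (h : X ≤ Y) : FQ Q c X ≤ FQ Q c Y := by
  classical
  unfold FQ
  apply Finset.card_le_card
  intro n hn
  rw [Finset.mem_filter, Finset.mem_Icc] at hn ⊢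
  exact ⟨⟨hn.1.1, hn.1.2.trans h⟩, hn.2⟩

theorem low_key (δ : ℝ) (hδ : 0 < δ) (hδ1 : δ ≤ 1) (q : ℕ → ℝ) (m : ℕ → ℕ)
    (hq0 : Tendsto (fun n : ℕ => q n * (Real.log n) ^ 2) atTop (𝓝 0))
    (hm0 : Tendsto (fun n : ℕ => (m n : ℝ) / n) atTop (𝓝 0)) {ξ : ℕ → Ω → ℕ}
    (hm : ∀ p, Measurable (ξ p)) (hind : iIndepFun ξ μ)
    (hmv : ∀ p : ℕ, p.Prime → δ ≤ μ.real {ω | ξ p ω ≠ 0})
    (hq : ∀ p : ℕ, p.Prime → ∀ j : ℕ, 1 ≤ j → μ.real (ξ p ⁻¹' {j}) ≤ q p)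
    (hξ : ∀ p : ℕ, p.Prime → ∀ᵐ ω ∂μ, ξ p ω ≤ m p) (c s : ℝ) (hc0 : 0 < c)
    (hcΛ : c * (δ + Real.log (1 / δ)) < 1) (hs : s < 1 - c * (δ + Real.log (1 / δ))) :
    ∀ᵐ ω ∂μ, ∀ᶠ X : ℕ in atTop, (X : ℝ) ^ s ≤ FQ (QQ ξ ω) c X := by
  classical
  obtain ⟨d, hd, hL⟩ := law_of hm δ hδ1 q hmv hq
  have hΛ := Lam_pos δ hδ hδ1
  set Λ : ℝ := δ + Real.log (1 / δ) with hΛd
  set u : ℝ := 1 - c * Λ with hu
  have hu0 : 0 < u := by rw [hu]; linarith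
  have hu1 : u < 1 := by
    have : 0 < c * Λ := by positivity
    rw [hu]; linarith
  set s' : ℝ := max s (u / 2) with hs'
  have hs'u : s' < u := max_lt hs (by linarith)
  have hs'0 : 0 < s' := lt_of_lt_of_le (by linarith) (le_max_right _ _)
  set γ : ℝ := (s' + u) / 2 with hγd
  have hγ0 : 0 < γ := by rw [hγd]; linarith
  have hγs : s' < γ := by rw [hγd]; linarith
  have hγu : γ < u := by rw [hγd]; linarith
  set θ : ℝ := 1 - (γ + u) / 2 with hθd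
  have hθ1 : γ < 1 - θ := by rw [hθd]; linarith
  have hθ2 : c * Λ < θ := by
    have : c * Λ = 1 - u := by rw [hu]; ring
    rw [this, hθd]; linarith
  obtain ⟨ε, hε0, hε1, hε2⟩ : ∃ ε : ℝ, 0 < ε ∧ ε ≤ 1 ∧ c * ((1 + ε) * (Λ + 2 * ε)) < θ := by
    have c1 : ContinuousAt (fun e : ℝ => c * ((1 + e) * (Λ + 2 * e))) 0 := by fun_prop
    have d1 : ∀ᶠ e in 𝓝 (0 : ℝ), c * ((1 + e) * (Λ + 2 * e)) < θ := by
      apply c1.eventually_lt_const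
      simpa using hθ2
    obtain ⟨r, hr, h3⟩ := Metric.eventually_nhds_iff.1 d1
    refine ⟨min (r / 2) 1, by positivity, min_le_right _ _, ?_⟩
    apply h3
    rw [Real.dist_eq, sub_zero, abs_of_pos (by positivity)]
    exact lt_of_le_of_lt (min_le_left _ _) (by linarith)
  have h1 := low_sum δ hδ hδ1 c hc0 ε hε0 hε1 θ γ hε2 hγ0 hθ1 hm hind hL hd hξ (by
    have h3 : 0 < δ * (ε / 2) / (4 * c) := by positivity
    filter_upwards [hq0.eventually_le_const h3] with n hn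
    rw [le_div_iff₀ (by positivity)] at hn
    linarith) hm0
  have h2 := ae_many hm hind γ hγ0
    (fun j i I => 2 ^ j < i ∧ i ≤ 2 ^ (j + 1) ∧ I = Ioc i (i + Wd c i)) h1
  filter_upwards [h2] with ω hω
  obtain ⟨j₀, hj₀⟩ := eventually_atTop.1 hω
  have t1 : ∀ᶠ X : ℕ in atTop, 8 ≤ (X : ℝ) ^ (γ - s') :=
    ((tendsto_rpow_atTop (show 0 < γ - s' by linarith)).comp
      tendsto_natCast_atTop_atTop).eventually_ge_atTop 8
  filter_upwards [t1, eventually_ge_atTop (2 ^ (j₀ + 1)), eventually_ge_atTop 2] with X g1 g2 g3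
  have hlog : j₀ + 1 ≤ Nat.log 2 X := by
    by_contra hcon
    push Not at hcon
    have k1 : X < 2 ^ (Nat.log 2 X + 1) := Nat.lt_pow_succ_log_self (by norm_num) X
    have k2 : 2 ^ (Nat.log 2 X + 1) ≤ 2 ^ (j₀ + 1) := Nat.pow_le_pow_right (by norm_num) (by omega)
    omega
  obtain ⟨j, hj⟩ : ∃ j, Nat.log 2 X = j + 1 := ⟨Nat.log 2 X - 1, by omega⟩
  have k1 : X < 2 ^ (j + 2) := by
    have := Nat.lt_pow_succ_log_self (b := 2) (by norm_num) X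
    rwa [hj] at this
  have k2 : 2 ^ (j + 1) ≤ X := by
    have := Nat.pow_log_le_self 2 (x := X) (by omega)
    rwa [hj] at this
  obtain ⟨S, I, hS1, hS2, hS3⟩ := hj₀ j (by omega)
  have hcard : S.card ≤ FQ (QQ ξ ω) c X := by
    unfold FQ
    apply Finset.card_le_card
    intro i hi
    obtain ⟨l1, l2, l3⟩ := hS1 i hi
    rw [Finset.mem_filter, Finset.mem_Icc]
    refine ⟨⟨by omega, l2.trans k2⟩, ?_⟩
    rw [gp_iff ξ ω c hc0.le i, ← l3]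
    exact hS2 i hi
  have hcardR : (S.card : ℝ) ≤ FQ (QQ ξ ω) c X := by exact_mod_cast hcard
  have hX1 : (1 : ℝ) ≤ X := by exact_mod_cast (by omega : 1 ≤ X)
  have hX0 : (0 : ℝ) < X := by linarith
  have k3 : (X : ℝ) / 4 ≤ 2 ^ j := by
    have : (X : ℝ) < 2 ^ (j + 2) := by exact_mod_cast k1
    rw [pow_add] at this
    linarith
  have k4 : ((X : ℝ) / 4) ^ γ ≤ (2 : ℝ) ^ (γ * j) := by
    calc ((X : ℝ) / 4) ^ γ ≤ ((2 : ℝ) ^ j) ^ γ := Real.rpow_le_rpow (by positivity) k3 hγ0.le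
      _ = _ := by
          rw [← Real.rpow_natCast, ← Real.rpow_mul (by norm_num), mul_comm]
  have k5 : (X : ℝ) ^ γ / 4 ≤ ((X : ℝ) / 4) ^ γ := by
    rw [Real.div_rpow hX0.le (by norm_num)]
    apply div_le_div_of_nonneg_left (by positivity) (by positivity)
    calc (4 : ℝ) ^ γ ≤ 4 ^ (1 : ℝ) := Real.rpow_le_rpow_of_exponent_le (by norm_num) (by linarith)
      _ = 4 := Real.rpow_one 4
  have k6 : (X : ℝ) ^ s' * 8 ≤ (X : ℝ) ^ γ := by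
    calc (X : ℝ) ^ s' * 8 ≤ (X : ℝ) ^ s' * (X : ℝ) ^ (γ - s') := by gcongr
      _ = (X : ℝ) ^ γ := by
          rw [← Real.rpow_add hX0]
          congr 1
          ring
  have k7 : (X : ℝ) ^ s ≤ (X : ℝ) ^ s' := Real.rpow_le_rpow_of_exponent_le hX1 (le_max_left _ _)
  linarith

theorem up_key (δ : ℝ) (hδ : 0 < δ) (hδ1 : δ ≤ 1) (B : ℕ) (hB : 1 ≤ B) {ξ : ℕ → Ω → ℕ}
    (hm : ∀ p, Measurable (ξ p)) (hind : iIndepFun ξ μ)
    (hL : ∀ p : ℕ, p.Prime → ∀ j : ℕ, 1 ≤ j → j ≤ DL B p → δ / (DL B p : ℝ) ≤ μ.real (ξ p ⁻¹' {j}))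
    (c s : ℝ) (hc0 : 0 < c) (hcδ : c * δ ≤ 1) (hs : 1 - c * δ < s) :
    ∀ᵐ ω ∂μ, ∀ᶠ X : ℕ in atTop, (FQ (QQ ξ ω) c X : ℝ) ≤ (X : ℝ) ^ s := by
  classical
  set η : ℝ := (s - (1 - c * δ)) / 6 with hη
  have hη0 : 0 < η := by rw [hη]; linarith
  have h1 := up_pt_gen B hB δ hδ hδ1 c hc0 η hη0 hm hind hL
  have h2 := cnt_le (μ := μ) (E := fun t => EE ξ (Ioc t (t + Wd c t))) (fun t => EE_meas hm _)
    (c * δ - 2 * η) (1 - c * δ + 3 * η) η hη0 (by linarith) (by linarith) h1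
  filter_upwards [h2] with ω ⟨K, hK⟩
  have t1 : ∀ᶠ X : ℕ in atTop, K ≤ (X : ℝ) ^ (3 * η) :=
    ((tendsto_rpow_atTop (show 0 < 3 * η by linarith)).comp
      tendsto_natCast_atTop_atTop).eventually_ge_atTop K
  filter_upwards [t1, eventually_ge_atTop 1] with X g1 g2
  have hX0 : (0 : ℝ) < X := by exact_mod_cast g2
  have e : FQ (QQ ξ ω) c X = ((Icc 1 X).filter (fun t => ω ∈ EE ξ (Ioc t (t + Wd c t)))).card := by
    unfold FQ
    congr 1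
    apply Finset.filter_congr
    intro n _
    exact gp_iff ξ ω c hc0.le n
  rw [e]
  refine (hK X).trans ?_
  calc K * (X : ℝ) ^ (1 - c * δ + 3 * η) ≤ (X : ℝ) ^ (3 * η) * (X : ℝ) ^ (1 - c * δ + 3 * η) := by gcongr
    _ = (X : ℝ) ^ s := by
        rw [← Real.rpow_add hX0]
        congr 1
        rw [hη]
        ring

theorem low_all (δ : ℝ) (hδ : 0 < δ) (hδ1 : δ ≤ 1) (q : ℕ → ℝ) (m : ℕ → ℕ)
    (hq0 : Tendsto (fun n : ℕ => q n * (Real.log n) ^ 2) atTop (𝓝 0))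
    (hm0 : Tendsto (fun n : ℕ => (m n : ℝ) / n) atTop (𝓝 0)) {ξ : ℕ → Ω → ℕ}
    (hm : ∀ p, Measurable (ξ p)) (hind : iIndepFun ξ μ)
    (hmv : ∀ p : ℕ, p.Prime → δ ≤ μ.real {ω | ξ p ω ≠ 0})
    (hq : ∀ p : ℕ, p.Prime → ∀ j : ℕ, 1 ≤ j → μ.real (ξ p ⁻¹' {j}) ≤ q p)
    (hξ : ∀ p : ℕ, p.Prime → ∀ᵐ ω ∂μ, ξ p ω ≤ m p) :
    ∀ᵐ ω ∂μ, ∀ c : ℝ, 0 < c → c * (δ + Real.log (1 / δ)) < 1 →
      ∀ s : ℝ, s < 1 - c * (δ + Real.log (1 / δ)) →
      ∀ᶠ X : ℕ in atTop, (X : ℝ) ^ s ≤ FQ (QQ ξ ω) c X := by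
  have hΛ := Lam_pos δ hδ hδ1
  set Λ : ℝ := δ + Real.log (1 / δ) with hΛd
  have key : ∀ a b : ℚ, ∀ᵐ ω ∂μ, 0 < (a : ℝ) → (a : ℝ) * Λ < 1 → (b : ℝ) < 1 - a * Λ →
      ∀ᶠ X : ℕ in atTop, (X : ℝ) ^ (b : ℝ) ≤ FQ (QQ ξ ω) a X := by
    intro a b
    by_cases h : 0 < (a : ℝ) ∧ (a : ℝ) * Λ < 1 ∧ (b : ℝ) < 1 - a * Λ
    · filter_upwards [low_key δ hδ hδ1 q m hq0 hm0 hm hind hmv hq hξ a b h.1 h.2.1 h.2.2] with ω hω
      intro _ _ _
      exact hω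
    · filter_upwards with ω h1 h2 h3
      exact absurd ⟨h1, h2, h3⟩ h
  have key2 := ae_all_iff.2 fun a => ae_all_iff.2 (key a)
  filter_upwards [key2] with ω hω c hc0 hc s hs
  have h1 : c < min (1 / Λ) ((1 - s) / Λ) := by
    rw [lt_min_iff, lt_div_iff₀ hΛ, lt_div_iff₀ hΛ]
    exact ⟨hc, by linarith⟩
  obtain ⟨a, ha1, ha2⟩ := exists_rat_btwn h1
  rw [lt_min_iff, lt_div_iff₀ hΛ, lt_div_iff₀ hΛ] at ha2
  obtain ⟨b, hb1, hb2⟩ := exists_rat_btwn (show s < 1 - a * Λ by linarith [ha2.2])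
  filter_upwards [hω a b (hc0.trans ha1) ha2.1 hb2, eventually_ge_atTop 1] with X hX hX1
  have h2 : (FQ (QQ ξ ω) a X : ℝ) ≤ FQ (QQ ξ ω) c X := by exact_mod_cast FQ_anti _ ha1.le X
  have h3 : (X : ℝ) ^ s ≤ (X : ℝ) ^ (b : ℝ) :=
    Real.rpow_le_rpow_of_exponent_le (by exact_mod_cast hX1) hb1.le
  linarith

theorem up_all (δ : ℝ) (hδ : 0 < δ) (hδ1 : δ ≤ 1) (B : ℕ) (hB : 1 ≤ B) {ξ : ℕ → Ω → ℕ}
    (hm : ∀ p, Measurable (ξ p)) (hind : iIndepFun ξ μ)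
    (hL : ∀ p : ℕ, p.Prime → ∀ j : ℕ, 1 ≤ j → j ≤ DL B p → δ / (DL B p : ℝ) ≤ μ.real (ξ p ⁻¹' {j})) :
    ∀ᵐ ω ∂μ, ∀ c : ℝ, 0 < c → c * δ ≤ 1 → ∀ s : ℝ, 1 - c * δ < s →
      ∀ᶠ X : ℕ in atTop, (FQ (QQ ξ ω) c X : ℝ) ≤ (X : ℝ) ^ s := by
  have key : ∀ a b : ℚ, ∀ᵐ ω ∂μ, 0 < (a : ℝ) → (a : ℝ) * δ ≤ 1 → 1 - (a : ℝ) * δ < b →
      ∀ᶠ X : ℕ in atTop, (FQ (QQ ξ ω) a X : ℝ) ≤ (X : ℝ) ^ (b : ℝ) := by
    intro a b
    by_cases h : 0 < (a : ℝ) ∧ (a : ℝ) * δ ≤ 1 ∧ 1 - (a : ℝ) * δ < b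
    · filter_upwards [up_key δ hδ hδ1 B hB hm hind hL a b h.1 h.2.1 h.2.2] with ω hω
      intro _ _ _
      exact hω
    · filter_upwards with ω h1 h2 h3
      exact absurd ⟨h1, h2, h3⟩ h
  have key2 := ae_all_iff.2 fun a => ae_all_iff.2 (key a)
  filter_upwards [key2] with ω hω c hc0 hc s hs
  have h1 : max 0 ((1 - s) / δ) < c := by
    rw [max_lt_iff, div_lt_iff₀ hδ]
    exact ⟨hc0, by linarith⟩
  obtain ⟨a, ha1, ha2⟩ := exists_rat_btwn h1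
  rw [max_lt_iff, div_lt_iff₀ hδ] at ha1
  have ha3 : (a : ℝ) * δ ≤ 1 := by
    have : (a : ℝ) * δ ≤ c * δ := by gcongr
    linarith
  obtain ⟨b, hb1, hb2⟩ := exists_rat_btwn (show 1 - a * δ < s by linarith [ha1.2])
  filter_upwards [hω a b ha1.1 ha3 hb1, eventually_ge_atTop 1] with X hX hX1
  have h2 : (FQ (QQ ξ ω) c X : ℝ) ≤ FQ (QQ ξ ω) a X := by exact_mod_cast FQ_anti _ ha2.le X
  have h3 : (X : ℝ) ^ (b : ℝ) ≤ (X : ℝ) ^ s :=
    Real.rpow_le_rpow_of_exponent_le (by exact_mod_cast hX1) hb2.le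
  linarith

theorem DL_small (B : ℕ) (hB : 1 ≤ B) : Tendsto (fun n : ℕ => (DL B n : ℝ) / n) atTop (𝓝 0) := by
  have t1 : Tendsto (fun n : ℕ => 1 / Real.log (n : ℝ) + 1 / (n : ℝ)) atTop (𝓝 (0 + 0)) := by
    apply Tendsto.add
    · simp_rw [one_div]
      exact tlog.inv_tendsto_atTop
    · exact tendsto_one_div_atTop_nhds_zero_nat
  rw [add_zero] at t1
  refine squeeze_zero' (Eventually.of_forall fun n => by positivity) ?_ t1
  filter_upwards [eventually_ge_atTop 1, tlog.eventually_ge_atTop 1] with n hn hl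
  have hn0 : (0 : ℝ) < n := by exact_mod_cast hn
  rw [div_le_iff₀ hn0]
  have h1 := DL_le B n
  have h2 := EB_le B hB hl
  have h3 : (1 / Real.log (n : ℝ) + 1 / (n : ℝ)) * n = n / Real.log n + 1 := by
    field_simp
  rw [h3]
  linarith

theorem DL_log (B : ℕ) (δ : ℝ) (hδ : 0 < δ) :
    Tendsto (fun n : ℕ => δ / (DL B n : ℝ) * (Real.log n) ^ 2) atTop (𝓝 0) := by
  have t1 : Tendsto (fun n : ℕ => δ / Real.log (n : ℝ)) atTop (𝓝 0) := tlog.const_div_atTop δ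
  refine squeeze_zero' (Eventually.of_forall fun n => by positivity) ?_ t1
  filter_upwards [EB_large B 1 3, tlog.eventually_ge_atTop 1] with n hn hl
  have h1 := DL_ge B n
  have hl0 : 0 < Real.log (n : ℝ) := by linarith
  have h2 : (Real.log (n : ℝ)) ^ 3 ≤ DL B n := by linarith
  have h3 : (0 : ℝ) < (Real.log (n : ℝ)) ^ 3 := by positivity
  calc δ / (DL B n : ℝ) * (Real.log n) ^ 2 ≤ δ / (Real.log (n : ℝ)) ^ 3 * (Real.log n) ^ 2 := by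
        gcongr
    _ = δ / Real.log (n : ℝ) := by field_simp

/-- the exact exponent for uniform displacements of all primes -/
theorem lim_all (B : ℕ) (hB : 1 ≤ B) {ξ : ℕ → Ω → ℕ}
    (hm : ∀ p, Measurable (ξ p)) (hind : iIndepFun ξ μ) (hL : ULaw μ ξ 1 (DL B)) :
    ∀ᵐ ω ∂μ, ∀ c : ℝ, 0 < c → c < 1 →
      Tendsto (fun X : ℕ => Real.log (FQ (QQ ξ ω) c X) / Real.log X) atTop (𝓝 (1 - c)) := by
  have hD1 : ∀ n, 1 ≤ DL B n := fun n => by unfold DL; omega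
  have l1 := low_all 1 one_pos le_rfl (fun n => 1 / (DL B n : ℝ)) (DL B) (DL_log B 1 one_pos)
    (DL_small B hB) hm hind (moved_of hm hL) (point_of one_pos hL) (xi_le hm hL hD1)
  have u1 := up_all 1 one_pos le_rfl B hB hm hind (dense_of hL)
  filter_upwards [l1, u1] with ω g1 g2 c hc0 hc1
  have hΛ : (1 : ℝ) + Real.log (1 / 1) = 1 := by simp
  rw [tendsto_order]
  constructor
  · intro a ha
    obtain ⟨b, hb1, hb2⟩ := exists_between ha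
    have h1 := g1 c hc0 (by rw [hΛ]; linarith) b (by rw [hΛ]; linarith)
    filter_upwards [h1, eventually_ge_atTop 2, tlog.eventually_ge_atTop 1] with X hX hX1 hl
    have hX0 : (0 : ℝ) < X := by exact_mod_cast (by omega : 0 < X)
    rw [lt_div_iff₀ (by linarith)]
    have h2 := Real.log_le_log (by positivity) hX
    rw [Real.log_rpow hX0] at h2
    have h3 : a * Real.log X < b * Real.log X := by
      apply mul_lt_mul_of_pos_right hb1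
      linarith
    linarith
  · intro a ha
    obtain ⟨b, hb1, hb2⟩ := exists_between ha
    have h1 := g2 c hc0 (by linarith) b (by linarith)
    have h0 := g1 c hc0 (by rw [hΛ]; linarith) 0 (by rw [hΛ]; linarith)
    filter_upwards [h1, h0, eventually_ge_atTop 2, tlog.eventually_ge_atTop 1] with X hX hX' hX1 hl
    have hX0 : (0 : ℝ) < X := by exact_mod_cast (by omega : 0 < X)
    rw [Real.rpow_zero] at hX'
    rw [div_lt_iff₀ (by linarith)]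
    have h2 := Real.log_le_log (by linarith) hX
    rw [Real.log_rpow hX0] at h2
    have h3 : b * Real.log X < a * Real.log X := by
      apply mul_lt_mul_of_pos_right hb2
      linarith
    linarith

end Pool.Agent.U52.PD
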