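import Mathlib
import Pool.Agent.U839.Disp.Large2
import Pool.Agent.U52.PD.CntB

set_option autoImplicit false

/-! # Windows of length `l log t`: the probability that they are empty -/

open MeasureTheory ProbabilityTheory Filter Finset Topology

namespace Pool.Agent.U52.PD

open Pool.Agent.U839.Disp (HH EE tlog EB EB_large EB_near EB_le pnt_short DL DL_ge DL_le pi2)

variable {Ω : Type*} [MeasurableSpace Ω] {μ : Measure Ω} [IsProbabilityMeasure μ]

/-- the length of the window -/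
noncomputable def Wl (l : ℝ) (t : ℕ) : ℕ := ⌊l * Real.log t⌋₊

theorem card_wl (l : ℝ) (t : ℕ) : (Ioc t (t + Wl l t)).card = Wl l t := by
  rw [Nat.card_Ioc, Nat.add_sub_cancel_left]

set_option maxHeartbeats 4000000 in
theorem low_l (B : ℕ) (hB : 1 ≤ B) (c : ℝ) (hc0 : 0 < c) (δ : ℝ) (hδ0 : 0 < δ) {ξ : ℕ → Ω → ℕ}
    (hm : ∀ p, Measurable (ξ p)) (hind : iIndepFun ξ μ) (hL : Pool.Agent.U839.Disp.Law μ ξ (DL B)) :
    ∀ᶠ t : ℕ in atTop, Real.exp (-(c + δ)) ≤ μ.real (EE ξ (Ioc t (t + Wl c t))) := by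
  set ε : ℝ := min (1 / 20) (δ / (9 * c)) with hεd
  have hε : 0 < ε := lt_min (by norm_num) (by positivity)
  have hε20 : ε ≤ 1 / 20 := min_le_left _ _
  have hε2 : c * (9 * ε) ≤ δ := by
    have h1 : ε ≤ δ / (9 * c) := min_le_right _ _
    calc c * (9 * ε) ≤ c * (9 * (δ / (9 * c))) := by gcongr
      _ = δ := by field_simp
  filter_upwards [pnt_short B hB ε hε, EB_near B ε hε (by linarith), EB_large B ((c + 1) / ε) 3,
    EB_large B (4 / ε) 0, tlog.eventually_ge_atTop 8, EB_large B (4 * c / ε) 2,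
    eventually_ge_atTop (max 4 (2 + DL B 2))] with t g1 g2 g3 g4 g5 g6 g7
  set L : ℝ := Real.log t with hLd
  have hL0 : 0 < L := by linarith
  have ht4 : 4 ≤ t := (le_max_left _ _).trans g7
  have ht2 : 2 + DL B 2 ≤ t := (le_max_right _ _).trans g7
  have ht0 : (0 : ℝ) < t := by exact_mod_cast (by omega : 0 < t)
  set E : ℝ := EB B t with hE
  rw [pow_zero, mul_one] at g4
  have hE1 : 4 ≤ ε * E := by
    rw [div_le_iff₀ hε] at g4
    linarith
  have hE0 : 0 < E := by
    by_contra hcon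
    push Not at hcon
    have := mul_nonpos_of_nonneg_of_nonpos hε.le hcon
    linarith
  set W : ℕ := Wl c t with hW
  have hWl : (W : ℝ) ≤ c * L := Nat.floor_le (by positivity)
  have hWle : (W : ℝ) ≤ c * L ^ 2 := by
    refine hWl.trans ?_
    have : L ≤ L ^ 2 := by nlinarith
    gcongr
  have hWE : 4 * (W : ℝ) ≤ ε * E := by
    have : 4 * c / ε * L ^ 2 * ε ≤ E * ε := by gcongr
    calc 4 * (W : ℝ) ≤ 4 * (c * L ^ 2) := by linarith
      _ = 4 * c / ε * L ^ 2 * ε := by field_simp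
      _ ≤ _ := this
      _ = _ := by ring
  have hWE3 : (W : ℝ) * L + L ≤ ε * E := by
    have h0 : (c + 1) / ε * L ^ 3 * ε ≤ E * ε := by gcongr
    have h1 : L ≤ L ^ 3 := by
      calc L = L * 1 := by ring
        _ ≤ L * L ^ 2 := by
            gcongr
            nlinarith
        _ = L ^ 3 := by ring
    calc (W : ℝ) * L + L ≤ c * L ^ 2 * L + L ^ 3 := by
          have := mul_le_mul_of_nonneg_right hWle hL0.le
          linarith
      _ = (c + 1) / ε * L ^ 3 * ε := by field_simp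
      _ ≤ _ := h0
      _ = _ := by ring
  set y : ℕ := ⌊(1 + 2 * ε) * E⌋₊ + 1 with hy
  have hyle : (y : ℝ) ≤ (1 + 2 * ε) * E + 1 := by
    rw [hy]
    push_cast
    have := Nat.floor_le (show 0 ≤ (1 + 2 * ε) * E by positivity)
    linarith
  have hyge : (1 + 2 * ε) * E ≤ y := by
    rw [hy]
    push_cast
    exact (Nat.lt_floor_add_one _).le
  have hy2E : (y : ℝ) ≤ 2 * E := by nlinarith
  obtain ⟨hyt, hpnt⟩ := g1 y hy2E
  have hEt : E ≤ t / L := EB_le B hB (by linarith)
  set T : Finset ℕ := (Ioc (t - y) (t + W)).filter Nat.Prime with hT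
  have hTmem : ∀ p ∈ T, t < p + y ∧ p ≤ t + W ∧ p.Prime := by
    intro p hp
    rw [hT, Finset.mem_filter, Finset.mem_Ioc] at hp
    exact ⟨by omega, hp.1.2, hp.2⟩
  have hDlo : ∀ p ∈ T, (1 - ε) * E ≤ DL B p := by
    intro p hp
    obtain ⟨h1, h2, h3⟩ := hTmem p hp
    have h1' : (t : ℝ) < p + y := by exact_mod_cast h1
    rcases (g2 p).1 (by
      have h4 : (t : ℝ) * (1 - 3 / L) = t - 3 * (t / L) := by ring
      rw [h4]
      have : 0 < t / L := by positivity
      linarith) with h5 | h5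
    · exact h5.trans (DL_ge B p)
    · exfalso
      have h6 : (W : ℝ) < t := by
        have h7 : t / L ≤ t / 8 := by gcongr
        nlinarith
      have h8 : W < t := by exact_mod_cast h6
      omega
  have hE1ε : 0 < (1 - ε) * E := mul_pos (by linarith) hE0
  set b : ℝ := (W : ℝ) / ((1 - ε) * E) with hb
  have hb0 : 0 ≤ b := by positivity
  have hb2 : 2 * b ≤ ε := by
    rw [hb, mul_div_assoc', div_le_iff₀ hE1ε]
    nlinarith
  have hlow := Pool.Agent.U839.Disp.EE_lower hm hind (Ioc t (t + W)) T b hb0 (by linarith) (by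
    intro p hp hpT
    apply Pool.Agent.U839.Disp.HH_zero hm hL _ hp
    intro i hi
    rw [Finset.mem_Ioc] at hi
    rw [hT, Finset.mem_filter, Finset.mem_Ioc, not_and_or] at hpT
    have hpT' : ¬(t - y < p ∧ p ≤ t + W) := by
      rcases hpT with h | h
      · exact h
      · exact absurd hp h
    by_cases hpW : t + W < p
    · left; omega
    · right
      have hpy : p ≤ t - y := by omega
      have hpy' : p + y ≤ t := by omega
      have hpyR : (p : ℝ) + y ≤ t := by exact_mod_cast hpy'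
      suffices h : p + DL B p ≤ t by omega
      by_cases h4 : (t : ℝ) ≤ 4 * p
      · have h5 := (g2 p).2.1 h4 (by omega)
        have h6 := DL_le B p
        have h7 : (p : ℝ) + DL B p ≤ t := by linarith
        exact_mod_cast h7
      · push Not at h4
        rcases eq_or_lt_of_le hp.two_le with h2 | h2
        · rw [← h2]; exact ht2
        · have hp3 : (3 : ℝ) ≤ p := by exact_mod_cast h2
          have hlp : 1 ≤ Real.log p := by
            rw [Real.le_log_iff_exp_le (by linarith)]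
            have := Real.exp_one_lt_d9
            linarith
          have h5 : EB B p ≤ p := by
            unfold EB
            apply div_le_self (by linarith)
            exact one_le_pow₀ hlp
          have h6 := DL_le B p
          have ht4' : (4 : ℝ) ≤ t := by exact_mod_cast ht4
          have h7 : (p : ℝ) + DL B p ≤ t := by linarith
          exact_mod_cast h7) (by
    intro p hp hpp
    have h1 := Pool.Agent.U839.Disp.HH_le (μ := μ) hm hL (Ioc t (t + W)) hpp
    rw [card_wl] at h1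
    refine h1.trans ?_
    exact div_le_div_of_nonneg_left (Nat.cast_nonneg W) hE1ε (hDlo p hp))
  refine le_trans ?_ hlow
  apply Real.exp_le_exp.2
  rw [neg_le_neg_iff]
  have hTc : (T.card : ℝ) ≤ (1 + 5 * ε) * E / L := by
    have h1 : T.card ≤ pi2 (t - y) t + W := by
      have h2 : T ⊆ ((Ioc (t - y) t).filter Nat.Prime) ∪ Ioc t (t + W) := by
        intro p hp
        rw [hT, Finset.mem_filter, Finset.mem_Ioc] at hp
        rw [Finset.mem_union, Finset.mem_filter, Finset.mem_Ioc, Finset.mem_Ioc]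
        by_cases h : p ≤ t
        · exact Or.inl ⟨⟨hp.1.1, h⟩, hp.2⟩
        · exact Or.inr ⟨by omega, hp.1.2⟩
      refine (Finset.card_le_card h2).trans ((Finset.card_union_le _ _).trans ?_)
      rw [card_wl]
      exact le_rfl
    have h1' : (T.card : ℝ) ≤ pi2 (t - y) t + W := by exact_mod_cast h1
    have h2 := (abs_le.1 hpnt).2
    have h3 : (y : ℝ) / L ≤ ((1 + 2 * ε) * E + 1) / L := by gcongr
    have h4 : ((1 + 2 * ε) * E + 1) / L + ε * (E / L) + W ≤ (1 + 5 * ε) * E / L := by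
      rw [le_div_iff₀ hL0]
      have : (((1 + 2 * ε) * E + 1) / L + ε * (E / L) + W) * L =
          (1 + 2 * ε) * E + 1 + ε * E + W * L := by
        field_simp
      rw [this]
      linarith
    linarith
  have hWL : b * ((1 + 5 * ε) * E / L) = W * ((1 + 5 * ε) / (1 - ε)) / L := by
    rw [hb]
    have : (1 - ε) ≠ 0 := by linarith
    field_simp
  calc (b + 2 * b ^ 2) * T.card ≤ (b * (1 + ε)) * ((1 + 5 * ε) * E / L) := by
        apply mul_le_mul _ hTc (Nat.cast_nonneg _) (by positivity)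
        nlinarith
    _ = (1 + ε) * (b * ((1 + 5 * ε) * E / L)) := by ring
    _ = (1 + ε) * (W * ((1 + 5 * ε) / (1 - ε)) / L) := by rw [hWL]
    _ = ((1 + ε) * (1 + 5 * ε) / (1 - ε)) * (W / L) := by ring
    _ ≤ (1 + 9 * ε) * c := by
        apply mul_le_mul
        · rw [div_le_iff₀ (by linarith)]
          nlinarith
        · rw [div_le_iff₀ hL0]
          linarith
        · positivity
        · positivity
    _ ≤ c + δ := by linarith

set_option maxHeartbeats 4000000 in
theorem up_l (B : ℕ) (hB : 1 ≤ B) (δ₀ : ℝ) (hδ₀ : 0 < δ₀) (hδ₁ : δ₀ ≤ 1) (c : ℝ) (hc0 : 0 < c)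
    (δ : ℝ) (hδ0 : 0 < δ)
    {ξ : ℕ → Ω → ℕ} (hm : ∀ p, Measurable (ξ p)) (hind : iIndepFun ξ μ)
    (hL : ∀ p : ℕ, p.Prime → ∀ j : ℕ, 1 ≤ j → j ≤ DL B p → δ₀ / (DL B p : ℝ) ≤ μ.real (ξ p ⁻¹' {j})) :
    ∀ᶠ t : ℕ in atTop, μ.real (EE ξ (Ioc t (t + Wl c t))) ≤ Real.exp (-(c * δ₀ - 2 * δ)) := by
  set b : ℝ := c * δ₀ with hb
  have hb0 : 0 < b := by rw [hb]; positivity
  set ε : ℝ := min (1 / 20) (δ / (7 * b)) with hεd
  have hε : 0 < ε := lt_min (by norm_num) (by positivity)
  have hε20 : ε ≤ 1 / 20 := min_le_left _ _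
  have hε2 : b * (7 * ε) ≤ δ := by
    have h1 : ε ≤ δ / (7 * b) := min_le_right _ _
    calc b * (7 * ε) ≤ b * (7 * (δ / (7 * b))) := by gcongr
      _ = δ := by field_simp
  filter_upwards [pnt_short B hB ε hε, EB_near B ε hε (by linarith), EB_large B (c / (2 * ε)) 2,
    EB_large B (1 / ε) 0, tlog.eventually_ge_atTop 8, tlog.eventually_ge_atTop (1 / δ),
    eventually_ge_atTop 1] with t g1 g2 g3 g4 g5 g6 g7
  set L : ℝ := Real.log t with hLd
  have hL0 : 0 < L := by linarith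
  have ht0 : (0 : ℝ) < t := by exact_mod_cast g7
  set E : ℝ := EB B t with hE
  rw [pow_zero, mul_one] at g4
  have hE1 : 1 ≤ ε * E := by
    rw [div_le_iff₀ hε] at g4
    linarith
  have hE0 : 0 < E := by
    by_contra hcon
    push Not at hcon
    have := mul_nonpos_of_nonneg_of_nonpos hε.le hcon
    linarith
  set W : ℕ := Wl c t with hW
  have hWl : (W : ℝ) ≤ c * L := Nat.floor_le (by positivity)
  have hWle : (W : ℝ) ≤ c * L ^ 2 := by
    refine hWl.trans ?_
    have : L ≤ L ^ 2 := by nlinarith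
    gcongr
  have hWge : c * L - 1 ≤ W := (Nat.sub_one_lt_floor _).le
  have hWE : (W : ℝ) ≤ 2 * ε * E := by
    refine hWle.trans ?_
    have : c / (2 * ε) * L ^ 2 * (2 * ε) ≤ E * (2 * ε) := by gcongr
    calc c * L ^ 2 = c / (2 * ε) * L ^ 2 * (2 * ε) := by field_simp
      _ ≤ _ := this
      _ = _ := by ring
  set y : ℕ := ⌊(1 - 3 * ε) * E⌋₊ with hy
  have hyle : (y : ℝ) ≤ (1 - 3 * ε) * E := Nat.floor_le (by
    apply mul_nonneg _ hE0.le
    linarith)
  have hyge : (1 - 3 * ε) * E - 1 ≤ y := (Nat.sub_one_lt_floor _).le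
  have hyE : (y : ℝ) ≤ E := by nlinarith
  obtain ⟨hyt, hpnt⟩ := g1 y (by linarith)
  have hEt : E ≤ t / L := EB_le B hB (by linarith)
  set T : Finset ℕ := (Ioc (t - y) t).filter Nat.Prime with hT
  have hTmem : ∀ p ∈ T, t < p + y ∧ p ≤ t ∧ p.Prime := by
    intro p hp
    rw [hT, Finset.mem_filter, Finset.mem_Ioc] at hp
    exact ⟨by omega, hp.1.2, hp.2⟩
  have hDlo : ∀ p ∈ T, (1 - ε) * E ≤ DL B p := by
    intro p hp
    obtain ⟨h1, h2, h3⟩ := hTmem p hp
    have h1' : (t : ℝ) < p + y := by exact_mod_cast h1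
    rcases (g2 p).1 (by
      have h4 : (t : ℝ) * (1 - 3 / L) = t - 3 * (t / L) := by ring
      rw [h4]
      have : 0 < t / L := by positivity
      linarith) with h5 | h5
    · exact h5.trans (DL_ge B p)
    · omega
  have hDup : ∀ p ∈ T, (DL B p : ℝ) ≤ (1 + 2 * ε) * E := by
    intro p hp
    obtain ⟨h1, h2, h3⟩ := hTmem p hp
    have h1' : (t : ℝ) < p + y := by exact_mod_cast h1
    have h5 := (g2 p).2.1 (by
      have h6 : t / L ≤ t / 8 := by gcongr
      linarith) h2
    have := DL_le B p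
    linarith
  have hb : ∀ p ∈ T, (W : ℝ) * (δ₀ / ((1 + 2 * ε) * E)) ≤ μ.real (HH ξ (Ioc t (t + W)) p) := by
    intro p hp
    obtain ⟨h1, h2, h3⟩ := hTmem p hp
    have h4 := hDlo p hp
    have h5 : 0 < (1 - ε) * E := mul_pos (by linarith) hE0
    have h6 : 0 < (DL B p : ℝ) := h5.trans_le h4
    have h7 : (W : ℝ) * (δ₀ / ((1 + 2 * ε) * E)) ≤ W * (δ₀ / (DL B p : ℝ)) := by
      apply mul_le_mul_of_nonneg_left _ (Nat.cast_nonneg W)
      exact div_le_div_of_nonneg_left hδ₀.le h6 (hDup p hp)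
    refine h7.trans ?_
    have h8 := HH_ge hm (D := DL B) (δ₀ / (DL B p : ℝ)) (Ioc t (t + W)) (p := p) (hL p h3) (by
      intro i hi
      rw [Finset.mem_Ioc] at hi
      refine ⟨by omega, ?_⟩
      have h5 : (y : ℝ) + W ≤ DL B p := by linarith
      have h6 : y + W ≤ DL B p := by exact_mod_cast h5
      omega)
    rwa [card_wl] at h8
  refine (Pool.Agent.U839.Disp.EE_upper hm hind _ T _ (fun p hp => (hTmem p hp).2.2) hb).trans ?_
  apply Real.exp_le_exp.2
  rw [neg_le_neg_iff]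
  have hTc : (1 - 5 * ε) * E / L ≤ T.card := by
    have h1 := (abs_le.1 hpnt).1
    have h2 : (pi2 (t - y) t : ℝ) = T.card := rfl
    rw [h2] at h1
    have h3 : ((1 - 3 * ε) * E - 1) / L ≤ y / L := by gcongr
    have h4 : (1 - 5 * ε) * E / L ≤ ((1 - 3 * ε) * E - 1) / L - ε * (E / L) := by
      have : ((1 - 3 * ε) * E - 1) / L - ε * (E / L) = ((1 - 3 * ε) * E - 1 - ε * E) / L := by
        field_simp
      rw [this]
      gcongr
      linarith
    linarith
  have h1 : (b - δ) - 1 / L ≤ δ₀ * W * (1 - 7 * ε) / L := by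
    have h2 : δ₀ * (c * L - 1) * (1 - 7 * ε) ≤ δ₀ * W * (1 - 7 * ε) := by
      apply mul_le_mul_of_nonneg_right _ (by linarith)
      exact mul_le_mul_of_nonneg_left hWge hδ₀.le
    have h3 : (b - δ) * L - 1 ≤ δ₀ * (c * L - 1) * (1 - 7 * ε) := by
      have h4 : b - δ ≤ b * (1 - 7 * ε) := by
        linarith
      have h5 : (b - δ) * L ≤ b * (1 - 7 * ε) * L := by gcongr
      have h6 : δ₀ * (1 - 7 * ε) ≤ 1 := by nlinarith
      have h7 : δ₀ * (c * L - 1) * (1 - 7 * ε) = b * (1 - 7 * ε) * L - δ₀ * (1 - 7 * ε) := by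
        rw [‹b = c * δ₀›]; ring
      linarith
    rw [le_div_iff₀ hL0]
    have h6 : ((b - δ) - 1 / L) * L = (b - δ) * L - 1 := by
      field_simp
    rw [h6]
    linarith
  have h7 : δ₀ * W * (1 - 7 * ε) / L ≤ W * (δ₀ / ((1 + 2 * ε) * E)) * ((1 - 5 * ε) * E / L) := by
    have h8 : (W : ℝ) * (δ₀ / ((1 + 2 * ε) * E)) * ((1 - 5 * ε) * E / L) =
        δ₀ * W * ((1 - 5 * ε) / (1 + 2 * ε)) / L := by
      field_simp
    rw [h8]
    have h9 : 1 - 7 * ε ≤ (1 - 5 * ε) / (1 + 2 * ε) := by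
      rw [le_div_iff₀ (by linarith)]
      nlinarith
    gcongr
  have h10 : (W : ℝ) * (δ₀ / ((1 + 2 * ε) * E)) * ((1 - 5 * ε) * E / L) ≤
      W * (δ₀ / ((1 + 2 * ε) * E)) * T.card := by gcongr
  have h11 : 1 / L ≤ δ := by
    rw [div_le_iff₀ hδ0] at g6
    rw [div_le_iff₀ hL0]
    linarith
  linarith

end Pool.Agent.U52.PD
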