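import Mathlib
import Pool.Agent.U52.PD.LogA
import Pool.Agent.U52.PD.CntC

set_option autoImplicit false

/-! # Variance of the number of empty windows of length `l log n` -/

open MeasureTheory ProbabilityTheory Filter Finset Topology

namespace Pool.Agent.U52.PD

open Pool.Agent.U839.Disp (EE EE_meas EE_neg tlog DL)

variable {Ω : Type*} [MeasurableSpace Ω] {μ : Measure Ω} [IsProbabilityMeasure μ]

open Classical in
/-- Chebyshev's inequality if most pairs of events are negatively correlated -/
theorem cheb (S : Finset ℕ) (F : ℕ → Set Ω) (hF : ∀ i ∈ S, MeasurableSet (F i))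
    (R : ℕ → ℕ → Prop) (K η : ℝ) (hη : 0 < η)
    (hneg : ∀ i ∈ S, ∀ j ∈ S, ¬ R i j → μ.real (F i ∩ F j) ≤ μ.real (F i) * μ.real (F j))
    (hK : ∀ i ∈ S, ((S.filter (fun j => R i j)).card : ℝ) ≤ K) :
    μ.real {ω | η ≤ |((S.filter (fun i => ω ∈ F i)).card : ℝ) - ∑ i ∈ S, μ.real (F i)|} ≤
      S.card * K / η ^ 2 := by
  set m : ℝ := ∑ i ∈ S, μ.real (F i) with hm
  set f : ℕ → Ω → ℝ := fun i => (F i).indicator (fun _ => (1 : ℝ)) with hf
  set N : Ω → ℝ := fun ω => ∑ i ∈ S, f i ω with hN
  have hfi : ∀ i ∈ S, Integrable (f i) μ := fun i hi =>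
    (integrable_const (1 : ℝ)).indicator (hF i hi)
  have hf1 : ∀ i ∈ S, ∫ ω, f i ω ∂μ = μ.real (F i) := by
    intro i hi
    rw [hf]
    simp only
    rw [integral_indicator_const _ (hF i hi)]
    simp
  have hff : ∀ i ∈ S, ∀ j ∈ S, Integrable (fun ω => f i ω * f j ω) μ ∧
      ∫ ω, f i ω * f j ω ∂μ = μ.real (F i ∩ F j) := by
    intro i hi j hj
    have e : (fun ω => f i ω * f j ω) = (F i ∩ F j).indicator (fun _ => (1 : ℝ)) := by
      funext ω
      rw [hf]
      simp only [Set.indicator_apply, Set.mem_inter_iff]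
      by_cases h1 : ω ∈ F i <;> by_cases h2 : ω ∈ F j <;> simp [h1, h2]
    rw [e]
    refine ⟨(integrable_const (1 : ℝ)).indicator ((hF i hi).inter (hF j hj)), ?_⟩
    rw [integral_indicator_const _ ((hF i hi).inter (hF j hj))]
    simp
  -- second moment
  have hNint : Integrable N μ := integrable_finsetSum S hfi
  have hN1 : ∫ ω, N ω ∂μ = m := by
    rw [hN, integral_finsetSum S hfi]
    exact Finset.sum_congr rfl hf1
  have hN2e : (fun ω => N ω ^ 2) = fun ω => ∑ i ∈ S, ∑ j ∈ S, f i ω * f j ω := by
    funext ω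
    rw [hN]
    simp only
    rw [sq, Finset.sum_mul_sum]
  have hN2i : Integrable (fun ω => N ω ^ 2) μ := by
    rw [hN2e]
    exact integrable_finsetSum S fun i hi => integrable_finsetSum S fun j hj => (hff i hi j hj).1
  have hN2 : ∫ ω, N ω ^ 2 ∂μ ≤ S.card * K + m ^ 2 := by
    rw [hN2e, integral_finsetSum S fun i hi => integrable_finsetSum S fun j hj => (hff i hi j hj).1]
    have h1 : ∀ i ∈ S, ∫ ω, ∑ j ∈ S, f i ω * f j ω ∂μ ≤ K + μ.real (F i) * m := by
      intro i hi
      rw [integral_finsetSum S fun j hj => (hff i hi j hj).1]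
      calc ∑ j ∈ S, ∫ ω, f i ω * f j ω ∂μ ≤
          ∑ j ∈ S, ((if R i j then (1 : ℝ) else 0) + μ.real (F i) * μ.real (F j)) := by
            apply Finset.sum_le_sum
            intro j hj
            rw [(hff i hi j hj).2]
            split_ifs with h
            · have g1 : μ.real (F i ∩ F j) ≤ 1 := measureReal_le_one
              have g2 : 0 ≤ μ.real (F i) * μ.real (F j) := mul_nonneg measureReal_nonneg measureReal_nonneg
              linarith
            · rw [zero_add]
              exact hneg i hi j hj h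
        _ = ((S.filter (fun j => R i j)).card : ℝ) + μ.real (F i) * m := by
            rw [Finset.sum_add_distrib, ← Finset.mul_sum, ← hm, Finset.card_filter]
            push_cast
            rfl
        _ ≤ _ := by linarith [hK i hi]
    calc _ ≤ ∑ i ∈ S, (K + μ.real (F i) * m) := Finset.sum_le_sum h1
      _ = S.card * K + m ^ 2 := by
          rw [Finset.sum_add_distrib, ← Finset.sum_mul, ← hm, Finset.sum_const, nsmul_eq_mul]
          ring
  -- Chebyshev
  have hNc : ∀ ω, N ω = ((S.filter (fun i => ω ∈ F i)).card : ℝ) := by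
    intro ω
    rw [hN, Finset.card_filter]
    push_cast
    apply Finset.sum_congr rfl
    intro i _
    rw [hf]
    simp only [Set.indicator_apply]
  have hNm : Measurable N := Finset.measurable_fun_sum S fun i hi =>
    (measurable_const (a := (1 : ℝ))).indicator (hF i hi)
  set Z : Set Ω := {ω | η ≤ |((S.filter (fun i => ω ∈ F i)).card : ℝ) - m|} with hZ
  have hZe : Z = {ω | η ≤ |N ω - m|} := by
    rw [hZ]
    ext ω
    rw [Set.mem_ofPred_eq, Set.mem_ofPred_eq, hNc ω]
  have hZm : MeasurableSet Z := by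
    rw [hZe]
    exact measurableSet_le measurable_const (hNm.sub_const m).abs
  have hcheb : η ^ 2 * μ.real Z ≤ ∫ ω, (N ω - m) ^ 2 ∂μ := by
    have e1 : ∫ ω, Z.indicator (fun _ => η ^ 2) ω ∂μ = η ^ 2 * μ.real Z := by
      rw [integral_indicator_const _ hZm]
      rw [smul_eq_mul, mul_comm]
    rw [← e1]
    apply integral_mono
    · exact (integrable_const _).indicator hZm
    · have : (fun ω => (N ω - m) ^ 2) = fun ω => N ω ^ 2 - 2 * m * N ω + m ^ 2 := by
        funext ω; ring
      rw [this]
      exact (hN2i.sub (hNint.const_mul _)).add (integrable_const _)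
    · intro ω
      by_cases hω : ω ∈ Z
      · rw [Set.indicator_of_mem hω]
        rw [hZe, Set.mem_ofPred_eq] at hω
        show η ^ 2 ≤ (N ω - m) ^ 2
        rw [← sq_abs (N ω - m)]
        gcongr
      · rw [Set.indicator_of_notMem hω]
        exact sq_nonneg _
  have hvar : ∫ ω, (N ω - m) ^ 2 ∂μ ≤ S.card * K := by
    have e2 : (fun ω => (N ω - m) ^ 2) = fun ω => (N ω ^ 2 - 2 * m * N ω) + m ^ 2 := by
      funext ω; ring
    have g1 : Integrable (fun ω => 2 * m * N ω) μ := hNint.const_mul _
    have g2 : Integrable (fun ω => N ω ^ 2 - 2 * m * N ω) μ := hN2i.sub g1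
    rw [e2, integral_add g2 (integrable_const _),
      integral_sub hN2i g1, integral_const_mul, hN1, integral_const]
    simp only [probReal_univ, one_smul]
    linarith [hN2, sq m]
  rw [le_div_iff₀ (by positivity), mul_comm]
  exact hcheb.trans hvar

end Pool.Agent.U52.PD
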