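import Mathlib
import Pool.Agent.U52.PD.LogB

set_option autoImplicit false

/-! # The distribution of the distance to the next displaced prime -/

open MeasureTheory ProbabilityTheory Filter Finset Topology

namespace Pool.Agent.U52.PD

open Pool.Agent.U839.Disp (EE EE_meas EE_neg tlog DL)

variable {Ω : Type*} [MeasurableSpace Ω] {μ : Measure Ω} [IsProbabilityMeasure μ]

open Classical in
/-- the number of the `n ≤ X` with `gp Q n > l log n` -/
noncomputable def FL (Q : Set ℕ) (l : ℝ) (X : ℕ) : ℕ :=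
  ((Icc 1 X).filter (fun n : ℕ => l * Real.log n < (gp Q n : ℝ))).card

omit [MeasurableSpace Ω] in
theorem gl_iff (ξ : ℕ → Ω → ℕ) (ω : Ω) (l : ℝ) (hl : 0 ≤ l) (n : ℕ) :
    l * Real.log n < (gp (QQ ξ ω) n : ℝ) ↔ ω ∈ EE ξ (Ioc n (n + Wl l n)) := by
  have hne : {q | q ∈ QQ ξ ω ∧ n < q}.Nonempty := by
    obtain ⟨p, hp1, hp⟩ := Nat.exists_infinite_primes (n + 1)
    exact ⟨p + ξ p ω, ⟨p, hp, rfl⟩, by omega⟩
  have hmem := Nat.sInf_mem hne
  have hle : ∀ p : ℕ, p.Prime → n < p + ξ p ω → sInf {q | q ∈ QQ ξ ω ∧ n < q} ≤ p + ξ p ω :=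
    fun p hp h => Nat.sInf_le ⟨⟨p, hp, rfl⟩, h⟩
  have h0 : 0 ≤ l * Real.log n := mul_nonneg hl (Real.log_natCast_nonneg n)
  unfold gp
  generalize sInf {q | q ∈ QQ ξ ω ∧ n < q} = s at hmem hle
  rw [← Nat.floor_lt h0]
  have e : ⌊l * Real.log n⌋₊ = Wl l n := rfl
  rw [e]
  unfold EE
  rw [Set.mem_ofPred_eq]
  obtain ⟨⟨p, hp, hps⟩, hns⟩ := hmem
  constructor
  · intro h p' hp' hpI
    rw [Finset.mem_Ioc] at hpI
    have := hle p' hp' hpI.1
    omega
  · intro h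
    by_contra hcon
    push Not at hcon
    apply h p hp
    rw [Finset.mem_Ioc, hps]
    omega

theorem FL_anti (Q : Set ℕ) {l l' : ℝ} (h : l ≤ l') (X : ℕ) : FL Q l' X ≤ FL Q l X := by
  classical
  unfold FL
  apply Finset.card_le_card
  intro n hn
  rw [Finset.mem_filter] at hn ⊢
  refine ⟨hn.1, lt_of_le_of_lt ?_ hn.2⟩
  exact mul_le_mul_of_nonneg_right h (Real.log_natCast_nonneg n)

theorem FL_mono (Q : Set ℕ) (l : ℝ) : Monotone (fun X : ℕ => (FL Q l X : ℝ)) := by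
  classical
  intro X Y h
  simp only
  unfold FL
  have : ((Icc 1 X).filter (fun n : ℕ => l * Real.log n < (gp Q n : ℝ))).card ≤
      ((Icc 1 Y).filter (fun n : ℕ => l * Real.log n < (gp Q n : ℝ))).card := by
    apply Finset.card_le_card
    intro n hn
    rw [Finset.mem_filter, Finset.mem_Icc] at hn ⊢
    exact ⟨⟨hn.1.1, hn.1.2.trans h⟩, hn.2⟩
  exact_mod_cast this

theorem pl_lim (B : ℕ) (hB : 1 ≤ B) (l : ℝ) (hl : 0 < l) {ξ : ℕ → Ω → ℕ}
    (hm : ∀ p, Measurable (ξ p)) (hind : iIndepFun ξ μ) (hL : Pool.Agent.U839.Disp.Law μ ξ (DL B)) :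
    Tendsto (fun n : ℕ => μ.real (EE ξ (Ioc n (n + Wl l n)))) atTop (𝓝 (Real.exp (-l))) := by
  rw [tendsto_order]
  constructor
  · intro a ha
    have h1 : Tendsto (fun δ : ℝ => Real.exp (-(l + δ))) (𝓝[>] 0) (𝓝 (Real.exp (-l))) := by
      have h2 : ContinuousAt (fun δ : ℝ => Real.exp (-(l + δ))) 0 := by fun_prop
      have h3 := h2.tendsto
      rw [add_zero] at h3
      exact h3.mono_left nhdsWithin_le_nhds
    obtain ⟨δ, hδ, hδ0⟩ := ((h1.eventually (lt_mem_nhds ha)).and self_mem_nhdsWithin).exists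
    filter_upwards [low_l B hB l hl δ hδ0 hm hind hL] with n hn
    exact lt_of_lt_of_le hδ hn
  · intro a ha
    have h1 : Tendsto (fun δ : ℝ => Real.exp (-(l * 1 - 2 * δ))) (𝓝[>] 0) (𝓝 (Real.exp (-l))) := by
      have h2 : ContinuousAt (fun δ : ℝ => Real.exp (-(l * 1 - 2 * δ))) 0 := by fun_prop
      have h3 := h2.tendsto
      rw [mul_zero, sub_zero, mul_one] at h3
      simp only [mul_one] at h3 ⊢
      exact h3.mono_left nhdsWithin_le_nhds
    obtain ⟨δ, hδ, hδ0⟩ := ((h1.eventually (gt_mem_nhds ha)).and self_mem_nhdsWithin).exists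
    filter_upwards [up_l B hB 1 one_pos le_rfl l hl δ hδ0 hm hind (by
      intro p hp j hj1 hj2
      rw [hL p hp j, if_pos ⟨hj1, hj2⟩])] with n hn
    exact lt_of_le_of_lt hn hδ

theorem mean_lim (p : ℕ → ℝ) (a : ℝ) (h : Tendsto p atTop (𝓝 a)) :
    Tendsto (fun X : ℕ => (∑ n ∈ Icc 1 X, p n) / X) atTop (𝓝 a) := by
  have h1 := ((tendsto_add_atTop_iff_nat 1).2 h).cesaro
  refine h1.congr (fun X => ?_)
  have h2 : ∀ X : ℕ, ∑ i ∈ range X, p (i + 1) = ∑ n ∈ Icc 1 X, p n := by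
    intro X
    induction X with
    | zero => simp
    | succ k ih => rw [Finset.sum_range_succ, ih, Finset.sum_Icc_succ_top (by omega)]
  rw [h2, inv_mul_eq_div]

theorem dev (l : ℝ) (hl : 0 < l) (η : ℝ) (hη : 0 < η) {ξ : ℕ → Ω → ℕ}
    (hm : ∀ p, Measurable (ξ p)) (hind : iIndepFun ξ μ) (k : ℕ) (hk : 1 ≤ k) :
    μ.real {ω | η * (k : ℝ) ^ 3 ≤ |(FL (QQ ξ ω) l (k ^ 3) : ℝ) -
      ∑ n ∈ Icc 1 (k ^ 3), μ.real (EE ξ (Ioc n (n + Wl l n)))|} ≤
      (6 * l + 1) / η ^ 2 * (1 / (k : ℝ) ^ (2 : ℝ)) := by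
  classical
  have hk0 : (0 : ℝ) < k := by exact_mod_cast hk
  have hk1 : (1 : ℝ) ≤ k := by exact_mod_cast hk
  set W : ℕ := Wl l (k ^ 3) with hW
  have hWm : ∀ n : ℕ, 1 ≤ n → n ≤ k ^ 3 → Wl l n ≤ W := by
    intro n h1 h2
    rw [hW]
    unfold Wl
    apply Nat.floor_le_floor
    apply mul_le_mul_of_nonneg_left _ hl.le
    exact Real.log_le_log (by exact_mod_cast h1) (by exact_mod_cast h2)
  have e : ∀ ω, FL (QQ ξ ω) l (k ^ 3) =
      ((Icc 1 (k ^ 3)).filter (fun n => ω ∈ EE ξ (Ioc n (n + Wl l n)))).card := by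
    intro ω
    unfold FL
    congr 1
    apply Finset.filter_congr
    intro n _
    exact gl_iff ξ ω l hl.le n
  simp_rw [e]
  have h1 := cheb (μ := μ) (Icc 1 (k ^ 3)) (fun n => EE ξ (Ioc n (n + Wl l n))) (fun n _ => EE_meas hm _)
    (fun i j => i ≤ j + W ∧ j ≤ i + W) (2 * (W : ℝ) + 1) (η * (k : ℝ) ^ 3) (by positivity) (by
      intro i hi j hj hij
      rw [Finset.mem_Icc] at hi hj
      have k1 := hWm i hi.1 hi.2
      have k2 := hWm j hj.1 hj.2
      apply EE_neg hm hind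
      rw [Finset.disjoint_left]
      intro x hx hx'
      rw [Finset.mem_Ioc] at hx hx'
      apply hij
      constructor <;> omega) (by
      intro i hi
      have h2 : (Icc 1 (k ^ 3)).filter (fun j => i ≤ j + W ∧ j ≤ i + W) ⊆ Icc (i - W) (i + W) := by
        intro j hj
        rw [Finset.mem_filter] at hj
        rw [Finset.mem_Icc]
        omega
      have h3 := Finset.card_le_card h2
      rw [Nat.card_Icc] at h3
      have h4 : i + W + 1 - (i - W) ≤ 2 * W + 1 := by omega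
      have h5 : (((Icc 1 (k ^ 3)).filter (fun j => i ≤ j + W ∧ j ≤ i + W)).card : ℝ) ≤ 2 * W + 1 := by
        exact_mod_cast h3.trans h4
      convert h5)
  refine le_trans (le_of_eq ?_) (h1.trans ?_)
  · rfl
  · rw [Nat.card_Icc, Nat.add_sub_cancel]
    have hWle : (W : ℝ) ≤ 3 * l * k := by
      have h5 : (W : ℝ) ≤ l * Real.log ((k ^ 3 : ℕ) : ℝ) :=
        Nat.floor_le (mul_nonneg hl.le (Real.log_natCast_nonneg _))
      push_cast at h5
      rw [Real.log_pow] at h5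
      have h6 : Real.log (k : ℝ) ≤ k := Real.log_le_self hk0.le
      push_cast at h5
      nlinarith
    rw [Real.rpow_two]
    push_cast
    rw [div_le_iff₀ (by positivity)]
    have h7 : (6 * l + 1) / η ^ 2 * (1 / (k : ℝ) ^ 2) * (η * (k : ℝ) ^ 3) ^ 2 =
        (6 * l + 1) * (k : ℝ) ^ 4 := by
      field_simp
    rw [h7]
    calc (k : ℝ) ^ 3 * (2 * (W : ℝ) + 1) ≤ (k : ℝ) ^ 3 * (2 * (3 * l * k) + k) := by gcongr
      _ = _ := by ring

theorem ae_lim (B : ℕ) (hB : 1 ≤ B) (l : ℝ) (hl : 0 < l) {ξ : ℕ → Ω → ℕ}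
    (hm : ∀ p, Measurable (ξ p)) (hind : iIndepFun ξ μ) (hL : Pool.Agent.U839.Disp.Law μ ξ (DL B)) :
    ∀ᵐ ω ∂μ, Tendsto (fun X : ℕ => (FL (QQ ξ ω) l X : ℝ) / X) atTop (𝓝 (Real.exp (-l))) := by
  have hmean := mean_lim _ _ (pl_lim B hB l hl hm hind hL)
  set M : ℕ → ℝ := fun X => ∑ n ∈ Icc 1 X, μ.real (EE ξ (Ioc n (n + Wl l n))) with hM
  have key : ∀ i : ℕ, ∀ᵐ ω ∂μ, ∀ᶠ k : ℕ in atTop,
      |(FL (QQ ξ ω) l (k ^ 3) : ℝ) - M (k ^ 3)| < 1 / ((i : ℝ) + 1) * (k : ℝ) ^ 3 := by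
    intro i
    set η : ℝ := 1 / ((i : ℝ) + 1) with hη
    have hη0 : 0 < η := by positivity
    set bad : ℕ → Set Ω := fun k => if 1 ≤ k then
      {ω | η * (k : ℝ) ^ 3 ≤ |(FL (QQ ξ ω) l (k ^ 3) : ℝ) - M (k ^ 3)|} else ∅ with hbad
    have hsum : Summable (fun k : ℕ => (6 * l + 1) / η ^ 2 * (1 / (k : ℝ) ^ (2 : ℝ))) :=
      (Real.summable_one_div_nat_rpow.2 (by norm_num)).mul_left _
    have htot : ∑' k, μ (bad k) ≠ ⊤ := by
      have h5 : ∀ k, μ (bad k) ≤ ENNReal.ofReal ((6 * l + 1) / η ^ 2 * (1 / (k : ℝ) ^ (2 : ℝ))) := by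
        intro k
        rw [hbad]
        simp only
        split_ifs with hk
        · have h6 := dev (μ := μ) l hl η hη0 hm hind k hk
          rw [← ENNReal.ofReal_toReal (measure_ne_top μ _)]
          exact ENNReal.ofReal_le_ofReal h6
        · simp
      exact ne_top_of_le_ne_top hsum.tsum_ofReal_ne_top (ENNReal.tsum_le_tsum h5)
    filter_upwards [ae_eventually_notMem htot] with ω hω
    filter_upwards [hω, eventually_ge_atTop 1] with k hk hk1
    rw [hbad] at hk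
    simp only [if_pos hk1] at hk
    rw [Set.mem_ofPred_eq, not_le] at hk
    exact hk
  filter_upwards [ae_all_iff.2 key] with ω hω
  apply tendsto_div_of_monotone_of_exists_subseq_tendsto_div _ _ (FL_mono (QQ ξ ω) l)
  intro a ha
  refine ⟨fun k => k ^ 3, ?_, ?_, ?_⟩
  · have t1 : Tendsto (fun k : ℕ => (1 + 1 / (k : ℝ)) ^ 3) atTop (𝓝 ((1 + 0) ^ 3)) :=
      (tendsto_const_nhds.add tendsto_one_div_atTop_nhds_zero_nat).pow 3
    rw [add_zero, one_pow] at t1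
    filter_upwards [t1.eventually_le_const ha, eventually_ge_atTop 1] with k hk hk1
    have hk0 : (0 : ℝ) < k := by exact_mod_cast hk1
    push_cast
    calc ((k : ℝ) + 1) ^ 3 = (1 + 1 / (k : ℝ)) ^ 3 * (k : ℝ) ^ 3 := by
          rw [← mul_pow]
          congr 1
          field_simp
      _ ≤ a * (k : ℝ) ^ 3 := by gcongr
  · exact tendsto_pow_atTop (by norm_num)
  · have h1 : Tendsto (fun k : ℕ => M (k ^ 3) / ((k ^ 3 : ℕ) : ℝ)) atTop (𝓝 (Real.exp (-l))) :=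
      hmean.comp (tendsto_pow_atTop (by norm_num))
    have h2 : Tendsto (fun k : ℕ => (FL (QQ ξ ω) l (k ^ 3) : ℝ) / ((k ^ 3 : ℕ) : ℝ) -
        M (k ^ 3) / ((k ^ 3 : ℕ) : ℝ)) atTop (𝓝 0) := by
      rw [Metric.tendsto_atTop']
      intro ε hε
      obtain ⟨i, hi⟩ := exists_nat_one_div_lt hε
      obtain ⟨k₀, hk₀⟩ := eventually_atTop.1 (hω i)
      refine ⟨max k₀ 1, fun k hk => ?_⟩
      have h3 := hk₀ k ((le_max_left _ _).trans hk.le)
      have hk1 : 1 ≤ k := (le_max_right _ _).trans hk.le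
      have hk0 : (0 : ℝ) < k := by exact_mod_cast hk1
      rw [Real.dist_eq, sub_zero, ← sub_div, abs_div]
      push_cast
      rw [abs_of_pos (show (0 : ℝ) < (k : ℝ) ^ 3 by positivity), div_lt_iff₀ (by positivity)]
      refine h3.trans ?_
      gcongr
    have h3 := h1.add h2
    rw [add_zero] at h3
    refine h3.congr (fun k => ?_)
    ring

theorem dist_all (B : ℕ) (hB : 1 ≤ B) {ξ : ℕ → Ω → ℕ}
    (hm : ∀ p, Measurable (ξ p)) (hind : iIndepFun ξ μ) (hL : Pool.Agent.U839.Disp.Law μ ξ (DL B)) :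
    ∀ᵐ ω ∂μ, ∀ l : ℝ, 0 < l →
      Tendsto (fun X : ℕ => (FL (QQ ξ ω) l X : ℝ) / X) atTop (𝓝 (Real.exp (-l))) := by
  have key : ∀ a : ℚ, ∀ᵐ ω ∂μ, 0 < (a : ℝ) →
      Tendsto (fun X : ℕ => (FL (QQ ξ ω) a X : ℝ) / X) atTop (𝓝 (Real.exp (-(a : ℝ)))) := by
    intro a
    by_cases h : 0 < (a : ℝ)
    · filter_upwards [ae_lim B hB a h hm hind hL] with ω hω _
      exact hω
    · filter_upwards with ω h1
      exact absurd h1 h
  filter_upwards [ae_all_iff.2 key] with ω hω l hl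
  rw [tendsto_order]
  constructor
  · intro x hx
    have h1 : Tendsto (fun δ : ℝ => Real.exp (-δ)) (𝓝[>] l) (𝓝 (Real.exp (-l))) := by
      have h2 : ContinuousAt (fun δ : ℝ => Real.exp (-δ)) l := by fun_prop
      exact h2.tendsto.mono_left nhdsWithin_le_nhds
    obtain ⟨δ, hδ, hδ0⟩ := ((h1.eventually (lt_mem_nhds hx)).and self_mem_nhdsWithin).exists
    obtain ⟨a, ha1, ha2⟩ := exists_rat_btwn (show l < δ from hδ0)
    have h3 : x < Real.exp (-(a : ℝ)) := lt_of_lt_of_le hδ (Real.exp_le_exp.2 (by linarith))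
    filter_upwards [(hω a (hl.trans ha1)).eventually (lt_mem_nhds h3)] with X hX
    refine lt_of_lt_of_le hX ?_
    apply div_le_div_of_nonneg_right _ (Nat.cast_nonneg X)
    exact_mod_cast FL_anti _ ha1.le X
  · intro x hx
    have h1 : Tendsto (fun δ : ℝ => Real.exp (-δ)) (𝓝[<] l) (𝓝 (Real.exp (-l))) := by
      have h2 : ContinuousAt (fun δ : ℝ => Real.exp (-δ)) l := by fun_prop
      exact h2.tendsto.mono_left nhdsWithin_le_nhds
    obtain ⟨δ, ⟨hδ, hδ0⟩, hδ1⟩ := (((h1.eventually (gt_mem_nhds hx)).and self_mem_nhdsWithin).and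
      (Ioo_mem_nhdsLT hl)).exists
    obtain ⟨a, ha1, ha2⟩ := exists_rat_btwn (show δ < l from hδ0)
    have h3 : Real.exp (-(a : ℝ)) < x := lt_of_le_of_lt (Real.exp_le_exp.2 (by linarith)) hδ
    filter_upwards [(hω a (hδ1.1.trans ha1)).eventually (gt_mem_nhds h3)] with X hX
    refine lt_of_le_of_lt ?_ hX
    apply div_le_div_of_nonneg_right _ (Nat.cast_nonneg X)
    exact_mod_cast FL_anti _ ha2.le X

end Pool.Agent.U52.PD
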