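import Mathlib
import Pool.Agent.U52.PD.Gap

set_option autoImplicit false

/-! # Small displacements change nothing -/

open MeasureTheory ProbabilityTheory Filter Finset Topology

namespace Pool.Agent.U52.PD

open Pool.Agent.U839.Disp (Wd tlog EB EB_large)

/-- the primes `p`, displaced by `ξ p` -/
def QD (ξ : ℕ → ℕ) : Set ℕ := {q | ∃ p : ℕ, p.Prime ∧ p + ξ p = q}

theorem QD_inf (ξ : ℕ → ℕ) : (QD ξ).Infinite := by
  rw [Set.infinite_iff_exists_gt]
  intro N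
  obtain ⟨p, hp1, hp2⟩ := Nat.exists_infinite_primes (N + 1)
  exact ⟨p + ξ p, ⟨p, hp2, rfl⟩, by omega⟩

theorem GQ_mono (Q : Set ℕ) {X Y : ℕ} (h : X ≤ Y) : GQ Q X ≤ GQ Q Y := by
  unfold GQ
  by_cases hne : {g | ∃ k, Nat.nth (· ∈ Q) (k + 1) ≤ X ∧
      g = Nat.nth (· ∈ Q) (k + 1) - Nat.nth (· ∈ Q) k}.Nonempty
  · apply csSup_le_csSup _ hne
    · rintro g ⟨k, h1, h2⟩
      exact ⟨k, h1.trans h, h2⟩
    · refine ⟨Y, ?_⟩
      rintro g ⟨k, h1, rfl⟩
      omega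
  · rw [Set.not_nonempty_iff_eq_empty] at hne
    rw [hne]
    simp

/-- consecutive elements -/
theorem nth_gap (Q : Set ℕ) (hQ : Q.Infinite) (k m : ℕ) (hm : m ∈ Q) (h : Nat.nth (· ∈ Q) k < m) :
    Nat.nth (· ∈ Q) (k + 1) ≤ m := by
  classical
  have hQ' : (Set.ofPred (· ∈ Q)).Infinite := hQ
  have hmono := Nat.nth_strictMono hQ'
  have h3 : k < Nat.count (· ∈ Q) m := (Nat.lt_nth_iff_count_lt hQ').2 h
  have h4 : Nat.nth (· ∈ Q) (Nat.count (· ∈ Q) m) = m := Nat.nth_count (p := (· ∈ Q)) hm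
  rw [← h4]
  exact hmono.monotone h3

/-- from the displaced primes to the primes -/
theorem T1 (ξ : ℕ → ℕ) (X M : ℕ) (h : ∀ p : ℕ, p.Prime → p ≤ X → ξ p ≤ M) :
    GQ (QD ξ) X ≤ GQ {p | p.Prime} X + M + 1 := by
  classical
  have hQ' : (Set.ofPred (· ∈ QD ξ)).Infinite := QD_inf ξ
  have hmono := Nat.nth_strictMono hQ'
  apply csSup_le'
  rintro g ⟨k, hk, rfl⟩
  obtain ⟨pa, hpa, ha⟩ : Nat.nth (· ∈ QD ξ) k ∈ QD ξ := Nat.nth_mem_of_infinite hQ' k
  obtain ⟨pb, hpb, hb⟩ : Nat.nth (· ∈ QD ξ) (k + 1) ∈ QD ξ := Nat.nth_mem_of_infinite hQ' (k + 1)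
  set a : ℕ := Nat.nth (· ∈ QD ξ) k with had
  set b : ℕ := Nat.nth (· ∈ QD ξ) (k + 1) with hbd
  have hab : a < b := hmono (Nat.lt_succ_self k)
  by_cases hs : b ≤ a + M + 1
  · omega
  push Not at hs
  have hξb := h pb hpb (by omega)
  have h1 := GQ_ge {p | p.Prime} Nat.infinite_setOf_prime a (b - M - 1 - a) X pa pb hpa (by omega) hpb
    (by omega) (by omega) (by
      intro r hr hcon
      have hr' : r.Prime := hr
      have h2 := h r hr' (by omega)
      have h3 := nth_gap (QD ξ) (QD_inf ξ) k (r + ξ r) ⟨r, hr', rfl⟩ (by omega)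
      omega)
  omega

/-- from the primes to the displaced primes -/
theorem T2 (ξ : ℕ → ℕ) (X M : ℕ) (h : ∀ p : ℕ, p.Prime → p ≤ X → ξ p ≤ M) :
    GQ {p | p.Prime} X ≤ GQ (QD ξ) (X + M) + M + 1 := by
  classical
  have hQ' : (Set.ofPred (· ∈ {p : ℕ | p.Prime})).Infinite := Nat.infinite_setOf_prime
  have hmono := Nat.nth_strictMono hQ'
  apply csSup_le'
  rintro g ⟨k, hk, rfl⟩
  have ha : (Nat.nth (· ∈ {p : ℕ | p.Prime}) k).Prime := Nat.nth_mem_of_infinite hQ' k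
  have hb : (Nat.nth (· ∈ {p : ℕ | p.Prime}) (k + 1)).Prime := Nat.nth_mem_of_infinite hQ' (k + 1)
  set a : ℕ := Nat.nth (· ∈ {p : ℕ | p.Prime}) k with had
  set b : ℕ := Nat.nth (· ∈ {p : ℕ | p.Prime}) (k + 1) with hbd
  have hab : a < b := hmono (Nat.lt_succ_self k)
  by_cases hs : b ≤ a + M + 1
  · omega
  push Not at hs
  have hξa := h a ha (by omega)
  have hξb := h b hb hk
  have h1 := GQ_ge (QD ξ) (QD_inf ξ) (a + M) (b - 1 - a - M) (X + M) (a + ξ a) (b + ξ b)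
    ⟨a, ha, rfl⟩ (by omega) ⟨b, hb, rfl⟩ (by omega) (by omega) (by
      rintro q ⟨r, hr, rfl⟩ hcon
      have h2 : r < b := by omega
      have h3 : r ≤ a := by
        by_contra hcon2
        push Not at hcon2
        have := nth_gap {p : ℕ | p.Prime} Nat.infinite_setOf_prime k r hr (by omega)
        omega
      have h4 := h r hr (by omega)
      omega)
  omega

theorem logmono {n X : ℕ} (h : n ≤ X) : Real.log n ≤ Real.log X := by
  rcases Nat.eq_zero_or_pos n with h0 | h0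
  · rw [h0, Nat.cast_zero, Real.log_zero]
    exact Real.log_natCast_nonneg X
  · exact Real.log_le_log (by exact_mod_cast h0) (by exact_mod_cast h)

/-- uniform bound of the displacements up to `X` -/
theorem unif (ξ : ℕ → ℕ) (K : ℝ) (hK : 0 < K) (h : ∀ᶠ n : ℕ in atTop, (ξ n : ℝ) ≤ K * (Real.log n) ^ 2) :
    ∀ᶠ X : ℕ in atTop, ∀ p ≤ X, ξ p ≤ ⌊K * (Real.log X) ^ 2⌋₊ := by
  obtain ⟨n₀, hn₀⟩ := eventually_atTop.1 h
  obtain ⟨m₀, hm₀⟩ : ∃ m₀ : ℕ, ∀ p < n₀, ξ p ≤ m₀ :=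
    ⟨(range n₀).sup ξ, fun p hp => Finset.le_sup (f := ξ) (Finset.mem_range.2 hp)⟩
  have t2 : Tendsto (fun X : ℕ => K * (Real.log X) ^ 2) atTop atTop :=
    (((tendsto_pow_atTop two_ne_zero).comp tlog)).const_mul_atTop hK
  filter_upwards [t2.eventually_ge_atTop (m₀ : ℝ)] with X hX p hp
  apply Nat.le_floor
  by_cases h1 : p < n₀
  · have : (ξ p : ℝ) ≤ m₀ := by exact_mod_cast hm₀ p h1
    linarith
  · push Not at h1
    have h2 := hn₀ p h1
    have h3 := logmono hp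
    have h4 := Real.log_natCast_nonneg p
    refine h2.trans ?_
    gcongr

/-- the upper half of the question is the same for displacements `O((log p)²)` -/
theorem upper_iff (ξ : ℕ → ℕ) (K : ℝ) (hK : 0 < K)
    (h : ∀ᶠ n : ℕ in atTop, (ξ n : ℝ) ≤ K * (Real.log n) ^ 2) :
    (∃ C : ℝ, ∀ᶠ X : ℕ in atTop, (GQ (QD ξ) X : ℝ) ≤ C * (Real.log X) ^ 2) ↔
      ∃ C : ℝ, ∀ᶠ X : ℕ in atTop, (GQ {p | p.Prime} X : ℝ) ≤ C * (Real.log X) ^ 2 := by
  have hu := unif ξ K hK h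
  constructor
  · rintro ⟨C, hC⟩
    obtain ⟨n₀, hn₀⟩ := eventually_atTop.1 hC
    refine ⟨|C| * 4 + K + 1, ?_⟩
    filter_upwards [hu, eventually_ge_atTop n₀, tlog.eventually_ge_atTop 1, EB_large 0 K 2,
      eventually_ge_atTop 2] with X h1 h2 h3 h4 h5
    set M : ℕ := ⌊K * (Real.log X) ^ 2⌋₊ with hM
    have hM1 : (M : ℝ) ≤ K * (Real.log X) ^ 2 := Nat.floor_le (by positivity)
    unfold EB at h4
    rw [pow_zero, div_one] at h4
    have hMX : M ≤ X := by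
      have : (M : ℝ) ≤ X := hM1.trans h4
      exact_mod_cast this
    have h6 := T2 ξ X M (fun p _ hp => h1 p hp)
    have h7 := hn₀ (X + M) (by omega)
    have h8 : Real.log ((X + M : ℕ) : ℝ) ≤ 2 * Real.log X := by
      have h9 : X + M ≤ X ^ 2 := by nlinarith
      have h10 := logmono h9
      push_cast at h10 ⊢
      rw [Real.log_pow] at h10
      exact_mod_cast h10
    have h9 : 0 ≤ Real.log ((X + M : ℕ) : ℝ) := Real.log_natCast_nonneg _
    have h10 : (GQ (QD ξ) (X + M) : ℝ) ≤ |C| * 4 * (Real.log X) ^ 2 := by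
      calc (GQ (QD ξ) (X + M) : ℝ) ≤ C * (Real.log ((X + M : ℕ) : ℝ)) ^ 2 := h7
        _ ≤ |C| * (2 * Real.log X) ^ 2 := by
            apply mul_le_mul (le_abs_self C) _ (by positivity) (abs_nonneg C)
            gcongr
        _ = _ := by ring
    have h11 : (GQ {p | p.Prime} X : ℝ) ≤ GQ (QD ξ) (X + M) + M + 1 := by exact_mod_cast h6
    nlinarith
  · rintro ⟨C, hC⟩
    refine ⟨C + K + 1, ?_⟩
    filter_upwards [hu, hC, tlog.eventually_ge_atTop 1] with X h1 h2 h3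
    set M : ℕ := ⌊K * (Real.log X) ^ 2⌋₊ with hM
    have hM1 : (M : ℝ) ≤ K * (Real.log X) ^ 2 := Nat.floor_le (by positivity)
    have h6 := T1 ξ X M (fun p _ hp => h1 p hp)
    have h11 : (GQ (QD ξ) X : ℝ) ≤ GQ {p | p.Prime} X + M + 1 := by exact_mod_cast h6
    nlinarith

/-- the lower half of the question is the same for displacements `o((log p)²)` -/
theorem lower_iff (ξ : ℕ → ℕ)
    (h : Tendsto (fun n : ℕ => (ξ n : ℝ) / (Real.log n) ^ 2) atTop (𝓝 0)) :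
    (∃ c : ℝ, 0 < c ∧ ∀ᶠ X : ℕ in atTop, c * (Real.log X) ^ 2 ≤ GQ (QD ξ) X) ↔
      ∃ c : ℝ, 0 < c ∧ ∀ᶠ X : ℕ in atTop, c * (Real.log X) ^ 2 ≤ GQ {p | p.Prime} X := by
  have hK : ∀ K : ℝ, 0 < K → ∀ᶠ n : ℕ in atTop, (ξ n : ℝ) ≤ K * (Real.log n) ^ 2 := by
    intro K hK
    filter_upwards [h.eventually_le_const hK, tlog.eventually_ge_atTop 1] with n h1 h2
    rwa [div_le_iff₀ (by positivity)] at h1
  constructor
  · rintro ⟨c, hc, hC⟩
    refine ⟨c / 2, by positivity, ?_⟩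
    filter_upwards [unif ξ (c / 4) (by positivity) (hK _ (by positivity)), hC,
      tlog.eventually_ge_atTop (max 1 (4 / c))] with X h1 h2 h3
    have h3a : 1 ≤ Real.log X := (le_max_left _ _).trans h3
    have h3b : 4 / c ≤ Real.log X := (le_max_right _ _).trans h3
    rw [div_le_iff₀ hc] at h3b
    set M : ℕ := ⌊c / 4 * (Real.log X) ^ 2⌋₊ with hM
    have hM1 : (M : ℝ) ≤ c / 4 * (Real.log X) ^ 2 := Nat.floor_le (by positivity)
    have h6 := T1 ξ X M (fun p _ hp => h1 p hp)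
    have h11 : (GQ (QD ξ) X : ℝ) ≤ GQ {p | p.Prime} X + M + 1 := by exact_mod_cast h6
    have h12 : 1 ≤ c / 4 * (Real.log X) ^ 2 := by nlinarith
    linarith
  · rintro ⟨c, hc, hC⟩
    refine ⟨c / 8, by positivity, ?_⟩
    obtain ⟨n₀, hn₀⟩ := eventually_atTop.1 (((unif ξ (c / 4) (by positivity) (hK _ (by positivity))).and
      hC).and ((tlog.eventually_ge_atTop (max 1 (4 / c))).and (EB_large 0 (c / 4) 2)))
    filter_upwards [eventually_ge_atTop (2 * n₀ + 16)] with X hX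
    obtain ⟨⟨h1, h2⟩, h3, h4⟩ := hn₀ (X / 2) (by omega)
    set Y : ℕ := X / 2 with hY
    have h3a : 1 ≤ Real.log Y := (le_max_left _ _).trans h3
    have h3b : 4 / c ≤ Real.log Y := (le_max_right _ _).trans h3
    rw [div_le_iff₀ hc] at h3b
    set M : ℕ := ⌊c / 4 * (Real.log Y) ^ 2⌋₊ with hM
    have hM1 : (M : ℝ) ≤ c / 4 * (Real.log Y) ^ 2 := Nat.floor_le (by positivity)
    unfold EB at h4
    rw [pow_zero, div_one] at h4
    have hMX : M ≤ Y := by
      have : (M : ℝ) ≤ Y := hM1.trans h4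
      exact_mod_cast this
    have h6 := T2 ξ Y M (fun p _ hp => h1 p hp)
    have h7 := GQ_mono (QD ξ) (show Y + M ≤ X by omega)
    have h11 : (GQ {p | p.Prime} Y : ℝ) ≤ GQ (QD ξ) X + M + 1 := by
      exact_mod_cast (by omega : GQ {p | p.Prime} Y ≤ GQ (QD ξ) X + M + 1)
    have h12 : 1 ≤ c / 4 * (Real.log Y) ^ 2 := by nlinarith
    have h13 : Real.log X ≤ 2 * Real.log Y := by
      have h14 : X ≤ Y ^ 2 := by
        have : 8 ≤ Y := by omega
        nlinarith [show X ≤ 2 * Y + 1 by omega]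
      have h15 := logmono h14
      push_cast at h15
      rw [Real.log_pow] at h15
      exact_mod_cast h15
    have h16 : 0 ≤ Real.log X := Real.log_natCast_nonneg X
    calc c / 8 * (Real.log X) ^ 2 ≤ c / 8 * (2 * Real.log Y) ^ 2 := by gcongr
      _ = c / 2 * (Real.log Y) ^ 2 := by ring
      _ ≤ _ := by linarith

end Pool.Agent.U52.PD
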