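import Mathlib
import Pool.Agent.U52.PD.UpH

set_option autoImplicit false

/-! # A vanishing proportion of the primes is displaced: upper bounds -/

open MeasureTheory ProbabilityTheory Filter Finset Topology

namespace Pool.Agent.U52.PD

open Pool.Agent.U839.Disp (HH EE tlog EB EB_large)

variable {Ω : Type*} [MeasurableSpace Ω] {μ : Measure Ω} [IsProbabilityMeasure μ]

/-- window length `c (log t)² / δ t` -/
noncomputable def WV (c : ℝ) (δ : ℕ → ℝ) (t : ℕ) : ℕ := ⌊c * (Real.log t) ^ 2 / δ t⌋₊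

theorem card_winV (W t : ℕ) : (Ioc t (t + W)).card = W := by
  rw [Nat.card_Ioc, Nat.add_sub_cancel_left]

theorem WV_mono (c : ℝ) (hc : 0 ≤ c) (δ : ℕ → ℝ) (hδ : Antitone δ) (hδ0 : ∀ n, 0 < δ n) :
    Monotone (WV c δ) := by
  intro a b hab
  unfold WV
  apply Nat.floor_le_floor
  have h1 : Real.log a ≤ Real.log b := by
    rcases Nat.eq_zero_or_pos a with h0 | h0
    · rw [h0, Nat.cast_zero, Real.log_zero]
      exact Real.log_natCast_nonneg b
    · exact Real.log_le_log (by exact_mod_cast h0) (by exact_mod_cast hab)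
  have h2 := Real.log_natCast_nonneg a
  have h3 := hδ0 b
  have h4 := hδ hab
  have h5 : c * (Real.log a) ^ 2 ≤ c * (Real.log b) ^ 2 := by gcongr
  exact div_le_div₀ (by positivity) h5 h3 h4

set_option maxHeartbeats 4000000 in
theorem upV : ∃ θ : ℝ, 0 < θ ∧ θ < 1 ∧ ∃ K : ℝ, 0 < K ∧ ∀ κ : ℝ, κ < θ → ∀ (A : ℝ), 1 ≤ A →
    ∀ D : ℕ → ℕ, Monotone D → (∀ n, 1 ≤ D n) → (∀ n, (D (2 * n) : ℝ) ≤ A * D n) →
    (∀ᶠ n : ℕ in atTop, (n : ℝ) ^ θ ≤ D n) → Tendsto (fun n : ℕ => (D n : ℝ) / n) atTop (𝓝 0) →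
    ∀ δ : ℕ → ℝ, Antitone δ → (∀ n, 0 < δ n ∧ δ n ≤ 1) → (∀ᶠ n : ℕ in atTop, (n : ℝ) ^ (-κ) ≤ δ n) →
    ∀ {Ω : Type*} [MeasurableSpace Ω] {μ : Measure Ω} [IsProbabilityMeasure μ] {ξ : ℕ → Ω → ℕ},
      (∀ p, Measurable (ξ p)) → iIndepFun ξ μ →
      (∀ p : ℕ, p.Prime → ∀ j : ℕ, 1 ≤ j → j ≤ D p → δ p / (D p : ℝ) ≤ μ.real (ξ p ⁻¹' {j})) →
      ∀ᶠ t : ℕ in atTop, μ.real (EE ξ (Ioc t (t + WV (K * A) δ t))) ≤ 1 / (t : ℝ) ^ (2 : ℝ) := by
  obtain ⟨δ, η, hδ0, hδ1, hη, X₀, hX₀, hH⟩ := Pool.Agent.H295R3.D.hoheisel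
  refine ⟨1 - δ / 2, by linarith, by linarith, 16 / η, by positivity, ?_⟩
  intro κ hκ A hA D hmono hD1 hdbl hDlow hDo dl hanti hdl hdlow Ω _ μ _ ξ hm hind hL
  set c : ℝ := 16 / η * A with hc
  have hA0 : 0 < A := by linarith
  have hc0 : 0 < c := by positivity
  filter_upwards [hDlow, hDo.eventually_le_const (show (0 : ℝ) < 1 / 2 by norm_num),
    rpow_log_large (1 - δ / 2 - κ) (by linarith) (2 * A * c),
    rpow_log_large (δ / 2) (by linarith) (4 * A), tlog.eventually_ge_atTop 1,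
    tlog.eventually_ge_atTop (2 / c), (tendsto_natCast_atTop_atTop (R := ℝ)).eventually_ge_atTop (4 * X₀),
    rpow_log_large (1 - δ / 2) (by linarith) (4 * A), hdlow]
    with t g1 g2 g3 g4 g5 g6 g7 g8 g9
  set L : ℝ := Real.log t with hLd
  have hL0 : 0 < L := by linarith
  have hX₀R : (2 : ℝ) ≤ X₀ := by exact_mod_cast hX₀
  have ht8 : (8 : ℝ) ≤ t := by linarith
  have ht0 : (0 : ℝ) < t := by linarith
  rw [div_le_iff₀ ht0] at g2
  have hL1 : 1 ≤ L ^ 2 := one_le_pow₀ g5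
  have hd0 := (hdl t).1
  have hd1 := (hdl t).2
  set W : ℕ := WV c dl t with hW
  have hWle : (W : ℝ) ≤ c * L ^ 2 / dl t := Nat.floor_le (by positivity)
  have hWge : c * L ^ 2 / dl t - 1 ≤ W := (Nat.sub_one_lt_floor _).le
  have hDt : (0 : ℝ) < D t := by exact_mod_cast hD1 t
  have hD4 : 4 * A ≤ D t := by
    calc 4 * A = 4 * A * 1 := by ring
      _ ≤ 4 * A * L ^ 2 := by gcongr
      _ ≤ _ := g8
      _ ≤ _ := g1
  have hWD : (W : ℝ) ≤ D t / (2 * A) := by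
    rw [le_div_iff₀ (by positivity)]
    have h1 : 2 * A * c * L ^ 2 ≤ D t * dl t := by
      calc 2 * A * c * L ^ 2 ≤ (t : ℝ) ^ (1 - δ / 2 - κ) := g3
        _ = (t : ℝ) ^ (1 - δ / 2) * (t : ℝ) ^ (-κ) := by
            rw [← Real.rpow_add ht0]
            congr 1
        _ ≤ D t * dl t := by gcongr
    calc (W : ℝ) * (2 * A) ≤ c * L ^ 2 / dl t * (2 * A) := by gcongr
      _ = (2 * A * c * L ^ 2) / dl t := by ring
      _ ≤ (D t * dl t) / dl t := by gcongr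
      _ = D t := by field_simp
  -- the number of primes
  set y : ℕ := ⌊(D t : ℝ) / (2 * A)⌋₊ with hy
  have hyle : (y : ℝ) ≤ D t / (2 * A) := Nat.floor_le (by positivity)
  have hyge : (D t : ℝ) / (2 * A) - 1 ≤ y := (Nat.sub_one_lt_floor _).le
  have hyge2 : (D t : ℝ) / (4 * A) ≤ y := by
    have h1 : (1 : ℝ) ≤ D t / (4 * A) := by
      rw [le_div_iff₀ (by positivity)]
      linarith
    have h2 : (D t : ℝ) / (2 * A) = D t / (4 * A) + D t / (4 * A) := by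
      field_simp; ring
    linarith
  have hyt4 : (y : ℝ) ≤ t / 4 := by
    refine hyle.trans ?_
    rw [div_le_iff₀ (by positivity)]
    nlinarith
  have hyt : y ≤ t := by
    have : (y : ℝ) ≤ t := by linarith
    exact_mod_cast this
  set X : ℕ := t - y with hX
  have hXR : (X : ℝ) = t - y := by rw [hX, Nat.cast_sub hyt]
  have hXt : X ≤ t := Nat.sub_le _ _
  have hX1 : X₀ ≤ X := by
    have : (X₀ : ℝ) ≤ X := by rw [hXR]; linarith
    exact_mod_cast this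
  have hXX : (2 : ℝ) ≤ X := by
    have : (X₀ : ℝ) ≤ X := by exact_mod_cast hX1
    linarith
  have hXy : X + y = t := by omega
  have hHo := hH X y hX1 (by
    have h1 : (X : ℝ) ^ (1 - δ) ≤ (t : ℝ) ^ (1 - δ) := by
      apply Real.rpow_le_rpow (by linarith) (by exact_mod_cast hXt) (by linarith)
    have h2 : (t : ℝ) ^ (1 - δ) * (4 * A) ≤ D t := by
      calc (t : ℝ) ^ (1 - δ) * (4 * A) ≤ (t : ℝ) ^ (1 - δ) * (4 * A * L ^ 2) := by
            have : 4 * A ≤ 4 * A * L ^ 2 := le_mul_of_one_le_right (by positivity) hL1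
            gcongr
        _ ≤ (t : ℝ) ^ (1 - δ) * (t : ℝ) ^ (δ / 2) := by gcongr
        _ = (t : ℝ) ^ (1 - δ / 2) := by
            rw [← Real.rpow_add ht0]
            congr 1
            ring
        _ ≤ D t := g1
    refine h1.trans (le_trans ?_ hyge2)
    rw [le_div_iff₀ (by positivity)]
    exact h2) (by
    have : (y : ℝ) ≤ X := by rw [hXR]; linarith
    exact_mod_cast this)
  rw [hXy] at hHo
  set T : Finset ℕ := (Ioc X t).filter Nat.Prime with hT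
  have hTmem : ∀ p ∈ T, t < p + y ∧ p ≤ t ∧ p.Prime := by
    intro p hp
    rw [hT, Finset.mem_filter, Finset.mem_Ioc] at hp
    exact ⟨by omega, hp.1.2, hp.2⟩
  have hDlo : ∀ p ∈ T, (D t : ℝ) / A ≤ D p := by
    intro p hp
    obtain ⟨h1, h2, h3⟩ := hTmem p hp
    have h4 : t ≤ 2 * p := by
      have h5 : (t : ℝ) < p + y := by exact_mod_cast h1
      have h6 : (t : ℝ) ≤ 2 * p := by linarith
      exact_mod_cast h6
    rw [div_le_iff₀ hA0]
    have h5 : (D t : ℝ) ≤ D (2 * p) := by exact_mod_cast hmono h4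
    have h6 := hdbl p
    linarith
  have hTc : η * y / L ≤ T.card := by
    refine le_trans ?_ hHo
    have h1 : 0 < Real.log X := Real.log_pos (by linarith)
    have h2 : Real.log X ≤ L := Real.log_le_log (by linarith) (by exact_mod_cast hXt)
    apply div_le_div_of_nonneg_left (by positivity) h1 h2
  have hb : ∀ p ∈ T, (W : ℝ) * (dl t / D t) ≤ μ.real (HH ξ (Ioc t (t + W)) p) := by
    intro p hp
    obtain ⟨h1, h2, h3⟩ := hTmem p hp
    have h6 : (0 : ℝ) < D p := by exact_mod_cast hD1 p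
    have h7 : (W : ℝ) * (dl t / D t) ≤ W * (dl p / (D p : ℝ)) := by
      apply mul_le_mul_of_nonneg_left _ (Nat.cast_nonneg W)
      exact div_le_div₀ (hdl p).1.le (hanti h2) h6 (by exact_mod_cast hmono h2)
    refine h7.trans ?_
    have h8 := HH_ge hm (D := D) (dl p / (D p : ℝ)) (Ioc t (t + W)) (p := p) (hL p h3) (by
      intro i hi
      rw [Finset.mem_Ioc] at hi
      refine ⟨by omega, ?_⟩
      have h4 := hDlo p hp
      have h6 : (D t : ℝ) / A = D t / (2 * A) + D t / (2 * A) := by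
        field_simp; ring
      have h7 : (y : ℝ) + W ≤ D p := by linarith
      have h8 : y + W ≤ D p := by exact_mod_cast h7
      omega)
    rwa [card_winV] at h8
  refine (Pool.Agent.U839.Disp.EE_upper hm hind _ T _ (fun p hp => (hTmem p hp).2.2) hb).trans ?_
  have e1 : 1 / (t : ℝ) ^ (2 : ℝ) = Real.exp (-(2 * L)) := by
    rw [Real.rpow_def_of_pos ht0, one_div, ← Real.exp_neg]
    congr 1
    ring
  rw [e1]
  apply Real.exp_le_exp.2
  rw [neg_le_neg_iff]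
  have hWge2 : c * L ^ 2 / dl t / 2 ≤ W := by
    have h1 : 2 ≤ c * L ^ 2 := by
      rw [div_le_iff₀ hc0] at g6
      nlinarith
    have h2 : 2 ≤ c * L ^ 2 / dl t := by
      rw [le_div_iff₀ hd0]
      nlinarith
    linarith
  calc 2 * L = (c * L ^ 2 / dl t / 2) * (dl t / D t) * (η * (D t / (4 * A)) / L) := by
        rw [hc]
        field_simp
        ring
    _ ≤ W * (dl t / D t) * (η * y / L) := by gcongr
    _ ≤ W * (dl t / D t) * T.card := by gcongr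

/-- Borel-Cantelli for general windows -/
theorem bcW {ξ : ℕ → Ω → ℕ} (W : ℕ → ℕ) (β : ℝ) (hβ : 1 < β)
    (h : ∀ᶠ t : ℕ in atTop, μ.real (EE ξ (Ioc t (t + W t))) ≤ 1 / (t : ℝ) ^ β) :
    ∀ᵐ ω ∂μ, ∀ᶠ t : ℕ in atTop, ω ∉ EE ξ (Ioc t (t + W t)) := by
  obtain ⟨n₀, hn₀⟩ := eventually_atTop.1 h
  set bad' : ℕ → Set Ω := fun t => if n₀ ≤ t then EE ξ (Ioc t (t + W t)) else ∅ with hbad'
  have hsum : Summable (fun n : ℕ => 1 / (n : ℝ) ^ β) := Real.summable_one_div_nat_rpow.2 hβ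
  have htot : ∑' n, μ (bad' n) ≠ ⊤ := by
    have h5 : ∀ n, μ (bad' n) ≤ ENNReal.ofReal (1 / (n : ℝ) ^ β) := by
      intro n
      rw [hbad']
      simp only
      split_ifs with hn
      · rw [← ENNReal.ofReal_toReal (measure_ne_top μ (EE ξ (Ioc n (n + W n))))]
        exact ENNReal.ofReal_le_ofReal (hn₀ n hn)
      · simp
    exact ne_top_of_le_ne_top hsum.tsum_ofReal_ne_top (ENNReal.tsum_le_tsum h5)
  filter_upwards [ae_eventually_notMem htot] with ω hω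
  filter_upwards [hω, eventually_ge_atTop n₀] with n hn hnn
  rw [hbad'] at hn
  simp only [if_pos hnn] at hn
  exact hn

/-- from hit windows to gaps -/
theorem gaps_of {ξ : ℕ → Ω → ℕ} (ω : Ω) (W : ℕ → ℕ)
    (h : ∀ᶠ t : ℕ in atTop, ω ∉ EE ξ (Ioc t (t + W t))) :
    ∀ᶠ k : ℕ in atTop, Nat.nth (· ∈ QQ ξ ω) (k + 1) ≤
      Nat.nth (· ∈ QQ ξ ω) k + W (Nat.nth (· ∈ QQ ξ ω) k) := by
  classical
  have hQ' : (Set.ofPred (· ∈ QQ ξ ω)).Infinite := QQ_inf ξ ω
  have hmono := Nat.nth_strictMono hQ'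
  filter_upwards [hmono.tendsto_atTop.eventually h] with k hk
  unfold EE at hk
  rw [Set.mem_ofPred_eq] at hk
  push Not at hk
  obtain ⟨p, hp, hpI⟩ := hk
  rw [Finset.mem_Ioc] at hpI
  have hm : p + ξ p ω ∈ QQ ξ ω := ⟨p, hp, rfl⟩
  have h3 : k < Nat.count (· ∈ QQ ξ ω) (p + ξ p ω) := (Nat.lt_nth_iff_count_lt hQ').2 hpI.1
  have h4 : Nat.nth (· ∈ QQ ξ ω) (Nat.count (· ∈ QQ ξ ω) (p + ξ p ω)) = p + ξ p ω :=
    Nat.nth_count (p := (· ∈ QQ ξ ω)) hm
  have h5 : Nat.nth (· ∈ QQ ξ ω) (k + 1) ≤ p + ξ p ω := by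
    conv_rhs => rw [← h4]
    exact hmono.monotone h3
  omega

end Pool.Agent.U52.PD
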