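import Mathlib
import Pool.Agent.U52.PD.Van
import Pool.Agent.U52.PD.Cor
import Pool.Agent.U52.PD.Thr

set_option autoImplicit false

/-! # A vanishing proportion of the primes is displaced: gaps -/

open MeasureTheory ProbabilityTheory Filter Finset Topology

namespace Pool.Agent.U52.PD

open Pool.Agent.U839.Disp (tlog EB EB_large)

/-- gaps after displacements with a vanishing proportion of moved primes -/
theorem van_gaps.{u} : ∃ θ : ℝ, 0 < θ ∧ θ < 1 ∧ ∃ K : ℝ, 0 < K ∧ ∀ κ : ℝ, κ < θ → ∀ (A : ℝ), 1 ≤ A →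
    ∀ D : ℕ → ℕ, Monotone D → (∀ n, 1 ≤ D n) → (∀ n, (D (2 * n) : ℝ) ≤ A * D n) →
    (∀ᶠ n : ℕ in atTop, (n : ℝ) ^ θ ≤ D n) → Tendsto (fun n : ℕ => (D n : ℝ) / n) atTop (𝓝 0) →
    ∀ δ : ℕ → ℝ, Antitone δ → (∀ n, 0 < δ n ∧ δ n ≤ 1) → (∀ᶠ n : ℕ in atTop, (n : ℝ) ^ (-κ) ≤ δ n) →
    ∀ (Ω : Type u) [MeasurableSpace Ω] (μ : Measure Ω) [IsProbabilityMeasure μ] (ξ : ℕ → Ω → ℕ),
      (∀ p, Measurable (ξ p)) → iIndepFun ξ μ →
      (∀ p : ℕ, p.Prime → ∀ j : ℕ, 1 ≤ j → j ≤ D p → δ p / (D p : ℝ) ≤ μ.real (ξ p ⁻¹' {j})) →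
      ∀ᵐ ω ∂μ, ∀ᶠ k : ℕ in atTop,
        (Nat.nth (· ∈ QQ ξ ω) (k + 1) : ℝ) - Nat.nth (· ∈ QQ ξ ω) k ≤
          K * A * (Real.log (Nat.nth (· ∈ QQ ξ ω) k)) ^ 2 / δ (Nat.nth (· ∈ QQ ξ ω) k) := by
  obtain ⟨θ, h0, h1, K, hK, h⟩ := upV.{u}
  refine ⟨θ, h0, h1, K, hK, ?_⟩
  intro κ hκ A hA D hmono hD1 hdbl hlow hD0 δ hanti hδ hδlow Ω _ μ _ ξ hm hind hL
  have h2 := bcW _ 2 (by norm_num) (h κ hκ A hA D hmono hD1 hdbl hlow hD0 δ hanti hδ hδlow hm hind hL)
  filter_upwards [h2] with ω hω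
  filter_upwards [gaps_of ω _ hω] with k hk
  have h3 : (Nat.nth (· ∈ QQ ξ ω) (k + 1) : ℝ) ≤ Nat.nth (· ∈ QQ ξ ω) k +
      WV (K * A) δ (Nat.nth (· ∈ QQ ξ ω) k) := by exact_mod_cast hk
  have h4 : (WV (K * A) δ (Nat.nth (· ∈ QQ ξ ω) k) : ℝ) ≤
      K * A * (Real.log (Nat.nth (· ∈ QQ ξ ω) k)) ^ 2 / δ (Nat.nth (· ∈ QQ ξ ω) k) := by
    apply Nat.floor_le
    have := (hδ (Nat.nth (· ∈ QQ ξ ω) k)).1
    have hA0 : 0 < A := by linarith
    positivity
  linarith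

/-- the proportion `(log (p + 3)) ^ (-B)` -/
noncomputable def dB (B : ℝ) (p : ℕ) : ℝ := (Real.log ((p : ℝ) + 3)) ^ (-B)

theorem log3 (n : ℕ) : 1 ≤ Real.log ((n : ℝ) + 3) := by
  have h0 : (0 : ℝ) ≤ n := Nat.cast_nonneg n
  rw [Real.le_log_iff_exp_le (by linarith)]
  have := Real.exp_one_lt_d9
  linarith

theorem dB_pos (B : ℝ) (p : ℕ) : 0 < dB B p := by
  unfold dB
  have := log3 p
  apply Real.rpow_pos_of_pos
  linarith

theorem dB_le (B : ℝ) (hB : 0 ≤ B) (p : ℕ) : dB B p ≤ 1 := by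
  unfold dB
  rw [Real.rpow_neg (by linarith [log3 p])]
  apply inv_le_one_of_one_le₀
  exact Real.one_le_rpow (log3 p) hB

theorem dB_anti (B : ℝ) (hB : 0 ≤ B) : Antitone (dB B) := by
  intro a b hab
  unfold dB
  have h1 := log3 a
  have h2 : Real.log ((a : ℝ) + 3) ≤ Real.log ((b : ℝ) + 3) := by
    apply Real.log_le_log (by positivity)
    have : (a : ℝ) ≤ b := by exact_mod_cast hab
    linarith
  rw [Real.rpow_neg (by linarith), Real.rpow_neg (by linarith)]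
  apply inv_anti₀ (by apply Real.rpow_pos_of_pos; linarith)
  exact Real.rpow_le_rpow (by linarith) h2 hB

theorem dB_low (B κ : ℝ) (hκ : 0 < κ) (hκ1 : κ ≤ 1 / 2) : ∀ᶠ n : ℕ in atTop, (n : ℝ) ^ (-κ) ≤ dB B n := by
  have h1 := (isLittleO_log_rpow_rpow_atTop B hκ).bound (show (0 : ℝ) < 1 / 2 by norm_num)
  have t1 : Tendsto (fun n : ℕ => (n : ℝ) + 3) atTop atTop :=
    tendsto_atTop_add_const_right _ 3 tendsto_natCast_atTop_atTop
  filter_upwards [t1.eventually h1, eventually_ge_atTop 1] with n g1 g2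
  have hn : (1 : ℝ) ≤ n := by exact_mod_cast g2
  have h3 := log3 n
  rw [Real.norm_of_nonneg (by apply Real.rpow_nonneg; linarith),
    Real.norm_of_nonneg (by positivity)] at g1
  unfold dB
  rw [Real.rpow_neg (by linarith), Real.rpow_neg (by linarith)]
  apply inv_anti₀ (by apply Real.rpow_pos_of_pos; linarith)
  refine g1.trans ?_
  have h4 : ((n : ℝ) + 3) ^ κ ≤ 2 * (n : ℝ) ^ κ := by
    calc ((n : ℝ) + 3) ^ κ ≤ (4 * (n : ℝ)) ^ κ := by
          apply Real.rpow_le_rpow (by positivity) (by linarith) hκ.le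
      _ = 4 ^ κ * (n : ℝ) ^ κ := Real.mul_rpow (by norm_num) (by positivity)
      _ ≤ 2 * (n : ℝ) ^ κ := by
          apply mul_le_mul_of_nonneg_right _ (by positivity)
          calc (4 : ℝ) ^ κ ≤ 4 ^ (1 / 2 : ℝ) := Real.rpow_le_rpow_of_exponent_le (by norm_num) hκ1
            _ = 2 := by
                rw [show (4 : ℝ) = 2 ^ (2 : ℝ) by norm_num, ← Real.rpow_mul (by norm_num)]
                norm_num
  linarith

/-- the uniform law with a varying proportion -/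
def VLaw {Ω : Type*} [MeasurableSpace Ω] (μ : Measure Ω) (ξ : ℕ → Ω → ℕ) (δ : ℕ → ℝ) (D : ℕ → ℕ) : Prop :=
  ∀ p : ℕ, p.Prime → ∀ j : ℕ, μ.real (ξ p ⁻¹' {j}) =
    if j = 0 then 1 - δ p else if j ≤ D p then δ p / (D p : ℝ) else 0

/-- polylogarithmic gaps when a proportion `(log p) ^ (-B)` of the primes is moved by up to `p ^ s` -/
theorem van_log.{u} : ∃ θ : ℝ, 0 < θ ∧ θ < 1 ∧ ∀ s : ℝ, θ ≤ s → s < 1 → ∀ B : ℝ, 0 ≤ B →
    ∀ (Ω : Type u) [MeasurableSpace Ω] (μ : Measure Ω) [IsProbabilityMeasure μ] (ξ : ℕ → Ω → ℕ),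
      (∀ p, Measurable (ξ p)) → iIndepFun ξ μ → VLaw μ ξ (dB B) (DP s) →
      ∀ᵐ ω ∂μ, ∀ α : ℝ, B + 2 < α → ∀ᶠ k : ℕ in atTop,
        (Nat.nth (· ∈ QQ ξ ω) (k + 1) : ℝ) - Nat.nth (· ∈ QQ ξ ω) k <
          (Real.log (Nat.nth (· ∈ QQ ξ ω) k)) ^ α := by
  obtain ⟨θ, h0, h1, K, hK, h⟩ := van_gaps.{u}
  refine ⟨θ, h0, h1, ?_⟩
  intro s hs hs1 B hB Ω _ μ _ ξ hm hind hL
  have hs0 : 0 < s := lt_of_lt_of_le h0 hs
  have hD1 : ∀ n, 1 ≤ DP s n := fun n => by unfold DP; omega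
  have h2 := h (θ / 2) (by linarith) 3 (by norm_num) (DP s) (DP_mono s hs0.le) hD1
    (DP_dbl s hs0.le hs1.le) (by
      filter_upwards [eventually_ge_atTop 1] with n hn
      refine le_trans ?_ (DP_ge s n)
      exact Real.rpow_le_rpow_of_exponent_le (by exact_mod_cast hn) hs) (DP_small s hs1) (dB B)
    (dB_anti B hB) (fun n => ⟨dB_pos B n, dB_le B hB n⟩) (dB_low B (θ / 2) (by linarith) (by linarith))
    Ω μ ξ hm hind (by
      intro p hp j hj hj2
      rw [hL p hp, if_neg (by omega), if_pos hj2])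
  filter_upwards [h2] with ω hω α hα
  have hQ' : (Set.ofPred (· ∈ QQ ξ ω)).Infinite := QQ_inf ξ ω
  have hmono := Nat.nth_strictMono hQ'
  have hev : ∀ᶠ n : ℕ in atTop, K * 3 * (Real.log n) ^ 2 / dB B n < (Real.log n) ^ α := by
    have t1 : Tendsto (fun n : ℕ => (Real.log n) ^ (α - B - 2)) atTop atTop :=
      (tendsto_rpow_atTop (by linarith)).comp tlog
    filter_upwards [t1.eventually_gt_atTop (K * 3 * 2 ^ B), tlog.eventually_ge_atTop 1,
      eventually_ge_atTop 3] with n g1 g2 g3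
    have hn : (3 : ℝ) ≤ n := by exact_mod_cast g3
    have hlog : Real.log ((n : ℝ) + 3) ≤ 2 * Real.log n := by
      have h3 : (n : ℝ) + 3 ≤ n ^ 2 := by nlinarith
      have h4 := Real.log_le_log (by positivity) h3
      rw [Real.log_pow] at h4
      exact_mod_cast h4
    have hl3 := log3 n
    have e1 : K * 3 * (Real.log n) ^ 2 / dB B n = K * 3 * (Real.log n) ^ 2 * (Real.log ((n : ℝ) + 3)) ^ B := by
      unfold dB
      rw [Real.rpow_neg (by linarith), div_inv_eq_mul]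
    rw [e1]
    have h5 : (Real.log ((n : ℝ) + 3)) ^ B ≤ 2 ^ B * (Real.log n) ^ B := by
      rw [← Real.mul_rpow (by norm_num) (by linarith)]
      exact Real.rpow_le_rpow (by linarith) hlog hB
    have hL0 : 0 < Real.log n := by linarith
    calc K * 3 * (Real.log n) ^ 2 * (Real.log ((n : ℝ) + 3)) ^ B
        ≤ K * 3 * (Real.log n) ^ 2 * (2 ^ B * (Real.log n) ^ B) := by gcongr
      _ = (K * 3 * 2 ^ B) * ((Real.log n) ^ (2 : ℝ) * (Real.log n) ^ B) := by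
          rw [Real.rpow_two]; ring
      _ < (Real.log n) ^ (α - B - 2) * ((Real.log n) ^ (2 : ℝ) * (Real.log n) ^ B) := by
          apply mul_lt_mul_of_pos_right g1
          positivity
      _ = (Real.log n) ^ α := by
          rw [← Real.rpow_add hL0, ← Real.rpow_add hL0]
          congr 1
          ring
  filter_upwards [hω, hmono.tendsto_atTop.eventually hev] with k hk1 hk2
  exact lt_of_le_of_lt hk1 hk2

/-- uniform bound of the displacements up to `X` -/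
theorem unifB (ξ : ℕ → ℕ) (B : ℝ) (hB : 0 < B) (h : ∀ᶠ n : ℕ in atTop, (ξ n : ℝ) ≤ (Real.log n) ^ B) :
    ∀ᶠ X : ℕ in atTop, ∀ p ≤ X, ξ p ≤ ⌊(Real.log X) ^ B⌋₊ := by
  obtain ⟨n₀, hn₀⟩ := eventually_atTop.1 h
  obtain ⟨m₀, hm₀⟩ : ∃ m₀ : ℕ, ∀ p < n₀, ξ p ≤ m₀ :=
    ⟨(range n₀).sup ξ, fun p hp => Finset.le_sup (f := ξ) (Finset.mem_range.2 hp)⟩
  have t2 : Tendsto (fun X : ℕ => (Real.log X) ^ B) atTop atTop := (tendsto_rpow_atTop hB).comp tlog
  filter_upwards [t2.eventually_ge_atTop (m₀ : ℝ)] with X hX p hp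
  apply Nat.le_floor
  by_cases h1 : p < n₀
  · have : (ξ p : ℝ) ≤ m₀ := by exact_mod_cast hm₀ p h1
    linarith
  · push Not at h1
    have h2 := hn₀ p h1
    have h3 := logmono hp
    have h4 := Real.log_natCast_nonneg p
    refine h2.trans ?_
    exact Real.rpow_le_rpow h4 h3 hB.le

/-- polylogarithmic displacements do not change the question -/
theorem polylog_iff (ξ : ℕ → ℕ) (B : ℝ) (hB : 1 ≤ B)
    (h : ∀ᶠ n : ℕ in atTop, (ξ n : ℝ) ≤ (Real.log n) ^ B) :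
    (∃ α : ℝ, ∀ᶠ X : ℕ in atTop, (GQ (QD ξ) X : ℝ) ≤ (Real.log X) ^ α) ↔
      ∃ α : ℝ, ∀ᶠ X : ℕ in atTop, (GQ {p | p.Prime} X : ℝ) ≤ (Real.log X) ^ α := by
  have hu := unifB ξ B (by linarith) h
  constructor
  · rintro ⟨α, hC⟩
    obtain ⟨n₀, hn₀⟩ := eventually_atTop.1 hC
    set a : ℝ := max α 0 with ha
    have ha0 : 0 ≤ a := le_max_right _ _
    have haα : α ≤ a := le_max_left _ _
    have hsmall : ∀ᶠ X : ℕ in atTop, (Real.log X) ^ B ≤ (X : ℝ) := by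
      have h1 := (isLittleO_log_rpow_rpow_atTop B (show (0 : ℝ) < 1 by norm_num)).bound
        (show (0 : ℝ) < 1 by norm_num)
      filter_upwards [tendsto_natCast_atTop_atTop.eventually h1] with X g1
      rw [Real.norm_of_nonneg (Real.rpow_nonneg (Real.log_natCast_nonneg X) _),
        Real.norm_of_nonneg (by positivity), Real.rpow_one, one_mul] at g1
      exact g1
    refine ⟨2 * a + B + 1, ?_⟩
    filter_upwards [hu, eventually_ge_atTop n₀, tlog.eventually_ge_atTop 3, hsmall,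
      eventually_ge_atTop 2] with X h1 h2 h3 h4 h5
    set M : ℕ := ⌊(Real.log X) ^ B⌋₊ with hM
    have hL0 : 0 < Real.log X := by linarith
    have hM1 : (M : ℝ) ≤ (Real.log X) ^ B := Nat.floor_le (by positivity)
    have hMX : M ≤ X := by
      have : (M : ℝ) ≤ X := hM1.trans h4
      exact_mod_cast this
    have h6 := T2 ξ X M (fun p _ hp => h1 p hp)
    have h7 := hn₀ (X + M) (by omega)
    have h8 : Real.log ((X + M : ℕ) : ℝ) ≤ 2 * Real.log X := by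
      have h9 : X + M ≤ X ^ 2 := by nlinarith
      have h10 := logmono h9
      push_cast at h10 ⊢
      rw [Real.log_pow] at h10
      exact_mod_cast h10
    have h9 : Real.log X ≤ Real.log ((X + M : ℕ) : ℝ) := logmono (by omega)
    have h10 : (GQ (QD ξ) (X + M) : ℝ) ≤ (Real.log X) ^ (2 * a + B) := by
      calc (GQ (QD ξ) (X + M) : ℝ) ≤ (Real.log ((X + M : ℕ) : ℝ)) ^ α := h7
        _ ≤ (Real.log ((X + M : ℕ) : ℝ)) ^ a :=
            Real.rpow_le_rpow_of_exponent_le (by linarith) haα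
        _ ≤ ((Real.log X) ^ (2 : ℝ)) ^ a := by
            apply Real.rpow_le_rpow (by linarith) _ ha0
            rw [Real.rpow_two]
            nlinarith
        _ = (Real.log X) ^ (2 * a) := by rw [← Real.rpow_mul hL0.le]
        _ ≤ _ := Real.rpow_le_rpow_of_exponent_le (by linarith) (by linarith)
    have h11 : (GQ {p | p.Prime} X : ℝ) ≤ GQ (QD ξ) (X + M) + M + 1 := by exact_mod_cast h6
    have h12 : (Real.log X) ^ B ≤ (Real.log X) ^ (2 * a + B) :=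
      Real.rpow_le_rpow_of_exponent_le (by linarith) (by linarith)
    have h13 : (1 : ℝ) ≤ (Real.log X) ^ (2 * a + B) := Real.one_le_rpow (by linarith) (by linarith)
    calc (GQ {p | p.Prime} X : ℝ) ≤ 3 * (Real.log X) ^ (2 * a + B) := by linarith
      _ ≤ Real.log X * (Real.log X) ^ (2 * a + B) := by gcongr
      _ = (Real.log X) ^ (2 * a + B + 1) := by
          rw [Real.rpow_add hL0 (2 * a + B) 1, Real.rpow_one]; ring
  · rintro ⟨α, hC⟩
    set a : ℝ := max α 0 with ha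
    have ha0 : 0 ≤ a := le_max_right _ _
    have haα : α ≤ a := le_max_left _ _
    refine ⟨a + B + 1, ?_⟩
    filter_upwards [hu, hC, tlog.eventually_ge_atTop 3] with X h1 h2 h3
    set M : ℕ := ⌊(Real.log X) ^ B⌋₊ with hM
    have hL0 : 0 < Real.log X := by linarith
    have hM1 : (M : ℝ) ≤ (Real.log X) ^ B := Nat.floor_le (by positivity)
    have h6 := T1 ξ X M (fun p _ hp => h1 p hp)
    have h11 : (GQ (QD ξ) X : ℝ) ≤ GQ {p | p.Prime} X + M + 1 := by exact_mod_cast h6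
    have h10 : (GQ {p | p.Prime} X : ℝ) ≤ (Real.log X) ^ (a + B) :=
      h2.trans (Real.rpow_le_rpow_of_exponent_le (by linarith) (by linarith))
    have h12 : (Real.log X) ^ B ≤ (Real.log X) ^ (a + B) :=
      Real.rpow_le_rpow_of_exponent_le (by linarith) (by linarith)
    have h13 : (1 : ℝ) ≤ (Real.log X) ^ (a + B) := Real.one_le_rpow (by linarith) (by linarith)
    calc (GQ (QD ξ) X : ℝ) ≤ 3 * (Real.log X) ^ (a + B) := by linarith
      _ ≤ Real.log X * (Real.log X) ^ (a + B) := by gcongr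
      _ = (Real.log X) ^ (a + B + 1) := by
          rw [Real.rpow_add hL0 (a + B) 1, Real.rpow_one]; ring

end Pool.Agent.U52.PD
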